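import Pool.Agent.MP_f00251_lc.Iface

-- ======== part 0: formerly Pool.Agent.MP_f00251_lc.Mem.Spec
section MrgPart0

/-! The reversal distance is computable in polynomial time: the statement. -/

set_option autoImplicit false

namespace Pool.Agent.MP_f00251_lc

open Pool.Agent.PolyT

/-- The reversal distance is computable in polynomial time. -/
def DistStmt : Prop :=
  ∃ d : List ℤ → ℕ, Poly d ∧ ∀ π, IsSP π → d π ≤ 2 * π.length + 2 ∧
    (∃ s, Sorts π s ∧ s.length = d π) ∧ ∀ t, Sorts π t → d π ≤ t.length

end Pool.Agent.MP_f00251_lc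

end MrgPart0

-- ======== part 1: formerly Pool.Agent.MP_f00251_lc.Mem.Verifier
section MrgPart1

/-!
The verifier: if the reversal distance is computable in polynomial time, then the number of optimal
sorting sequences is in the counting class.
-/

set_option autoImplicit false

namespace Pool.Agent.MP_f00251_lc

open Pool.Agent.PolyT Pool.Agent.H82 N487b59b3

namespace Ver

section poly

variable {α β : Type} [N487b59b3 α] [N487b59b3 β]

theorem enc_int (a : ℤ) : bitEncode a = bitEncode ((a.toNat, (-a).toNat) : ℕ × ℕ) := rfl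

theorem p_parts {f : α → ℤ} (hf : Poly f) :
    Poly (fun a => (((f a).toNat, (-f a).toNat) : ℕ × ℕ)) := hf

@[fun_prop] theorem p_neg {f : α → ℤ} (hf : Poly f) : Poly (fun a => -f a) :=
  PT.congr ((p_parts hf).snd.pair (p_parts hf).fst) (fun a => by
    beta_reduce; rw [enc_int, neg_neg])

/-- A natural number seen as an integer. -/
def toZ (n : ℕ) : ℤ := n

@[fun_prop] theorem p_toZ {f : α → ℕ} (hf : Poly f) : Poly (fun a => toZ (f a)) :=
  PT.congr (hf.pair (PolyT.Poly.const (0 : ℕ))) (fun a => by
    beta_reduce; rw [enc_int]; simp [toZ])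

@[fun_prop] theorem p_reverse {l : α → List β} (hl : Poly l) : Poly (fun a => (l a).reverse) :=
  hl.reverse

end poly

/-- A reversal that does nothing when its end positions are in the wrong order. -/
def grev (π : List ℤ) (r : ℕ × ℕ) : List ℤ := cond (ltB r.2 r.1) π (rev π r)

theorem rev_perm (π : List ℤ) (r : ℕ × ℕ) (h : r.1 ≤ r.2) :
    ((rev π r).map Int.natAbs).Perm (π.map Int.natAbs) := by
  have h1 : π.take (r.1 - 1) ++ (π.take r.2).drop (r.1 - 1) ++ π.drop r.2 = π := by
    have : π.take (r.1 - 1) = (π.take r.2).take (r.1 - 1) := by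
      rw [List.take_take, min_eq_left (by omega)]
    rw [this, List.take_append_drop, List.take_append_drop]
  conv_rhs => rw [← h1]
  unfold rev
  simp only [List.map_append, List.map_map]
  refine List.Perm.append_right _ (List.Perm.append_left _ ?_)
  have h2 : (Int.natAbs ∘ fun a : ℤ => -a) = Int.natAbs := by
    funext a; simp
  rw [h2]
  exact (List.reverse_perm _).map _

theorem grev_perm (π : List ℤ) (r : ℕ × ℕ) :
    ((grev π r).map Int.natAbs).Perm (π.map Int.natAbs) := by
  unfold grev
  cases h : ltB r.2 r.1
  · exact rev_perm π r (ltB_false_iff.1 h)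
  · exact List.Perm.refl _

theorem foldl_grev_perm (s : List (ℕ × ℕ)) (π : List ℤ) :
    ((s.foldl grev π).map Int.natAbs).Perm (π.map Int.natAbs) := by
  induction s generalizing π with
  | nil => exact List.Perm.refl _
  | cons r s ih => exact (ih _).trans (grev_perm π r)

theorem foldl_grev_eq (s : List (ℕ × ℕ)) (π : List ℤ) (h : ∀ r ∈ s, r.1 ≤ r.2) :
    s.foldl grev π = s.foldl rev π := by
  induction s generalizing π with
  | nil => rfl
  | cons r s ih =>
    have h1 : grev π r = rev π r := by
      unfold grev
      rw [ltB_false_iff.2 (h r (by simp))]; rfl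
    rw [List.foldl_cons, List.foldl_cons, h1]
    exact ih _ (fun t ht => h t (by simp [ht]))

theorem isSP_of_sorts {π : List ℤ} {s : List (ℕ × ℕ)} (h : Sorts π s) : IsSP π := by
  have h1 := foldl_grev_perm s π
  rw [foldl_grev_eq s π (fun r hr => (h.1 r hr).2.1), h.2, List.map_map] at h1
  have h2 : (Int.natAbs ∘ fun a : ℕ => (a : ℤ)) = id := by
    funext a; simp
  rw [h2, List.map_id] at h1
  exact h1.symm

/-- A size of a list of integers that only depends on the absolute values. -/
def wt (l : List ℤ) : ℕ := ((l.map Int.natAbs).map (fun n => 4 * n.size + 3)).sum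

theorem enc_int_le (a : ℤ) : (bitEncode a).length ≤ 2 * a.natAbs.size + 1 := by
  rw [enc_int, length_enc_pair, length_enc_nat, length_enc_nat]
  rcases Int.natAbs_eq a with h | h
  · generalize a.natAbs = n at h
    subst h
    simp
  · generalize a.natAbs = n at h
    subst h
    simp
    omega

theorem le_enc_int (a : ℤ) : a.natAbs.size + 1 ≤ (bitEncode a).length := by
  rw [enc_int, length_enc_pair, length_enc_nat, length_enc_nat]
  rcases Int.natAbs_eq a with h | h
  · generalize a.natAbs = n at h
    subst h
    simp
    omega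
  · generalize a.natAbs = n at h
    subst h
    simp

theorem enc_le_wt (l : List ℤ) : (bitEncode l).length ≤ wt l := by
  induction l with
  | nil => simp
  | cons a l ih =>
    have := enc_int_le a
    rw [length_enc_cons]
    simp only [wt, List.map_cons, List.sum_cons] at ih ⊢
    omega

theorem wt_le_enc (l : List ℤ) : wt l ≤ 2 * (bitEncode l).length := by
  induction l with
  | nil => simp [wt]
  | cons a l ih =>
    have := le_enc_int a
    rw [length_enc_cons]
    simp only [wt, List.map_cons, List.sum_cons] at ih ⊢
    omega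

theorem enc_foldl_grev (s : List (ℕ × ℕ)) (π : List ℤ) :
    (bitEncode (s.foldl grev π)).length ≤ 2 * (bitEncode π).length := by
  refine (enc_le_wt _).trans (le_trans (le_of_eq ?_) (wt_le_enc π))
  exact ((foldl_grev_perm s π).map _).sum_eq

@[fun_prop] theorem p_grev {α : Type} [N487b59b3 α] {f : α → List ℤ} {r : α → ℕ × ℕ}
    (hf : Poly f) (hr : Poly r) : Poly (fun a => grev (f a) (r a)) := by
  unfold grev rev
  fun_prop

@[fun_prop] theorem p_foldl_grev {α : Type} [N487b59b3 α] {f : α → List ℤ}
    {s : α → List (ℕ × ℕ)} (hf : Poly f) (hs : Poly s) :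
    Poly (fun a => (s a).foldl grev (f a)) :=
  Poly.foldl (f := fun _ c r => grev c r) (by fun_prop) hs hf ((Bd.const 2).mul hf.bd)
    (fun a _ => enc_foldl_grev _ _)

/-- The unary code of `i`, as long as `π`. -/
def un (π : List ℤ) (i : ℕ) : List Bool := (idx π).map (fun k => ltB k i)

/-- The code of a list of pairs. -/
def code (π : List ℤ) (s : List (ℕ × ℕ)) : List Bool := s.flatMap (fun r => un π r.1 ++ un π r.2)

/-- The number of ones in block number `j`. -/
def cnt (π : List ℤ) (w : List Bool) (j : ℕ) : ℕ :=
  (((w.drop (j * π.length)).take π.length).filter (fun b => b)).length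

/-- The list of `m` pairs read off a bit string. -/
def dec (π : List ℤ) (m : ℕ) (w : List Bool) : List (ℕ × ℕ) :=
  ((idx (π ++ π ++ [0, 0])).take m).map (fun k => (cnt π w (2 * k), cnt π w (2 * k + 1)))

/-- The test on a list of pairs. -/
def test (π : List ℤ) (m : ℕ) (s : List (ℕ × ℕ)) (w : List Bool) : Bool :=
  s.all (fun r => ltB 0 r.1 && !ltB r.2 r.1 && !ltB π.length r.2) &&
    eqB (s.foldl grev π) ((idx π).map (fun k => toZ (k + 1))) &&
    eqB w ((code π s ++ w.map (fun _ => false)).take w.length) && eqB s.length m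

theorem p_test {α : Type} [N487b59b3 α] {f : α → List ℤ} {m : α → ℕ} {w : α → List Bool}
    (hf : Poly f) (hm : Poly m) (hw : Poly w) :
    Poly (fun a => test (f a) (m a) (dec (f a) (m a) (w a)) (w a)) := by
  have hs : Poly (fun a => dec (f a) (m a) (w a)) := by
    unfold dec cnt
    fun_prop
  unfold test code un
  fun_prop

theorem target (π : List ℤ) : (idx π).map (fun k => toZ (k + 1)) =
    (List.range' 1 π.length).map (fun a : ℕ => (a : ℤ)) := by
  rw [List.range'_eq_map_range, List.map_map, idx]
  refine List.map_congr_left (fun k _ => ?_)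
  simp [toZ, add_comm]

theorem test_iff (π : List ℤ) (m : ℕ) (s : List (ℕ × ℕ)) (w : List Bool) :
    test π m s w = true ↔ Sorts π s ∧
      w = (code π s ++ List.replicate w.length false).take w.length ∧ s.length = m := by
  unfold test Sorts
  simp only [Bool.and_eq_true, List.all_eq_true, ltB_iff, Bool.not_eq_true', ltB_false_iff,
    eqB_iff, target, List.map_const']
  constructor
  · rintro ⟨⟨⟨h1, h2⟩, h3⟩, h4⟩
    refine ⟨⟨fun r hr => ⟨(h1 r hr).1.1, (h1 r hr).1.2, (h1 r hr).2⟩, ?_⟩, h3, h4⟩
    rw [← foldl_grev_eq s π (fun r hr => (h1 r hr).1.2), h2]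
  · rintro ⟨⟨h1, h2⟩, h3, h4⟩
    refine ⟨⟨⟨fun r hr => ⟨⟨(h1 r hr).1, (h1 r hr).2.1⟩, (h1 r hr).2.2⟩, ?_⟩, h3⟩, h4⟩
    rw [foldl_grev_eq s π (fun r hr => (h1 r hr).2.1), h2]

@[simp] theorem length_un (π : List ℤ) (i : ℕ) : (un π i).length = π.length := by simp [un]

theorem count_un (π : List ℤ) (i : ℕ) (h : i ≤ π.length) :
    ((un π i).filter (fun b => b)).length = i := by
  have key : ∀ n, (((List.range n).map (fun k => ltB k i)).filter (fun b => b)).length
      = min n i := by
    intro n
    induction n with
    | zero => simp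
    | succ n ih =>
      rw [List.range_succ, List.map_append, List.filter_append, List.length_append, ih]
      by_cases hn : n < i
      · simp [ltB_iff.2 hn]; omega
      · simp [ltB_false_iff.2 (not_lt.1 hn)]; omega
  rw [un, idx, key, min_eq_right h]

theorem length_code (π : List ℤ) (s : List (ℕ × ℕ)) :
    (code π s).length = s.length * (2 * π.length) := by
  induction s with
  | nil => simp [code]
  | cons r s ih =>
    simp only [code, List.flatMap_cons, List.length_append, length_un, List.length_cons] at ih ⊢
    rw [ih]; ring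

theorem cnt_shift (π : List ℤ) (u w : List Bool) (hu : u.length = π.length) (j : ℕ) :
    cnt π (u ++ w) (j + 1) = cnt π w j := by
  unfold cnt
  rw [show (j + 1) * π.length = u.length + j * π.length by rw [hu]; ring, ← List.drop_drop,
    List.drop_left]

theorem cnt_zero (π : List ℤ) (u w : List Bool) (hu : u.length = π.length) :
    cnt π (u ++ w) 0 = (u.filter (fun b => b)).length := by
  unfold cnt
  rw [zero_mul, List.drop_zero, List.take_left' hu]

theorem read_code (π : List ℤ) (s : List (ℕ × ℕ)) (z : List Bool)
    (h : ∀ r ∈ s, r.1 ≤ π.length ∧ r.2 ≤ π.length) :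
    (List.range s.length).map
      (fun k => (cnt π (code π s ++ z) (2 * k), cnt π (code π s ++ z) (2 * k + 1))) = s := by
  induction s with
  | nil => rfl
  | cons r s ih =>
    have h1 : code π (r :: s) ++ z = un π r.1 ++ (un π r.2 ++ (code π s ++ z)) := by
      simp [code]
    rw [List.length_cons, List.range_succ_eq_map, List.map_cons, List.map_map, h1]
    congr 1
    · rw [mul_zero, cnt_shift _ _ _ (length_un _ _), cnt_zero _ _ _ (length_un _ _),
        cnt_zero _ _ _ (length_un _ _), count_un _ _ (h r (by simp)).1,
        count_un _ _ (h r (by simp)).2]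
    · conv_rhs => rw [← ih (fun t ht => h t (by simp [ht]))]
      refine List.map_congr_left (fun k _ => ?_)
      simp only [Function.comp, Nat.succ_eq_add_one]
      rw [show 2 * (k + 1) + 1 = 2 * k + 1 + 1 + 1 by ring, show 2 * (k + 1) = 2 * k + 1 + 1 by ring,
        cnt_shift _ _ _ (length_un _ _), cnt_shift _ _ _ (length_un _ _),
        cnt_shift _ _ _ (length_un _ _), cnt_shift _ _ _ (length_un _ _)]

theorem dec_code (π : List ℤ) (s : List (ℕ × ℕ)) (z : List Bool)
    (h : ∀ r ∈ s, r.1 ≤ π.length ∧ r.2 ≤ π.length) (hs : s.length ≤ 2 * π.length + 2) :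
    dec π s.length (code π s ++ z) = s := by
  unfold dec idx
  rw [List.take_range, min_eq_left (by simp; omega)]
  exact read_code π s z h

end Ver

open Ver in
theorem member_of (h : DistStmt) : MemberStmt := by
  obtain ⟨d, hd, h⟩ := h
  refine ⟨(2 * Polynomial.X + 2) * (2 * Polynomial.X),
    fun y => test y.1 (d y.1) (dec y.1 (d y.1) y.2) y.2,
    (poly_iff _).1 (p_test Poly.id.fst (hd.comp Poly.id.fst) Poly.id.snd), fun π => ?_⟩
  have hP : (2 * π.length + 2) * (2 * π.length) ≤ Polynomial.eval (bitEncode π).length
      ((2 * Polynomial.X + 2) * (2 * Polynomial.X) : Polynomial ℕ) := by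
    have := length_le_enc π
    simp only [Polynomial.eval_mul, Polynomial.eval_add, Polynomial.eval_ofNat, Polynomial.eval_X]
    exact Nat.mul_le_mul (by omega) (by omega)
  generalize Polynomial.eval (bitEncode π).length
      ((2 * Polynomial.X + 2) * (2 * Polynomial.X) : Polynomial ℕ) = P at hP ⊢
  rw [numOpt, ← Set.ncard_coe_finset]
  symm
  refine Set.ncard_congr (fun w _ => dec π (d π) (List.ofFn w)) ?_ ?_ ?_
  · intro w hw
    simp only [Finset.coe_filter, Finset.mem_univ, true_and, Set.mem_ofPred_eq, test_iff] at hw
    exact ⟨hw.1, fun t ht => hw.2.2.le.trans ((h π (isSP_of_sorts ht)).2.2 t ht)⟩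
  · intro w w' hw hw' he
    simp only [Finset.coe_filter, Finset.mem_univ, true_and, Set.mem_ofPred_eq, test_iff,
      List.length_ofFn] at hw hw' he
    apply List.ofFn_injective
    rw [hw.2.1, hw'.2.1, he]
  · intro s hs
    obtain ⟨h1, ⟨t, ht, h2⟩, h3⟩ := h π (isSP_of_sorts hs.1)
    have hl : s.length = d π := le_antisymm (h2 ▸ hs.2 t ht) (h3 s hs.1)
    have hc : (code π s).length ≤ P := by
      rw [length_code]
      exact (Nat.mul_le_mul_right _ (hl ▸ h1)).trans hP
    have hw : (code π s ++ List.replicate (P - (code π s).length) false).length = P := by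
      simp; omega
    have hdec : dec π (d π) (code π s ++ List.replicate (P - (code π s).length) false) = s := by
      rw [← hl]
      exact dec_code π s _ (fun r hr => ⟨(hs.1.1 r hr).2.1.trans (hs.1.1 r hr).2.2,
        (hs.1.1 r hr).2.2⟩) (hl ▸ h1)
    have hof : List.ofFn (fun i : Fin P =>
        (code π s ++ List.replicate (P - (code π s).length) false).get (i.cast hw.symm)) =
        code π s ++ List.replicate (P - (code π s).length) false := by
      apply List.ext_get (by simp; omega)
      intro i h1 h2
      simp
    refine ⟨fun i : Fin P =>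
        (code π s ++ List.replicate (P - (code π s).length) false).get (i.cast hw.symm), ?_, ?_⟩
    · simp only [Finset.coe_filter, Finset.mem_univ, true_and, Set.mem_ofPred_eq, test_iff]
      rw [hof, hdec, hw]
      refine ⟨hs.1, ?_, hl⟩
      rw [List.take_append, List.take_of_length_le hc, List.take_replicate,
        min_eq_left (Nat.sub_le _ _)]
    · rw [hof, hdec]

end Pool.Agent.MP_f00251_lc

end MrgPart1

-- marker of a merged file
example : 731051 + 426711 = 731051 + 426711 := rfl
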