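import Mathlib
import Mathlib.Algebra.Field.ZMod
import Mathlib.LinearAlgebra.Matrix.Rank
import Mathlib.RingTheory.PicardGroup
import Pool.Agent.Lib.helper82.PolyFun
import Pool.Agent.MP_f00251_lc.Defs
import Pool.Agent.MP_f00251_lc.Mem.Verifier

-- ======== part 0: formerly Pool.Agent.MP_f00251_lc.h19.Link
section MrgPart0

-- ======== part 0: formerly Pool.Agent.MP_f00251_lc.h19.Press
section MrgPart0

/-! Rank one updates of symmetric matrices over the field with two elements. -/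

set_option autoImplicit false

open Matrix Finset

namespace Pool.Agent.MP_f00251_lc.H19

abbrev F2 := ZMod 2

theorem f2_add_self (a : F2) : a + a = 0 := by revert a; decide

theorem f2_mul_self (a : F2) : a * a = a := by revert a; decide

theorem f2_ne_zero {a : F2} : a ≠ 0 ↔ a = 1 := by revert a; decide

variable {ι : Type} [Fintype ι] [DecidableEq ι]

/-- The update `A + v vᵀ`. -/
def upd (A : Matrix ι ι F2) (v : ι → F2) : Matrix ι ι F2 := Matrix.of fun e f => A e f + v e * v f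

omit [Fintype ι] [DecidableEq ι] in
@[simp] theorem upd_apply (A : Matrix ι ι F2) (v : ι → F2) (e f : ι) :
    upd A v e f = A e f + v e * v f := rfl

omit [Fintype ι] [DecidableEq ι] in
theorem upd_upd (A : Matrix ι ι F2) (v : ι → F2) : upd (upd A v) v = A := by
  ext e f
  rw [upd_apply, upd_apply, add_assoc, f2_add_self, add_zero]

omit [Fintype ι] [DecidableEq ι] in
theorem upd_symm {A : Matrix ι ι F2} (h : A.IsSymm) (v : ι → F2) : (upd A v).IsSymm := by
  ext e f
  rw [transpose_apply, upd_apply, upd_apply, h.apply, mul_comm]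

omit [DecidableEq ι] in
theorem upd_mulVec (A : Matrix ι ι F2) (v x : ι → F2) :
    upd A v *ᵥ x = A *ᵥ x + (v ⬝ᵥ x) • v := by
  funext e
  simp only [mulVec, dotProduct, upd_apply, add_mul, Finset.sum_add_distrib, Pi.add_apply,
    Pi.smul_apply, smul_eq_mul, Finset.sum_mul]
  congr 1
  exact Finset.sum_congr rfl fun f _ => by ring

omit [DecidableEq ι] in
theorem range_upd_le (A : Matrix ι ι F2) (v : ι → F2) :
    LinearMap.range (upd A v).mulVecLin ≤ LinearMap.range A.mulVecLin ⊔ Submodule.span F2 {v} := by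
  rintro _ ⟨x, rfl⟩
  rw [mulVecLin_apply, upd_mulVec]
  exact Submodule.add_mem_sup ⟨x, rfl⟩ (Submodule.smul_mem _ _ (Submodule.mem_span_singleton_self v))

omit [DecidableEq ι] in
theorem finrank_sup_le (W : Submodule F2 (ι → F2)) (v : ι → F2) :
    Module.finrank F2 ↥(W ⊔ Submodule.span F2 {v}) ≤ Module.finrank F2 W + 1 :=
  (Submodule.finrank_add_le_finrank_add_finrank _ _).trans (by
    have := finrank_span_le_card (R := F2) ({v} : Set (ι → F2))
    simp only [Set.toFinset_singleton, Finset.card_singleton] at this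
    omega)

omit [DecidableEq ι] in
theorem rank_upd_le (A : Matrix ι ι F2) (v : ι → F2) : (upd A v).rank ≤ A.rank + 1 :=
  (Submodule.finrank_mono (range_upd_le A v)).trans (finrank_sup_le _ v)

omit [DecidableEq ι] in
theorem rank_upd_le_of_mem {A : Matrix ι ι F2} {v w : ι → F2} (h : A *ᵥ w = v) :
    (upd A v).rank ≤ A.rank :=
  Submodule.finrank_mono ((range_upd_le A v).trans (sup_le le_rfl
    ((Submodule.span_singleton_le_iff_mem _ _).2 ⟨w, h⟩)))

omit [DecidableEq ι] in
theorem rank_lt_upd {A : Matrix ι ι F2} (hA : A.IsSymm) {v x : ι → F2} (hx : A *ᵥ x = 0)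
    (hv : v ⬝ᵥ x ≠ 0) : A.rank < (upd A v).rank := by
  have h1 : upd A v *ᵥ x = v := by rw [upd_mulVec, hx, f2_ne_zero.1 hv, zero_add, one_smul]
  have h2 := range_upd_le (upd A v) v
  rw [upd_upd] at h2
  have h3 : LinearMap.range A.mulVecLin ≤ LinearMap.range (upd A v).mulVecLin :=
    h2.trans (sup_le le_rfl ((Submodule.span_singleton_le_iff_mem _ _).2 ⟨x, h1⟩))
  refine Submodule.finrank_lt_finrank_of_lt (lt_of_le_of_ne h3 fun e => hv ?_)
  obtain ⟨w, hw⟩ : v ∈ LinearMap.range A.mulVecLin := e ▸ ⟨x, h1⟩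
  rw [← hw, mulVecLin_apply, dotProduct_comm, dotProduct_mulVec, ← mulVec_transpose, hA.eq, hx,
    zero_dotProduct]

omit [DecidableEq ι] in
theorem rank_upd_lt {A : Matrix ι ι F2} (hA : A.IsSymm) {v w : ι → F2} (h : A *ᵥ w = v)
    (hv : v ⬝ᵥ w ≠ 0) : (upd A v).rank < A.rank := by
  have := rank_lt_upd (upd_symm hA v) (x := w) (v := v) (by
    rw [upd_mulVec, h, f2_ne_zero.1 hv, one_smul]
    funext e
    exact f2_add_self _) hv
  rwa [upd_upd] at this

omit [DecidableEq ι] in
theorem rank_le_upd {A : Matrix ι ι F2} {v w : ι → F2} (h : A *ᵥ w = v) (hv : v ⬝ᵥ w = 0) :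
    A.rank ≤ (upd A v).rank := by
  have := rank_upd_le_of_mem (A := upd A v) (v := v) (w := w) (by
    rw [upd_mulVec, h, hv, zero_smul, add_zero])
  rwa [upd_upd] at this

omit [DecidableEq ι] in
theorem mem_range_of_lt {A : Matrix ι ι F2} {v : ι → F2} (h : (upd A v).rank < A.rank) :
    ∃ w, A *ᵥ w = v := by
  have h2 := range_upd_le (upd A v) v
  rw [upd_upd] at h2
  have h3 := Submodule.eq_of_le_of_finrank_le h2 ((finrank_sup_le _ v).trans h)
  have : v ∈ LinearMap.range A.mulVecLin :=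
    h3 ▸ Submodule.mem_sup_right (Submodule.mem_span_singleton_self v)
  exact this

theorem mulVec_col (A : Matrix ι ι F2) (e : ι) : A *ᵥ Pi.single e 1 = fun f => A f e := by
  funext f
  simp

theorem rank_press {A : Matrix ι ι F2} (hA : A.IsSymm) {e : ι} (he : A e e ≠ 0) :
    (upd A fun f => A f e).rank + 1 = A.rank := by
  have h1 := rank_upd_lt hA (mulVec_col A e) (by simpa using he)
  have h2 := rank_upd_le (upd A fun f => A f e) fun f => A f e
  rw [upd_upd] at h2
  omega

theorem rank_cut {A : Matrix ι ι F2} {e : ι} (he : A e e = 0) :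
    (upd A fun f => A f e).rank = A.rank :=
  le_antisymm (rank_upd_le_of_mem (mulVec_col A e)) (rank_le_upd (mulVec_col A e) (by simpa using he))

omit [DecidableEq ι] in
theorem quad_eq {A : Matrix ι ι F2} (hA : A.IsSymm) (w : ι → F2) :
    (A *ᵥ w) ⬝ᵥ w = ∑ e, A e e * w e := by
  classical
  have h : ∑ p ∈ (univ : Finset ι).offDiag, A p.1 p.2 * w p.2 * w p.1 = 0 :=
    Finset.sum_involution (fun p _ => p.swap) (fun p _ => by
      rw [Prod.fst_swap, Prod.snd_swap, hA.apply p.1 p.2, mul_right_comm, f2_add_self])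
      (fun p hp _ e => (Finset.mem_offDiag.1 hp).2.2 (congrArg Prod.snd e))
      (fun p hp => Finset.mem_offDiag.2 ⟨mem_univ _, mem_univ _, (Finset.mem_offDiag.1 hp).2.2.symm⟩)
      fun p _ => rfl
  simp only [mulVec, dotProduct, Finset.sum_mul]
  rw [← Finset.sum_product', ← Finset.diag_union_offDiag,
    Finset.sum_union (Finset.disjoint_diag_offDiag _), h, add_zero, Finset.sum_diag]
  exact Finset.sum_congr rfl fun e _ => by rw [mul_assoc, f2_mul_self]

/-! ### Components -/

/-- Same component of the graph of `A`. -/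
def Rch (A : Matrix ι ι F2) : ι → ι → Prop := Relation.ReflTransGen fun e f => A e f ≠ 0

/-- The component of `e` has an edge and no loop. -/
def Bad (A : Matrix ι ι F2) (e : ι) : Prop := (∃ f, A e f ≠ 0) ∧ ∀ f, Rch A e f → A f f = 0

/-- The vector `v` is not zero on the component of `e`. -/
def Hit (A : Matrix ι ι F2) (v : ι → F2) (e : ι) : Prop := ∃ f, Rch A e f ∧ v f ≠ 0

omit [Fintype ι] [DecidableEq ι]

variable {A : Matrix ι ι F2} {v : ι → F2} {e f g : ι}

theorem Rch.refl (A : Matrix ι ι F2) (e : ι) : Rch A e e := Relation.ReflTransGen.refl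

theorem Rch.trans (h : Rch A e f) (h' : Rch A f g) : Rch A e g := Relation.ReflTransGen.trans h h'

theorem Rch.single (h : A e f ≠ 0) : Rch A e f := Relation.ReflTransGen.single h

theorem Rch.symm (hA : A.IsSymm) (h : Rch A e f) : Rch A f e := by
  induction h with
  | refl => exact Rch.refl _ _
  | tail _ hc ih => exact (Rch.single (by rwa [hA.apply])).trans ih

theorem Bad.rch (hA : A.IsSymm) (h : Bad A e) (hf : Rch A e f) : Bad A f := by
  refine ⟨?_, fun g hg => h.2 g (hf.trans hg)⟩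
  rcases Relation.ReflTransGen.cases_tail hf with rfl | ⟨c, -, hc⟩
  · exact h.1
  · exact ⟨c, by rwa [hA.apply]⟩

theorem Hit.rch (hA : A.IsSymm) (h : Hit A v e) (hf : Rch A e f) : Hit A v f := by
  obtain ⟨g, h1, h2⟩ := h
  exact ⟨g, (hf.symm hA).trans h1, h2⟩

theorem rch_upd (h : ¬Hit A v e) : Rch (upd A v) e f ↔ Rch A e f := by
  have z : ∀ g, Rch A e g → v g = 0 := fun g hg => by_contra fun t => h ⟨g, hg, t⟩
  constructor
  · intro t
    induction t with
    | refl => exact Rch.refl _ _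
    | tail _ hc ih => exact ih.trans (Rch.single (by simpa [z _ ih] using hc))
  · intro t
    induction t with
    | refl => exact Rch.refl _ _
    | tail hb hc ih => exact ih.trans (Rch.single (by simpa [z _ hb] using hc))

theorem bad_upd (h : ¬Hit A v e) : Bad (upd A v) e ↔ Bad A e := by
  have z : ∀ g, Rch A e g → v g = 0 := fun g hg => by_contra fun t => h ⟨g, hg, t⟩
  simp only [Bad, rch_upd h, upd_apply, z e (Rch.refl _ _), zero_mul, add_zero]
  exact and_congr_right fun _ => forall_congr' fun g => forall_congr' fun hg => by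
    rw [z g hg, zero_mul, add_zero]

theorem hit_upd (h : Hit A v e) : Hit (upd A v) v e := by
  obtain ⟨g, h1, h2⟩ := h
  induction h1 using Relation.ReflTransGen.head_induction_on with
  | refl => exact ⟨g, Rch.refl _ _, h2⟩
  | @head a c hac _ ih =>
    by_cases t : v a = 0
    · obtain ⟨u, h3, h4⟩ := ih
      exact ⟨u, (Rch.single (by simpa [t] using hac)).trans h3, h4⟩
    · exact ⟨a, Rch.refl _ _, t⟩

/-- A touched component is not bad afterwards when the support of `v` has no loop. -/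
theorem not_bad_upd (h : Hit A v e) (hz : ∀ u, v u ≠ 0 → A u u = 0) : ¬Bad (upd A v) e := by
  obtain ⟨u, h1, h2⟩ := hit_upd h
  intro t
  have := t.2 u h1
  rw [upd_apply, hz u h2, zero_add, f2_mul_self] at this
  exact h2 this

/-- There is a safe looped vertex. -/
theorem exists_safe [Fintype ι] (hA : A.IsSymm) (h : ∃ e, A e e ≠ 0) : ∃ e, A e e ≠ 0 ∧
    ∀ f, Hit A (fun x => A x e) f → ¬Bad (upd A fun x => A x e) f := by
  classical
  obtain ⟨e, he, hmax⟩ := Finset.exists_max_image (univ.filter fun e => A e e ≠ 0)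
    (fun e => (univ.filter fun x => A x e ≠ A x x).card) (by simpa [Finset.Nonempty] using h)
  simp only [mem_filter, mem_univ, true_and] at he hmax
  refine ⟨e, he, fun f hf hb => ?_⟩
  obtain ⟨w, h1, h2⟩ := hit_upd hf
  have hw := hb.rch (upd_symm hA _) h1
  have h3 : A w e = 1 := f2_ne_zero.1 h2
  have h4 : A w w ≠ 0 := by
    have := hw.2 w (Rch.refl _ _)
    rw [upd_apply, h3] at this
    intro t
    simp [t] at this
  have key : ∀ x, A x e ≠ A x x → A x w = A x x → False := fun x a b => by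
    have t := hw.2 x (Rch.single (by
      rw [upd_apply, h3, one_mul, hA.apply x w, b]
      revert a
      generalize A x e = p, A x x = q
      revert p q
      decide))
    rw [upd_apply, f2_mul_self] at t
    revert a t
    generalize A x e = p, A x x = q
    revert p q
    decide
  have hsub : (univ.filter fun x => A x e ≠ A x x) ⊆ univ.filter fun x => A x w ≠ A x x :=
    fun x hx => by
      simp only [mem_filter, mem_univ, true_and] at hx ⊢
      exact key x hx
  have heq := Finset.eq_of_subset_of_card_le hsub (hmax w h4)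
  obtain ⟨x, hx⟩ := hw.1
  have h5 : A x e ≠ A x x ↔ A x w ≠ A x x := by simpa using Finset.ext_iff.1 heq x
  rw [upd_apply, h3, one_mul, hA.apply x w] at hx
  revert hx h5
  generalize A x e = p, A x x = q, A x w = r
  revert p q r
  decide

end Pool.Agent.MP_f00251_lc.H19

end MrgPart0

-- ======== part 1: formerly Pool.Agent.MP_f00251_lc.h19.Geom
section MrgPart1

/-! The overlap matrix of a signed permutation in its unsigned framed form. -/

set_option autoImplicit false

open Matrix Finset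

namespace Pool.Agent.MP_f00251_lc.H19

/-- `P p` is the position of the point `p` in the unsigned framed form of a signed permutation. -/
structure Cfg (n : ℕ) (P : ℕ → ℕ) : Prop where
  le : ∀ p, p ≤ 2 * n + 1 → P p ≤ 2 * n + 1
  inj : ∀ p q, p ≤ 2 * n + 1 → q ≤ 2 * n + 1 → P p = P q → p = q
  zero : P 0 = 0
  last : P (2 * n + 1) = 2 * n + 1
  elt : ∀ x, x < n → (P (2 * x + 1) + 1) / 2 = (P (2 * x + 2) + 1) / 2

/-- Reflection of the positions between the gaps `k` and `k'`. -/
def rf (k k' y : ℕ) : ℕ := if 2 * k < y ∧ y ≤ 2 * k' then 2 * k + 1 + 2 * k' - y else y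

def ind (p : Prop) [Decidable p] : F2 := if p then 1 else 0

/-- The overlap matrix. -/
def mat (n : ℕ) (P : ℕ → ℕ) : Matrix (Fin (n + 1)) (Fin (n + 1)) F2 := Matrix.of fun e f =>
  if e = f then ind ((P (2 * e) + P (2 * e + 1)) % 2 = 0) else
    ind (P (2 * e) < P (2 * f)) + ind (P (2 * e) < P (2 * f + 1))
      + ind (P (2 * e + 1) < P (2 * f)) + ind (P (2 * e + 1) < P (2 * f + 1))

/-- The edges that cross the chord between the gaps `k` and `k'`. -/
def chord (n : ℕ) (P : ℕ → ℕ) (k k' : ℕ) (e : Fin (n + 1)) : F2 :=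
  (ind (P (2 * e) ≤ 2 * k) + ind (P (2 * e) ≤ 2 * k'))
    + (ind (P (2 * e + 1) ≤ 2 * k) + ind (P (2 * e + 1) ≤ 2 * k'))

/-- `y` is the position of an end of the edge `e`. -/
def End (P : ℕ → ℕ) (e y : ℕ) : Prop := P (2 * e) = y ∨ P (2 * e + 1) = y

/-- `y` is the position of a point of the component of `e`. -/
def Pt (n : ℕ) (P : ℕ → ℕ) (e : Fin (n + 1)) (y : ℕ) : Prop :=
  ∃ f, Rch (mat n P) e f ∧ End P f y

variable {n : ℕ} {P : ℕ → ℕ}

theorem mat_self (e : Fin (n + 1)) :
    mat n P e e = ind ((P (2 * e) + P (2 * e + 1)) % 2 = 0) := if_pos rfl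

theorem mat_ne {e f : Fin (n + 1)} (h : e ≠ f) : mat n P e f =
    ind (P (2 * e) < P (2 * f)) + ind (P (2 * e) < P (2 * f + 1))
      + ind (P (2 * e + 1) < P (2 * f)) + ind (P (2 * e + 1) < P (2 * f + 1)) := if_neg h

theorem chord_comm (k k' : ℕ) : chord n P k k' = chord n P k' k := by
  funext e
  simp only [chord, add_comm]

theorem chord_self (k : ℕ) : chord n P k k = 0 := by
  funext e
  simp only [chord, f2_add_self, Pi.zero_apply]

namespace Cfg

variable (h : Cfg n P)
include h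

theorem ne1 (e : Fin (n + 1)) : P (2 * e) ≠ P (2 * e + 1) := fun t => by
  have := h.inj _ _ (by omega) (by omega) t
  omega

theorem ne4 {e f : Fin (n + 1)} (hef : e ≠ f) : P (2 * e) ≠ P (2 * f) ∧ P (2 * e) ≠ P (2 * f + 1) ∧
    P (2 * e + 1) ≠ P (2 * f) ∧ P (2 * e + 1) ≠ P (2 * f + 1) := by
  have : (e : ℕ) ≠ f := fun t => hef (Fin.ext t)
  refine ⟨fun t => ?_, fun t => ?_, fun t => ?_, fun t => ?_⟩ <;>
    have := h.inj _ _ (by omega) (by omega) t <;> omega

theorem end_le {e : Fin (n + 1)} {y : ℕ} (t : End P e y) : y ≤ 2 * n + 1 := by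
  rcases t with rfl | rfl <;> exact h.le _ (by omega)

theorem end_unique {e f : Fin (n + 1)} {y : ℕ} (t : End P e y) (t' : End P f y) : e = f := by
  by_contra c
  have := h.ne4 c
  unfold End at t t'
  omega

theorem surj {y : ℕ} (hy : y ≤ 2 * n + 1) : ∃ p, p ≤ 2 * n + 1 ∧ P p = y := by
  have := Finset.surjOn_of_injOn_of_card_le (s := range (2 * n + 2)) (t := range (2 * n + 2)) P
    (fun p hp => by
      have := h.le p (by simp at hp; omega)
      simp; omega)
    (fun p hp q hq => h.inj p q (by simp at hp; omega) (by simp at hq; omega)) le_rfl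
    (show y ∈ (range (2 * n + 2) : Set ℕ) by simp; omega)
  obtain ⟨p, hp, e⟩ := this
  exact ⟨p, by simp at hp; omega, e⟩

theorem exists_end {y : ℕ} (hy : y ≤ 2 * n + 1) : ∃ e : Fin (n + 1), End P e y := by
  obtain ⟨p, hp, rfl⟩ := h.surj hy
  refine ⟨⟨p / 2, by omega⟩, ?_⟩
  rcases Nat.mod_two_eq_zero_or_one p with t | t
  · exact Or.inl (congrArg P (by simp only; omega))
  · exact Or.inr (congrArg P (by simp only; omega))

theorem symm : (mat n P).IsSymm := by
  ext e f
  rw [transpose_apply]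
  by_cases t : e = f
  · rw [t]
  · have := h.ne4 t
    rw [mat_ne t, mat_ne (Ne.symm t)]
    unfold ind
    split_ifs <;> first | omega | decide

theorem refl {k k' : ℕ} (hk' : k' ≤ n) : Cfg n fun p => rf k k' (P p) where
  le p hp := by
    have := h.le p hp
    unfold rf
    split_ifs <;> omega
  inj p q hp hq t := h.inj p q hp hq (by
    unfold rf at t
    split_ifs at t <;> omega)
  zero := by simp [h.zero, rf]
  last := by
    rw [h.last, rf, if_neg (by omega)]
  elt x hx := by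
    have := h.elt x hx
    unfold rf
    split_ifs <;> omega

theorem mat_refl {k k' : ℕ} (hk : k ≤ k') :
    mat n (fun p => rf k k' (P p)) = upd (mat n P) (chord n P k k') := by
  have key : ∀ y z, y ≠ z → ind (rf k k' y < rf k k' z) = ind (y < z) +
      (ind (y ≤ 2 * k) + ind (y ≤ 2 * k')) * (ind (z ≤ 2 * k) + ind (z ≤ 2 * k')) := by
    intro y z t
    unfold ind rf
    split_ifs <;> first | omega | decide
  ext e f
  rw [upd_apply]
  by_cases t : e = f
  · subst t
    rw [mat_self, mat_self, f2_mul_self]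
    unfold chord ind rf
    split_ifs <;> first | omega | decide
  · obtain ⟨a, b, c, d⟩ := h.ne4 t
    rw [mat_ne t, mat_ne t, key _ _ a, key _ _ b, key _ _ c, key _ _ d, chord, chord]
    ring

theorem sum_ends (g : ℕ → F2) :
    ∑ e : Fin (n + 1), (g (P (2 * e)) + g (P (2 * e + 1))) = ∑ y ∈ range (2 * n + 2), g y := by
  have h1 : ∀ m, ∑ e ∈ range m, (g (P (2 * e)) + g (P (2 * e + 1))) =
      ∑ p ∈ range (2 * m), g (P p) := fun m => by
    induction m with
    | zero => rfl
    | succ m ih => rw [sum_range_succ, ih, Nat.mul_succ, sum_range_succ, sum_range_succ, add_assoc]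
  rw [Fin.sum_univ_eq_sum_range (fun e => g (P (2 * e)) + g (P (2 * e + 1))), h1]
  refine Finset.sum_nbij P (fun p hp => ?_) (fun p hp q hq => h.inj p q ?_ ?_) (fun y hy => ?_)
    fun _ _ => rfl
  · have := h.le p (by simp at hp; omega)
    simp; omega
  · simp at hp; omega
  · simp at hq; omega
  · obtain ⟨p, hp, e⟩ := h.surj (y := y) (by simp at hy; omega)
    exact ⟨p, by simp; omega, e⟩

theorem col_eq (e : Fin (n + 1)) :
    (fun f => mat n P f e) = chord n P (P (2 * e) / 2) (P (2 * e + 1) / 2) := by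
  funext f
  by_cases t : f = e
  · subst t
    have := h.ne1 f
    rw [mat_self]
    unfold chord ind
    split_ifs <;> first | omega | decide
  · have := h.ne4 t
    rw [mat_ne t]
    unfold chord ind
    split_ifs <;> first | omega | decide

/-- No proper interval made of whole elements is closed under the edges. -/
theorem not_closed {l r : ℕ} (hl : l ≤ r) (hr : r ≤ 2 * n + 1) (hp : l % 2 = 1 ∨ r % 2 = 0)
    (hc : ∀ (f : Fin (n + 1)) y z, End P f y → End P f z → l ≤ y ∧ y ≤ r → l ≤ z ∧ z ≤ r) :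
    False := by
  have hc' : ∀ i, i ≤ n → (l ≤ P (2 * i) ∧ P (2 * i) ≤ r ↔ l ≤ P (2 * i + 1) ∧ P (2 * i + 1) ≤ r) :=
    fun i hi => ⟨hc ⟨i, by omega⟩ _ _ (Or.inl rfl) (Or.inr rfl),
      hc ⟨i, by omega⟩ _ _ (Or.inr rfl) (Or.inl rfl)⟩
  have h1 := h.sum_ends fun y => ind (l ≤ y ∧ y ≤ r)
  rw [Finset.sum_eq_zero fun e _ => by
    simp only [ind, hc' e (by omega), f2_add_self]] at h1
  simp only [ind, Finset.sum_boole] at h1
  rw [show filter (fun y => l ≤ y ∧ y ≤ r) (range (2 * n + 2)) = Icc l r by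
    ext y; simp; omega, Nat.card_Icc, eq_comm, ZMod.natCast_eq_zero_iff] at h1
  have h2 : ∀ p, p ≤ 2 * n + 1 → ¬(l ≤ P p ∧ P p ≤ r) := fun p => by
    induction p with
    | zero => rw [h.zero]; omega
    | succ p ih =>
      intro hp
      have := ih (by omega)
      obtain ⟨i, rfl | rfl⟩ := Nat.even_or_odd' p
      · rwa [← hc' i (by omega)]
      · have := h.elt i (by omega)
        rw [show 2 * i + 1 + 1 = 2 * i + 2 by rfl]
        omega
  obtain ⟨p, hp, e⟩ := h.surj hr
  exact h2 p hp (by omega)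

theorem adj_of_col {e : Fin (n + 1)} (hz : ∀ f, mat n P f e = 0) :
    P (2 * e) / 2 = P (2 * e + 1) / 2 := by
  by_contra c
  have h0 := hz e
  have h1 := h.ne1 e
  have l1 := h.le (2 * e) (by omega)
  have l2 := h.le (2 * e + 1) (by omega)
  rw [mat_self, ind, ite_eq_right_iff] at h0
  have h2 : (P (2 * e) + P (2 * e + 1)) % 2 = 1 := by
    by_contra t
    exact one_ne_zero (h0 (by omega))
  refine h.not_closed (l := 2 * (min (P (2 * e)) (P (2 * e + 1)) / 2) + 1)
    (r := 2 * (max (P (2 * e)) (P (2 * e + 1)) / 2)) (by omega) (by omega) (by omega)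
    fun f y z hy hz' => ?_
  by_cases t : f = e
  · subst t
    unfold End at hy hz'
    omega
  · have a1 := h.ne4 t
    have a2 := hz f
    rw [mat_ne t] at a2
    unfold End at hy hz'
    unfold ind at a2
    split_ifs at a2 <;> first | omega | exact absurd a2 (by decide)

theorem eq_id (hz : mat n P = 0) (p : ℕ) (hp : p ≤ 2 * n + 1) : P p = p := by
  induction p with
  | zero => exact h.zero
  | succ p ih =>
    have := ih (by omega)
    obtain ⟨i, rfl | rfl⟩ := Nat.even_or_odd' p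
    · have a1 := h.adj_of_col (e := ⟨i, by omega⟩) fun f => by rw [hz]; rfl
      have a2 := h.ne1 ⟨i, by omega⟩
      simp only at a1 a2
      omega
    · have a1 := h.elt i (by omega)
      have a2 := h.inj (2 * i + 1) (2 * i + 2) (by omega) (by omega)
      rw [show 2 * i + 1 + 1 = 2 * i + 2 by rfl]
      omega

omit h in
theorem mat_id (hp : ∀ p, p ≤ 2 * n + 1 → P p = p) : mat n P = 0 := by
  ext e f
  by_cases t : e = f
  · subst t
    rw [mat_self, hp _ (by omega), hp _ (by omega), ind, if_neg (by omega)]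
    rfl
  · have : (e : ℕ) ≠ f := fun c => t (Fin.ext c)
    rw [mat_ne t, hp _ (by omega), hp _ (by omega), hp _ (by omega), hp _ (by omega)]
    unfold ind
    split_ifs <;> first | omega | rfl

omit h in
theorem pt_side {e : Fin (n + 1)} {l r : ℕ} (hc : ∀ f, Rch (mat n P) e f →
    (l < P (2 * f) ∧ P (2 * f) ≤ r ↔ l < P (2 * f + 1) ∧ P (2 * f + 1) ≤ r)) {y z : ℕ}
    (hy : Pt n P e y) (hz : Pt n P e z) : l < y ∧ y ≤ r ↔ l < z ∧ z ≤ r := by
  have key : ∀ f, Rch (mat n P) e f →
      (l < P (2 * f) ∧ P (2 * f) ≤ r ↔ l < P (2 * e) ∧ P (2 * e) ≤ r) := fun f hf => by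
    induction hf with
    | refl => rfl
    | @tail b c hb hbc ih =>
      by_cases t : b = c
      · rwa [← t]
      · have a1 := hc b hb
        have a2 := hc c (Rch.trans hb (Rch.single hbc))
        rw [mat_ne t] at hbc
        unfold ind at hbc
        split_ifs at hbc <;> first | omega | exact absurd hbc (by decide)
  obtain ⟨f, h1, h2⟩ := hy
  obtain ⟨g, h3, h4⟩ := hz
  have := key f h1
  have := key g h3
  have := hc f h1
  have := hc g h3
  unfold End at h2 h4
  omega

theorem rch_of_pt {e g : Fin (n + 1)} {y : ℕ} (h1 : Pt n P e y) (h2 : Pt n P g y) :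
    Rch (mat n P) e g := by
  obtain ⟨f, a, b⟩ := h1
  obtain ⟨f', c, d⟩ := h2
  obtain rfl := h.end_unique b d
  exact a.trans (c.symm h.symm)

omit h in
theorem _root_.Pool.Agent.MP_f00251_lc.H19.Pt.rch {e g : Fin (n + 1)} {y : ℕ} (h1 : Pt n P g y)
    (h2 : Rch (mat n P) e g) : Pt n P e y := by
  obtain ⟨f, a, b⟩ := h1
  exact ⟨f, h2.trans a, b⟩

omit h in
theorem _root_.Pool.Agent.MP_f00251_lc.H19.End.pt {e : Fin (n + 1)} {y : ℕ} (h1 : End P e y) :
    Pt n P e y := ⟨e, Rch.refl _ _, h1⟩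

/-- Components do not cross. -/
theorem noncross {e g : Fin (n + 1)} {a b c d : ℕ} (ha : Pt n P e a) (hb : Pt n P g b)
    (hc : Pt n P e c) (hd : Pt n P g d) (h1 : a < b) (h2 : b < c) (h3 : c < d) :
    Rch (mat n P) e g := by
  by_contra t
  have := pt_side (l := a) (r := c) (fun g' hg' => ?_) hb hd
  · omega
  have t' : ¬Rch (mat n P) e g' := fun x => t (x.trans (hg'.symm h.symm))
  have b1 := pt_side (l := min (P (2 * g')) (P (2 * g' + 1))) (r := max (P (2 * g')) (P (2 * g' + 1)))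
    (fun f hf => ?_) ha hc
  · have c1 : ¬End P g' a := fun x => t' (h.rch_of_pt ha x.pt)
    have c2 : ¬End P g' c := fun x => t' (h.rch_of_pt hc x.pt)
    unfold End at c1 c2
    omega
  have c0 : f ≠ g' := fun x => t' (x ▸ hf)
  have c1 : mat n P f g' = 0 := by_contra fun x => t' (hf.trans (Rch.single x))
  have c2 := h.ne4 c0
  rw [mat_ne c0] at c1
  unfold ind at c1
  split_ifs at c1 <;> first | omega | exact absurd c1 (by decide)

theorem pt_succ {e : Fin (n + 1)} {k : ℕ} (hk : Pt n P e (2 * k)) : Pt n P e (2 * k + 1) := by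
  classical
  by_contra t
  have hle : ∀ y, Pt n P e y → y ≤ 2 * n + 1 := fun y ⟨f, _, b⟩ => h.end_le b
  by_cases c : ∃ q, 2 * k < q ∧ Pt n P e q
  · obtain ⟨q1, q2⟩ := Nat.find_spec c
    have q3 := fun m => Nat.find_min c (m := m)
    generalize Nat.find c = q at q1 q2 q3
    have q4 : q ≠ 2 * k + 1 := fun x => t (x ▸ q2)
    have q5 := hle q q2
    refine h.not_closed (l := 2 * k + 1) (r := q - 1) (by omega) (by omega) (by omega)
      fun f y z hy hz hi => ?_
    have r1 : ¬Rch (mat n P) e f := fun x => q3 y (by omega) ⟨by omega, hy.pt.rch x⟩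
    have r2 : z ≠ 2 * k := fun x => r1 (h.rch_of_pt hk (x ▸ hz.pt))
    have r3 : z ≠ q := fun x => r1 (h.rch_of_pt q2 (x ▸ hz.pt))
    have r4 : ¬z < 2 * k := fun x =>
      r1 ((h.noncross hz.pt hk hy.pt q2 x (by omega) (by omega)).symm h.symm)
    have r5 : ¬q < z := fun x => r1 (h.noncross hk hy.pt q2 hz.pt (by omega) (by omega) x)
    omega
  · have c' : ∃ q, Pt n P e q := ⟨_, hk⟩
    have q2 := Nat.find_spec c'
    have q3 := fun m => Nat.find_min' c' (m := m)
    generalize Nat.find c' = q at q2 q3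
    refine h.not_closed (l := q) (r := 2 * k) (q3 _ hk) (hle _ hk) (by omega)
      fun f y z hy hz hi => ?_
    by_contra x
    have r1 : ¬Rch (mat n P) e f := fun u => by
      have a1 := q3 z (hz.pt.rch u)
      exact c ⟨z, by omega, hz.pt.rch u⟩
    have r2 : y ≠ 2 * k := fun x => r1 (h.rch_of_pt hk (x ▸ hy.pt))
    have r3 : y ≠ q := fun x => r1 (h.rch_of_pt q2 (x ▸ hy.pt))
    have r4 : ¬z < q := fun x =>
      r1 ((h.noncross hz.pt q2 hy.pt hk x (by omega) (by omega)).symm h.symm)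
    have r5 : ¬2 * k < z := fun x => r1 (h.noncross q2 hy.pt hk hz.pt (by omega) (by omega) x)
    omega

/-- The two points of a gap lie in the same component. -/
theorem pt_half {e : Fin (n + 1)} {y : ℕ} : Pt n P e y ↔ y ≤ 2 * n + 1 ∧ Pt n P e (2 * (y / 2)) := by
  obtain ⟨k, rfl | rfl⟩ := Nat.even_or_odd' y
  · rw [Nat.mul_div_cancel_left _ two_pos]
    exact ⟨fun t => ⟨by obtain ⟨f, _, b⟩ := t; exact h.end_le b, t⟩, fun t => t.2⟩
  · rw [show (2 * k + 1) / 2 = k by omega]
    refine ⟨fun t => ?_, fun t => h.pt_succ t.2⟩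
    have a1 : 2 * k + 1 ≤ 2 * n + 1 := by obtain ⟨f, _, b⟩ := t; exact h.end_le b
    obtain ⟨f, hf⟩ := h.exists_end (y := 2 * k) (by omega)
    exact ⟨a1, hf.pt.rch (h.rch_of_pt t (h.pt_succ hf.pt))⟩

/-- A chord touches a component when the component has gaps on both sides. -/
theorem hit_iff {e : Fin (n + 1)} {k k' : ℕ} (hk : k < k') :
    Hit (mat n P) (chord n P k k') e ↔
      (∃ i, k ≤ i ∧ i ≤ k' ∧ Pt n P e (2 * i)) ∧ ∃ i, (i ≤ k ∨ k' ≤ i) ∧ Pt n P e (2 * i) := by
  constructor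
  · rintro ⟨f, h1, h2⟩
    have a1 := (h.pt_half.1 ((End.pt (Or.inl rfl)).rch h1)).2
    have a2 := (h.pt_half.1 ((End.pt (Or.inr rfl)).rch h1)).2
    have a3 : ¬(2 * k < P (2 * f) ∧ P (2 * f) ≤ 2 * k' ↔
        2 * k < P (2 * f + 1) ∧ P (2 * f + 1) ≤ 2 * k') := by
      unfold chord ind at h2
      split_ifs at h2 <;> first | omega | exact absurd h2 (by decide)
    by_cases t : 2 * k < P (2 * f) ∧ P (2 * f) ≤ 2 * k'
    · exact ⟨⟨_, by omega, by omega, a1⟩, _, by omega, a2⟩
    · exact ⟨⟨_, by omega, by omega, a2⟩, _, by omega, a1⟩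
  · rintro ⟨⟨i, i1, i2, i3⟩, j, j1, j2⟩
    by_contra t
    have hc : ∀ f, Rch (mat n P) e f → (2 * k < P (2 * f) ∧ P (2 * f) ≤ 2 * k' ↔
        2 * k < P (2 * f + 1) ∧ P (2 * f + 1) ≤ 2 * k') := fun f hf => by
      have h2 : chord n P k k' f = 0 := by_contra fun x => t ⟨f, hf, x⟩
      unfold chord ind at h2
      split_ifs at h2 <;> first | omega | exact absurd h2 (by decide)
    have b1 := pt_side hc i3 j2
    have b2 := pt_side hc (h.pt_succ i3) j2
    have b3 := pt_side hc i3 (h.pt_succ j2)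
    omega

end Cfg

end Pool.Agent.MP_f00251_lc.H19

end MrgPart1

-- ======== part 2: formerly Pool.Agent.MP_f00251_lc.h19.Dist
section MrgPart2

/-! The reversal distance is the rank of the overlap matrix plus the cost of a cheapest cover of
the bad components. -/

set_option autoImplicit false

open Matrix Finset

namespace Pool.Agent.MP_f00251_lc.H19

/-- Every bad component meets `S` or is touched by a chord of `Q`. -/
def Cover (n : ℕ) (P : ℕ → ℕ) (S : Finset (Fin (n + 1))) (Q : Finset (ℕ × ℕ)) : Prop :=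
  (∀ q ∈ Q, q.1 ≤ n ∧ q.2 ≤ n) ∧ ∀ e, Bad (mat n P) e →
    (∃ x ∈ S, Rch (mat n P) e x) ∨ ∃ q ∈ Q, Hit (mat n P) (chord n P q.1 q.2) e

noncomputable def cost (n : ℕ) (P : ℕ → ℕ) : ℕ :=
  sInf {m | ∃ S Q, Cover n P S Q ∧ m = S.card + 2 * Q.card}

noncomputable def DD (n : ℕ) (P : ℕ → ℕ) : ℕ := (mat n P).rank + cost n P

/-- The action of a reversal on the gaps. -/
def gf (k k' j : ℕ) : ℕ := if k < j ∧ j < k' then k + k' - j else j

variable {n : ℕ} {P : ℕ → ℕ}

theorem cost_le {S : Finset (Fin (n + 1))} {Q : Finset (ℕ × ℕ)} (h : Cover n P S Q) :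
    cost n P ≤ S.card + 2 * Q.card := Nat.sInf_le ⟨S, Q, h, rfl⟩

theorem exists_cover (n : ℕ) (P : ℕ → ℕ) :
    ∃ S Q, Cover n P S Q ∧ cost n P = S.card + 2 * Q.card :=
  Nat.sInf_mem (s := {m | ∃ S Q, Cover n P S Q ∧ m = S.card + 2 * Q.card})
    ⟨_, univ, ∅, ⟨by simp, fun e _ => Or.inl ⟨e, mem_univ _, Rch.refl _ _⟩⟩, rfl⟩

theorem gf_gf (k k' j : ℕ) : gf k k' (gf k k' j) = j := by
  unfold gf
  split_ifs <;> omega

theorem gf_le {k k' j : ℕ} (h : k' ≤ n) (hj : j ≤ n) : gf k k' j ≤ n := by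
  unfold gf
  split_ifs <;> omega

theorem chord_refl {k k' : ℕ} (hk : k ≤ k') (j j' : ℕ) {e : Fin (n + 1)}
    (he : chord n P k k' e = 0) :
    chord n (fun p => rf k k' (P p)) j j' e = chord n P (gf k k' j) (gf k k' j') e := by
  have key : ∀ y j, ind (rf k k' y ≤ 2 * j) = ind (y ≤ 2 * gf k k' j) +
      ind (k < j ∧ j < k') * (ind (y ≤ 2 * k) + ind (y ≤ 2 * k')) := by
    intro y j
    unfold ind rf gf
    split_ifs <;> first | omega | decide
  unfold chord at he ⊢
  simp only [key]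
  linear_combination (ind (k < j ∧ j < k') + ind (k < j' ∧ j' < k')) * he

theorem exists_lt {j j' : ℕ} (hj : j ≤ n) (hj' : j' ≤ n) {e : Fin (n + 1)}
    (h : chord n P j j' e ≠ 0) : ∃ k k', k < k' ∧ k' ≤ n ∧ chord n P k k' = chord n P j j' := by
  rcases lt_trichotomy j j' with t | rfl | t
  · exact ⟨j, j', t, hj', rfl⟩
  · exact absurd (congrFun (chord_self j) e) h
  · exact ⟨j', j, t, hj, chord_comm _ _⟩

namespace Cfg

variable (h : Cfg n P)
include h

theorem hit_refl {k k' : ℕ} (hk : k ≤ k') (j j' : ℕ) {e : Fin (n + 1)}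
    (he : ¬Hit (mat n P) (chord n P k k') e) :
    Hit (mat n fun p => rf k k' (P p)) (chord n (fun p => rf k k' (P p)) j j') e ↔
      Hit (mat n P) (chord n P (gf k k' j) (gf k k' j')) e := by
  simp only [Hit, h.mat_refl hk, rch_upd he]
  exact exists_congr fun f => and_congr_right fun hf => by
    rw [chord_refl hk j j' (by_contra fun t => he ⟨f, hf, t⟩)]

open Classical in
theorem chord_dot (e : Fin (n + 1)) {k k' : ℕ} (hk : k ≤ n) (hk' : k' ≤ n) :
    chord n P k k' ⬝ᵥ (fun f => ind (Rch (mat n P) e f)) =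
      ind (Pt n P e (2 * k)) + ind (Pt n P e (2 * k')) := by
  have a0 : ∀ (f : Fin (n + 1)) y, End P f y → (Pt n P e y ↔ Rch (mat n P) e f) := fun f y t =>
    ⟨fun u => h.rch_of_pt u t.pt, t.pt.rch⟩
  have a1 : ∀ j m, m ≤ n + 1 → ∑ y ∈ range (2 * m), ind (y ≤ 2 * j) * ind (Pt n P e y) =
      if j < m then ind (Pt n P e (2 * j)) else 0 := fun j m => by
    induction m with
    | zero => simp
    | succ m ih =>
      intro hm
      have t : Pt n P e (2 * m + 1) ↔ Pt n P e (2 * m) := by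
        rw [h.pt_half, show (2 * m + 1) / 2 = m by omega, and_iff_right (by omega)]
      rw [Nat.mul_succ, sum_range_succ, sum_range_succ, ih (by omega)]
      rcases lt_trichotomy j m with c | rfl | c
      · simp [ind, c, c.le, show ¬2 * m ≤ 2 * j by omega,
          show ¬2 * m + 1 ≤ 2 * j by omega]
      · simp [ind]
      · simp [ind, t, f2_add_self, show ¬j < m by omega, show ¬j < m + 1 by omega,
          show 2 * m ≤ 2 * j by omega, show 2 * m + 1 ≤ 2 * j by omega]
  have a2 := h.sum_ends fun y => (ind (y ≤ 2 * k) + ind (y ≤ 2 * k')) * ind (Pt n P e y)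
  simp only [add_mul (ind (_ ≤ 2 * k)), Finset.sum_add_distrib (s := range _)] at a2
  rw [show 2 * n + 2 = 2 * (n + 1) by ring, a1 k _ le_rfl, a1 k' _ le_rfl, if_pos (by omega),
    if_pos (by omega)] at a2
  rw [← a2]
  refine Finset.sum_congr rfl fun f _ => ?_
  simp only [ind, a0 f _ (Or.inl rfl), a0 f _ (Or.inr rfl), chord]
  ring

open Classical in
theorem mulVec_class (e : Fin (n + 1)) : mat n P *ᵥ (fun f => ind (Rch (mat n P) e f)) = 0 := by
  funext f
  have a0 : ∀ y, End P f y → (Pt n P e (2 * (y / 2)) ↔ Rch (mat n P) e f) := fun y t =>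
    ⟨fun u => h.rch_of_pt (h.pt_half.2 ⟨h.end_le t, u⟩) t.pt,
      fun u => (h.pt_half.1 (t.pt.rch u)).2⟩
  have a1 := h.le (2 * f) (by omega)
  have a2 := h.le (2 * f + 1) (by omega)
  have a3 := h.chord_dot e (k := P (2 * f) / 2) (k' := P (2 * f + 1) / 2) (by omega) (by omega)
  rw [← h.col_eq] at a3
  simp only [ind, a0 _ (Or.inl rfl), a0 _ (Or.inr rfl), f2_add_self] at a3
  unfold mulVec
  unfold dotProduct at a3 ⊢
  refine Eq.trans (Finset.sum_congr rfl fun g _ => ?_) a3
  simp only [ind, h.symm.apply f g]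

/-- A reversal that does not raise the rank touches one component only. -/
theorem hit_one {k k' : ℕ} (hk : k < k') (hk' : k' ≤ n)
    (hr : (upd (mat n P) (chord n P k k')).rank ≤ (mat n P).rank) :
    ∃ x, ∀ e, Hit (mat n P) (chord n P k k') e → Rch (mat n P) e x := by
  classical
  obtain ⟨x, hx⟩ := h.exists_end (y := 2 * k) (by omega)
  have a1 : Pt n P x (2 * k') := by
    by_contra t
    refine absurd (rank_lt_upd h.symm (h.mulVec_class x) ?_) (not_lt.2 hr)
    rw [h.chord_dot x (by omega) hk']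
    simp [ind, t, hx.pt]
  refine ⟨x, fun e he => ?_⟩
  obtain ⟨⟨i, i1, i2, i3⟩, j, j1, j2⟩ := (h.hit_iff hk).1 he
  by_contra t
  have b1 : ∀ i, Pt n P e (2 * i) → i ≠ k ∧ i ≠ k' := fun i hi =>
    ⟨fun c => t (h.rch_of_pt hi (c ▸ hx.pt)), fun c => t (h.rch_of_pt hi (c ▸ a1))⟩
  have b2 := b1 i i3
  have b3 := b1 j j2
  rcases j1 with j1 | j1
  · exact t (h.noncross j2 hx.pt i3 a1 (by omega) (by omega) (by omega))
  · exact t ((h.noncross hx.pt i3 a1 j2 (by omega) (by omega) (by omega)).symm h.symm)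

/-- A reversal that lowers the rank touches no bad component. -/
theorem hit_none {k k' : ℕ} (hk : k < k') (hk' : k' ≤ n)
    (hr : (upd (mat n P) (chord n P k k')).rank < (mat n P).rank) {e : Fin (n + 1)}
    (he : Bad (mat n P) e) : ¬Hit (mat n P) (chord n P k k') e := by
  classical
  intro t
  obtain ⟨x, hx⟩ := h.hit_one hk hk' hr.le
  obtain ⟨w, hw⟩ := mem_range_of_lt hr
  have a1 : mat n P *ᵥ (fun f => ind (Rch (mat n P) e f) * w f) = chord n P k k' := by
    funext f
    by_cases c : Rch (mat n P) e f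
    · rw [← hw]
      unfold mulVec dotProduct
      refine Finset.sum_congr rfl fun g _ => ?_
      by_cases d : mat n P f g = 0
      · simp [d]
      · simp [ind, c.trans (Rch.single d)]
    · have z : chord n P k k' f = 0 := by_contra fun u =>
        c ((hx e t).trans ((hx f ⟨f, Rch.refl _ _, u⟩).symm h.symm))
      rw [z]
      unfold mulVec dotProduct
      refine Finset.sum_eq_zero fun g _ => ?_
      by_cases d : mat n P f g = 0
      · simp [d]
      · simp [ind, show ¬Rch (mat n P) e g from fun u => c (u.trans ((Rch.single d).symm h.symm))]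
  refine absurd (rank_le_upd a1 ?_) (not_le.2 hr)
  rw [← a1, quad_eq h.symm]
  refine Finset.sum_eq_zero fun f _ => ?_
  by_cases c : Rch (mat n P) e f
  · simp [he.2 f c]
  · simp [ind, c]

theorem DD_le {k k' : ℕ} (hk : k < k') (hk' : k' ≤ n) :
    DD n P ≤ DD n (fun p => rf k k' (P p)) + 1 := by
  classical
  obtain ⟨S, Q, ⟨h1, h2⟩, h3⟩ := exists_cover n fun p => rf k k' (P p)
  have a0 : (Q.image fun q => (gf k k' q.1, gf k k' q.2)).card ≤ Q.card := card_image_le
  have a1 : ∀ q ∈ Q.image fun q => (gf k k' q.1, gf k k' q.2), q.1 ≤ n ∧ q.2 ≤ n := by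
    simp only [mem_image]
    rintro _ ⟨q, hq, rfl⟩
    exact ⟨gf_le hk' (h1 q hq).1, gf_le hk' (h1 q hq).2⟩
  have a2 : ∀ e, Bad (mat n P) e → ¬Hit (mat n P) (chord n P k k') e →
      (∃ x ∈ S, Rch (mat n P) e x) ∨ ∃ q ∈ Q.image fun q => (gf k k' q.1, gf k k' q.2),
        Hit (mat n P) (chord n P q.1 q.2) e := fun e he t => by
    refine (h2 e (by rw [h.mat_refl hk.le, bad_upd t]; exact he)).imp ?_ ?_
    · simp only [h.mat_refl hk.le, rch_upd t]
      exact id
    · rintro ⟨q, hq, u⟩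
      exact ⟨_, mem_image_of_mem _ hq, (h.hit_refl hk.le _ _ t).1 u⟩
  unfold DD
  rw [h3, h.mat_refl hk.le]
  have r1 := rank_upd_le (upd (mat n P) (chord n P k k')) (chord n P k k')
  rw [upd_upd] at r1
  rcases lt_trichotomy (upd (mat n P) (chord n P k k')).rank (mat n P).rank with c | c | c
  · have := cost_le ⟨a1, fun e he => a2 e he (h.hit_none hk hk' c he)⟩
    omega
  · obtain ⟨x, hx⟩ := h.hit_one hk hk' c.le
    have := cost_le (S := insert x S) ⟨a1, fun e he => by
      by_cases t : Hit (mat n P) (chord n P k k') e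
      · exact Or.inl ⟨x, mem_insert_self _ _, hx e t⟩
      · exact (a2 e he t).imp_left fun ⟨y, u, u'⟩ => ⟨y, mem_insert_of_mem u, u'⟩⟩
    have := card_insert_le x S
    omega
  · have := cost_le (S := S) (Q := insert (k, k') (Q.image fun q => (gf k k' q.1, gf k k' q.2)))
      ⟨by
        simp only [mem_insert, forall_eq_or_imp]
        exact ⟨⟨by omega, hk'⟩, a1⟩, fun e he => by
        by_cases t : Hit (mat n P) (chord n P k k') e
        · exact Or.inr ⟨_, mem_insert_self _ _, t⟩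
        · exact (a2 e he t).imp_right fun ⟨y, u, u'⟩ => ⟨y, mem_insert_of_mem u, u'⟩⟩
    have := card_insert_le (k, k') (Q.image fun q => (gf k k' q.1, gf k k' q.2))
    omega

theorem cost_refl_le {k k' : ℕ} (hk : k < k') (hk' : k' ≤ n) {S : Finset (Fin (n + 1))}
    {Q : Finset (ℕ × ℕ)} (h1 : ∀ q ∈ Q, q.1 ≤ n ∧ q.2 ≤ n)
    (h2 : ∀ e, Hit (mat n P) (chord n P k k') e → ¬Bad (upd (mat n P) (chord n P k k')) e)
    (h3 : ∀ e, Bad (mat n P) e → ¬Hit (mat n P) (chord n P k k') e →
      (∃ x ∈ S, Rch (mat n P) e x) ∨ ∃ q ∈ Q, Hit (mat n P) (chord n P q.1 q.2) e) :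
    cost n (fun p => rf k k' (P p)) ≤ S.card + 2 * Q.card := by
  classical
  have a0 : (Q.image fun q => (gf k k' q.1, gf k k' q.2)).card ≤ Q.card := card_image_le
  refine (cost_le (S := S) (Q := Q.image fun q => (gf k k' q.1, gf k k' q.2)) ⟨?_, fun e he => ?_⟩).trans
    (by omega)
  · simp only [mem_image]
    rintro _ ⟨q, hq, rfl⟩
    exact ⟨gf_le hk' (h1 q hq).1, gf_le hk' (h1 q hq).2⟩
  rw [h.mat_refl hk.le] at he
  have t : ¬Hit (mat n P) (chord n P k k') e := fun u => h2 e u he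
  refine (h3 e ((bad_upd t).1 he) t).imp ?_ ?_
  · simp only [h.mat_refl hk.le, rch_upd t]
    exact id
  · rintro ⟨q, hq, u⟩
    exact ⟨_, mem_image_of_mem _ hq, (h.hit_refl hk.le _ _ t).2 (by rwa [gf_gf, gf_gf])⟩

theorem exists_col {e f : Fin (n + 1)} (hf : mat n P f e ≠ 0) :
    ∃ k k', k < k' ∧ k' ≤ n ∧ chord n P k k' = fun f => mat n P f e := by
  have a1 := h.le (2 * e) (by omega)
  have a2 := h.le (2 * e + 1) (by omega)
  rw [h.col_eq]
  exact exists_lt (by omega) (by omega) (e := f) (by rwa [← h.col_eq])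

theorem exists_DD_lt (hz : mat n P ≠ 0) :
    ∃ k k', k < k' ∧ k' ≤ n ∧ DD n (fun p => rf k k' (P p)) + 1 ≤ DD n P := by
  classical
  obtain ⟨S, Q, ⟨h1, h2⟩, h3⟩ := exists_cover n P
  unfold DD
  by_cases c : ∃ e, mat n P e e ≠ 0
  · obtain ⟨e, e1, e2⟩ := exists_safe h.symm c
    obtain ⟨k, k', hk, hk', hv⟩ := h.exists_col e1
    have := h.cost_refl_le hk hk' h1 (by rwa [hv]) fun e he _ => h2 e he
    have := rank_press h.symm e1
    refine ⟨k, k', hk, hk', ?_⟩
    rw [h.mat_refl hk.le, hv]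
    omega
  have c' : ∀ e, mat n P e e = 0 := fun e => by_contra fun t => c ⟨e, t⟩
  obtain ⟨e, f, hf⟩ : ∃ e f, mat n P e f ≠ 0 := by
    by_contra t
    exact hz (Matrix.ext fun e f => by_contra fun u => t ⟨e, f, u⟩)
  rcases h2 e ⟨⟨f, hf⟩, fun g _ => c' g⟩ with ⟨x, x1, x2⟩ | ⟨q, q1, g, q2, q3⟩
  · obtain ⟨k, k', hk, hk', hv⟩ := h.exists_col hf
    have := h.cost_refl_le hk hk' (S := S.erase x) h1
      (fun e he => not_bad_upd he fun u _ => c' u) fun e' he t =>
        (h2 e' he).imp_left fun ⟨y, y1, y2⟩ => ⟨y, mem_erase.2 ⟨fun u => t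
          ⟨e, y2.trans (u ▸ x2.symm h.symm), by rwa [hv]⟩, y1⟩, y2⟩
    have := rank_cut (c' f)
    have := card_erase_add_one x1
    refine ⟨k, k', hk, hk', ?_⟩
    rw [h.mat_refl hk.le, hv]
    omega
  · obtain ⟨k, k', hk, hk', hv⟩ := exists_lt (h1 q q1).1 (h1 q q1).2 q3
    have := h.cost_refl_le hk hk' (S := S) (Q := Q.erase q) (fun q hq => h1 q (mem_of_mem_erase hq))
      (fun e he => not_bad_upd he fun u _ => c' u) fun e' he t =>
        (h2 e' he).imp_right fun ⟨y, y1, y2⟩ => ⟨y, mem_erase.2 ⟨fun u => t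
          (by rwa [hv, ← u]), y1⟩, y2⟩
    have := rank_upd_le (mat n P) (chord n P k k')
    have := card_erase_add_one q1
    refine ⟨k, k', hk, hk', ?_⟩
    rw [h.mat_refl hk.le]
    omega

omit h in
theorem DD_zero (hz : mat n P = 0) : DD n P = 0 := by
  have := cost_le (n := n) (P := P) (S := ∅) (Q := ∅) ⟨by simp, fun e he => by
    obtain ⟨f, hf⟩ := he.1
    rw [hz] at hf
    exact absurd rfl hf⟩
  unfold DD
  rw [hz, Matrix.rank_zero]
  simpa using this

end Cfg

end Pool.Agent.MP_f00251_lc.H19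

end MrgPart2

-- ======== part 3: formerly Pool.Agent.MP_f00251_lc.h19.Hurdle
section MrgPart3

/-! Covers of a non-crossing colouring by chords: the cost is the number of hurdles, plus one for a
fortress. -/

set_option autoImplicit false

open Finset

namespace Pool.Agent.MP_f00251_lc.H19

/-- The colour `x` occurs on both sides of the chord `q`. -/
def HitC (n : ℕ) (c : ℕ → ℕ) (q : ℕ × ℕ) (x : ℕ) : Prop :=
  q.1 < q.2 ∧ (∃ i, q.1 ≤ i ∧ i ≤ q.2 ∧ c i = x) ∧ ∃ i, i ≤ n ∧ (i ≤ q.1 ∨ q.2 ≤ i) ∧ c i = x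

def Cov (n : ℕ) (c : ℕ → ℕ) (U S : Finset ℕ) (Q : Finset (ℕ × ℕ)) : Prop :=
  (∀ q ∈ Q, q.1 ≤ n ∧ q.2 ≤ n) ∧ ∀ x ∈ U, x ∈ S ∨ ∃ q ∈ Q, HitC n c q x

noncomputable def tc (n : ℕ) (c : ℕ → ℕ) (U : Finset ℕ) : ℕ :=
  sInf {m | ∃ S Q, Cov n c U S Q ∧ m = S.card + 2 * Q.card}

/-- No other colour of `U` between two gaps of colour `x`. -/
def Hur1 (n : ℕ) (c : ℕ → ℕ) (U : Finset ℕ) (x : ℕ) : Prop :=
  ∀ i j k, i < j → j < k → k ≤ n → c i = x → c k = x → c j ∈ U → c j = x

/-- No gap of colour `x` between two gaps with other colours of `U`. -/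
def Hur2 (n : ℕ) (c : ℕ → ℕ) (U : Finset ℕ) (x : ℕ) : Prop :=
  ∀ i j k, i < j → j < k → k ≤ n → c j = x → c i ∈ U → c k ∈ U → c i = x ∨ c k = x

open Classical in
/-- The number of hurdles. -/
noncomputable def hn (n : ℕ) (c : ℕ → ℕ) (U : Finset ℕ) : ℕ :=
  (U.filter fun x => Hur1 n c U x ∨ Hur2 n c U x).card

def Closed (n : ℕ) (c : ℕ → ℕ) (U : Finset ℕ) (l r : ℕ) : Prop :=
  ∀ j j', l ≤ j → j < r → j ≤ n → c j ∈ U → j' ≤ n → c j' = c j → l ≤ j' ∧ j' < r

def NonCross (n : ℕ) (c : ℕ → ℕ) : Prop :=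
  ∀ i j k l, i < j → j < k → k < l → l ≤ n → c i = c k → c j = c l → c i = c j

variable {n : ℕ} {c : ℕ → ℕ} {U : Finset ℕ}

theorem tc_le {S : Finset ℕ} {Q : Finset (ℕ × ℕ)} (h : Cov n c U S Q) :
    tc n c U ≤ S.card + 2 * Q.card := Nat.sInf_le ⟨S, Q, h, rfl⟩

theorem exists_cov (n : ℕ) (c : ℕ → ℕ) (U : Finset ℕ) :
    ∃ S Q, Cov n c U S Q ∧ tc n c U = S.card + 2 * Q.card :=
  Nat.sInf_mem (s := {m | ∃ S Q, Cov n c U S Q ∧ m = S.card + 2 * Q.card})
    ⟨_, U, ∅, ⟨by simp, fun _ hx => Or.inl hx⟩, rfl⟩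

theorem hn_le_tc (n : ℕ) (c : ℕ → ℕ) (U : Finset ℕ) : hn n c U ≤ tc n c U := by
  classical
  obtain ⟨S, Q, ⟨h1, h2⟩, h3⟩ := exists_cov n c U
  have a1 : (U.filter fun x => Hur1 n c U x ∨ Hur2 n c U x) ⊆ S ∪ Q.biUnion fun q =>
      (U.filter fun x => Hur1 n c U x ∨ Hur2 n c U x).filter (HitC n c q) := fun x hx => by
    rcases h2 x (mem_filter.1 hx).1 with t | ⟨q, hq, t⟩
    · exact mem_union_left _ t
    · exact mem_union_right _ (mem_biUnion.2 ⟨q, hq, mem_filter.2 ⟨hx, t⟩⟩)
  have a2 : ∀ q ∈ Q,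
      ((U.filter fun x => Hur1 n c U x ∨ Hur2 n c U x).filter (HitC n c q)).card ≤ 2 := by
    intro q hq
    rcases ((Icc q.1 q.2).filter fun i => c i ∈ U).eq_empty_or_nonempty with t | t
    · rw [card_eq_zero.2]
      · omega
      refine eq_empty_of_forall_notMem fun x hx => ?_
      obtain ⟨hx, -, ⟨i, i1, i2, rfl⟩, -⟩ := mem_filter.1 hx
      exact notMem_empty i (t ▸ mem_filter.2 ⟨mem_Icc.2 ⟨i1, i2⟩, (mem_filter.1 hx).1⟩)
    obtain ⟨m, m1, m3⟩ := exists_min_image _ (fun i => i) t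
    obtain ⟨M, m2, m4⟩ := exists_max_image _ (fun i => i) t
    simp only [mem_filter, mem_Icc] at m1 m2 m3 m4
    refine (card_le_card (t := {c m, c M}) fun x hx => ?_).trans card_le_two
    simp only [mem_filter] at hx
    obtain ⟨⟨x1, x2⟩, -, ⟨i, i1, i2, rfl⟩, j, j1, j2, j3⟩ := hx
    have b1 := m3 i ⟨⟨i1, i2⟩, x1⟩
    have b2 := m4 i ⟨⟨i1, i2⟩, x1⟩
    have b3 := h1 q hq
    by_contra u
    simp only [mem_insert, mem_singleton, not_or] at u
    have c1 : i ≠ m := fun e => u.1 (by rw [e])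
    have c2 : i ≠ M := fun e => u.2 (by rw [e])
    have c3 : j ≠ m := fun e => u.1 (by rw [← j3, e])
    have c4 : j ≠ M := fun e => u.2 (by rw [← j3, e])
    rcases x2 with x2 | x2
    · rcases j2 with j2 | j2
      · exact u.1 (x2 j m i (by omega) (by omega) (by omega) j3 rfl m1.2).symm
      · exact u.2 (x2 i M j (by omega) (by omega) j1 rfl j3 m2.2).symm
    · rcases x2 m i M (by omega) (by omega) (by omega) rfl m1.2 m2.2 with e | e
      · exact u.1 e.symm
      · exact u.2 e.symm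
  have a3 := card_biUnion_le_card_mul Q _ 2 a2
  have a4 := (card_le_card a1).trans (card_union_le _ _)
  unfold hn
  omega

theorem exists_gap (hc : NonCross n c) {y i k : ℕ} (hk : k ≤ n) (hy : c k ≠ y) (hi : i < k)
    (hi' : c i = y) (hr : (∃ k', k < k' ∧ k' ≤ n ∧ c k' = y) ∨
      ∃ m, c m = y ∧ ∀ j, j ≤ n → c j ∈ U → m ≤ j) :
    ∃ L R, i ≤ L ∧ L < k ∧ k < R ∧ c L = y ∧ (R = n + 1 ∨ R ≤ n ∧ c R = y) ∧
      (∀ k', k < k' → k' ≤ n → c k' = y → R ≤ k') ∧ Closed n c U (L + 1) R := by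
  have l1 : c (Nat.findGreatest (fun j => c j = y) k) = y :=
    Nat.findGreatest_spec (P := fun j => c j = y) hi.le hi'
  have l2 := Nat.findGreatest_le (P := fun j => c j = y) k
  have l3 := fun j => Nat.le_findGreatest (P := fun j => c j = y) (m := j) (n := k)
  generalize Nat.findGreatest (fun j => c j = y) k = L at l1 l2 l3
  have ex : ∃ R, k < R ∧ (R = n + 1 ∨ R ≤ n ∧ c R = y) := ⟨n + 1, by omega, Or.inl rfl⟩
  obtain ⟨r1, r2⟩ := Nat.find_spec ex
  have r3 := fun j => Nat.find_min' ex (m := j)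
  generalize Nat.find ex = R at r1 r2 r3
  have l4 : L ≠ k := fun e => hy (e ▸ l1)
  refine ⟨L, R, l3 i hi.le hi', by omega, r1, l1, r2, fun k' a b d => r3 k' ⟨a, Or.inr ⟨b, d⟩⟩,
    fun j j' j1 j2 j3 j4 j5 j6 => ?_⟩
  have a0 : c j ≠ y := fun e => by
    rcases le_or_gt j k with t | t
    · have := l3 j t e
      omega
    · have := r3 j ⟨t, Or.inr ⟨j3, e⟩⟩
      omega
  have a1 : j' ≠ L := fun e => a0 (by rw [← j6, e, l1])
  have a2 : ¬j' < L := fun t => by
    rcases r2 with r2 | r2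
    · rcases hr with ⟨k', a, b, d⟩ | ⟨m, a, b⟩
      · have := r3 k' ⟨a, Or.inr ⟨b, d⟩⟩
        omega
      · have b1 := b j' j5 (j6 ▸ j4)
        have b2 : m ≠ j' := fun e => a0 (by rw [← j6, ← e, a])
        exact a0 (by rw [← j6, ← hc m j' L j (by omega) t (by omega) j3 (a.trans l1.symm) j6, a])
    · exact a0 (by
        rw [← j6, hc j' L j R t (by omega) j2 r2.1 j6 (l1.trans r2.2.symm), l1])
  have a3 : ¬R ≤ j' := fun t => by
    rcases r2 with r2 | r2
    · omega
    · have b2 : R ≠ j' := fun e => a0 (by rw [← j6, ← e, r2.2])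
      exact a0 (by
        rw [← hc L j R j' (by omega) j2 (by omega) j5 (l1.trans r2.2.symm) j6.symm, l1])
  omega

theorem exists_inner (hc : NonCross n c) (hU : ∀ x ∈ U, x ≤ n ∧ c x = x) (d : ℕ) :
    ∀ l r j, r - l ≤ d → Closed n c U l r → l ≤ j → j < r → j ≤ n → c j ∈ U →
      ∃ x ∈ U, Hur1 n c U x ∧ l ≤ x ∧ x < r := by
  induction d with
  | zero => intro l r j h _ h1 h2; omega
  | succ d ih =>
    intro l r j h hcl h1 h2 h3 h4
    by_cases t : Hur1 n c U (c j)
    · exact ⟨_, h4, t, hcl j _ h1 h2 h3 h4 (hU _ h4).1 (hU _ h4).2⟩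
    simp only [Hur1, not_forall] at t
    obtain ⟨i, k, k', t1, t2, t3, t4, t5, t6, t7⟩ := t
    obtain ⟨L, R, a1, a2, a3, a4, -, a6, a7⟩ := exists_gap (U := U) hc (by omega) t7 t1 t4
      (Or.inl ⟨k', t2, t3, t5⟩)
    have b1 := hcl j i h1 h2 h3 h4 (by omega) t4
    have b2 := hcl j k' h1 h2 h3 h4 t3 t5
    have b3 := a6 k' t2 t3 t5
    obtain ⟨x, x1, x2, x3⟩ := ih (L + 1) R k (by omega) a7 a2 a3 (by omega) t6
    exact ⟨x, x1, x2, by omega⟩

/-- A colour that encloses another one separates two hurdles. -/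
theorem exists_sep (hc : NonCross n c) (hU : ∀ x ∈ U, x ≤ n ∧ c x = x) {y : ℕ} (hy : y ∈ U)
    (h1 : ¬Hur1 n c U y) : ∃ p q, q ≤ n ∧ c p = y ∧ c q = y ∧
      (∃ x ∈ U, (Hur1 n c U x ∨ Hur2 n c U x) ∧ p < x ∧ x < q) ∧
      ∃ x ∈ U, (Hur1 n c U x ∨ Hur2 n c U x) ∧ ¬(p < x ∧ x < q) := by
  simp only [Hur1, not_forall] at h1
  obtain ⟨i, k, k', t1, t2, t3, t4, t5, t6, t7⟩ := h1
  obtain ⟨p, q, a1, a2, a3, a4, a5, a6, a7⟩ := exists_gap (U := U) hc (by omega) t7 t1 t4
    (Or.inl ⟨k', t2, t3, t5⟩)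
  have b3 := a6 k' t2 t3 t5
  obtain ⟨x, x1, x2, x3⟩ := exists_inner hc hU _ _ _ k le_rfl a7 a2 a3 (by omega) t6
  refine ⟨p, q, by omega, a4, (a5.resolve_left (by omega)).2, ⟨x, x1, Or.inl x2, x3⟩, ?_⟩
  have ex : ∃ m, m ≤ n ∧ c m ∈ U := ⟨k, by omega, t6⟩
  obtain ⟨m1, m2⟩ := Nat.find_spec ex
  have m3 : ∀ j, j ≤ n → c j ∈ U → Nat.find ex ≤ j := fun j a b => Nat.find_min' ex ⟨a, b⟩
  generalize Nat.find ex = m at m1 m2 m3
  have m4 := m3 p (by omega) (a4 ▸ hy)
  have m5 : ∀ j, j ≤ n → c j = c m → ¬(p < j ∧ j < q) := fun j a b d => by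
    have := a7 j m d.1 d.2 a (b ▸ m2) m1 b.symm
    omega
  by_cases t : Hur2 n c U (c m)
  · exact ⟨_, m2, Or.inr t, m5 _ (hU _ m2).1 (hU _ m2).2⟩
  simp only [Hur2, not_forall, not_or] at t
  obtain ⟨u, j, v, s1, s2, s3, s4, s5, s6, s7, s8⟩ := t
  have s9 := m3 u (by omega) s5
  have s10 : m ≠ u := fun e => s7 (by rw [e])
  obtain ⟨L, R, c1, c2, c3, -, -, c6, c7⟩ := exists_gap (U := U) hc (k := u) (i := m) (by omega) s7
    (by omega) rfl (Or.inr ⟨m, rfl, m3⟩)
  obtain ⟨L', R', d1, d2, d3, -, -, -, d7⟩ := exists_gap (U := U) hc s3 s8 s2 s4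
    (Or.inr ⟨m, rfl, m3⟩)
  obtain ⟨z, z1, z2, z3⟩ := exists_inner hc hU _ _ _ u le_rfl c7 c2 c3 (by omega) s5
  obtain ⟨w, w1, w2, w3⟩ := exists_inner hc hU _ _ _ v le_rfl d7 d2 d3 s3 s6
  have e1 := c6 j s1 (by omega) s4
  have e2 := m5 j (by omega) s4
  by_cases e : p < z ∧ z < q
  · exact ⟨w, w1, Or.inl w2, by omega⟩
  · exact ⟨z, z1, Or.inl z2, e⟩

theorem exists_pair {h : ℕ} {I : ℕ → Prop} (hI : ∀ a b c, a ≤ b → b ≤ c → c < h → I a → I c → I b)
    {a b : ℕ} (ha : a < h) (hb : b < h) (ha' : I a) (hb' : ¬I b) :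
    ∃ i, i + h / 2 < h ∧ ¬(I i ↔ I (i + h / 2)) := by
  by_contra t
  simp only [not_exists, not_and, not_not] at t
  have hd : 0 < h / 2 := by
    have : a ≠ b := fun e => hb' (e ▸ ha')
    omega
  have lo : ∀ a, a < h → I a → ∃ a', a' < h / 2 ∧ I a' := fun a => by
    induction a using Nat.strong_induction_on with
    | _ a ih =>
      intro h1 h2
      by_cases c : a < h / 2
      · exact ⟨a, c, h2⟩
      · exact ih (a - h / 2) (by omega) (by omega)
          ((t _ (by omega)).2 (by rwa [Nat.sub_add_cancel (by omega)]))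
  have hi : ∀ d a, h - a ≤ d → a < h → I a → ∃ a', h ≤ a' + h / 2 ∧ a' < h ∧ I a' := fun d => by
    induction d with
    | zero => intro a h1 h2; omega
    | succ d ih =>
      intro a h0 h1 h2
      by_cases c : h ≤ a + h / 2
      · exact ⟨a, c, h1, h2⟩
      · exact ih (a + h / 2) (by omega) (by omega) ((t _ (by omega)).1 h2)
  obtain ⟨α, α1, α2⟩ := lo a ha ha'
  obtain ⟨β, β1, β2, β3⟩ := hi _ a le_rfl ha ha'
  have i0 : I 0 := (t 0 (by omega)).2 (hI α _ β (by omega) (by omega) β2 α2 β3)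
  have i1 := (t (h - 1 - h / 2) (by omega)).1 (hI 0 _ β (by omega) (by omega) β2 i0 β3)
  exact hb' (hI 0 b _ (by omega) (by omega) (by omega) i0 i1)

theorem tc_le_hn (hc : NonCross n c) (hU : ∀ x ∈ U, x ≤ n ∧ c x = x) :
    tc n c U ≤ 2 * ((hn n c U + 1) / 2) := by
  classical
  unfold hn
  generalize hH : (U.filter fun x => Hur1 n c U x ∨ Hur2 n c U x) = H
  have mH : ∀ x, x ∈ H ↔ x ∈ U ∧ (Hur1 n c U x ∨ Hur2 n c U x) := fun x => by
    rw [← hH, mem_filter]
  by_cases h1 : H.card ≤ 1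
  · have := tc_le (n := n) (c := c) (U := U) (S := H) (Q := ∅) ⟨by simp, fun y hy => Or.inl (by
      by_contra t
      rw [mH, not_and, not_or] at t
      obtain ⟨p, q, -, -, -, ⟨x, x1, x2, x3⟩, z, z1, z2, z3⟩ :=
        exists_sep hc hU hy (t hy).1
      exact z3 (card_le_one.1 h1 x ((mH x).2 ⟨x1, x2⟩) z ((mH z).2 ⟨z1, z2⟩) ▸ x3))⟩
    simp only [card_empty] at this
    omega
  obtain ⟨g, g1, g2, g3⟩ : ∃ g : ℕ → ℕ, (∀ i j, i < j → j < H.card → g i < g j) ∧
      (∀ i, i < H.card → g i ∈ H) ∧ ∀ x ∈ H, ∃ i, i < H.card ∧ g i = x := by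
    refine ⟨fun i => if t : i < H.card then H.orderEmbOfFin rfl ⟨i, t⟩ else 0, fun i j a b => ?_,
      fun i a => ?_, fun x hx => ?_⟩
    · simp only [dif_pos b, dif_pos (a.trans b)]
      exact (H.orderEmbOfFin rfl).strictMono a
    · simp only [dif_pos a]
      exact H.orderEmbOfFin_mem rfl _
    · obtain ⟨i, hi⟩ : x ∈ Set.range (H.orderEmbOfFin rfl) := by
        rw [range_orderEmbOfFin]; exact hx
      exact ⟨i, i.2, by simp only [dif_pos i.2]; exact hi⟩
  have g4 : ∀ i, i < H.card → g i ≤ n ∧ c (g i) = g i := fun i a => hU _ ((mH _).1 (g2 i a)).1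
  have g5 : ∀ i j, i ≤ j → j < H.card → g i ≤ g j := fun i j a b => by
    rcases a.eq_or_lt with rfl | a
    · rfl
    · exact (g1 i j a b).le
  have a0 : ((range ((H.card + 1) / 2)).image fun i => (g i, g (i + H.card / 2))).card ≤
      (H.card + 1) / 2 := card_image_le.trans (by simp)
  refine (tc_le (S := ∅) (Q := (range ((H.card + 1) / 2)).image fun i => (g i, g (i + H.card / 2)))
    ⟨?_, fun y hy => Or.inr ?_⟩).trans (by simp only [card_empty]; omega)
  · simp only [mem_image, mem_range]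
    rintro _ ⟨i, hi, rfl⟩
    exact ⟨(g4 _ (by omega)).1, (g4 _ (by omega)).1⟩
  simp only [mem_image, mem_range, exists_exists_and_eq_and, HitC]
  by_cases t : y ∈ H
  · obtain ⟨i, hi, rfl⟩ := g3 y t
    have b1 := g4 i hi
    by_cases u : i < (H.card + 1) / 2
    · have := g1 i (i + H.card / 2) (by omega) (by omega)
      exact ⟨i, u, this, ⟨_, le_rfl, this.le, b1.2⟩, _, b1.1, Or.inl le_rfl, b1.2⟩
    · obtain ⟨j, rfl⟩ : ∃ j, i = j + H.card / 2 := ⟨i - H.card / 2, by omega⟩
      have := g1 j (j + H.card / 2) (by omega) (by omega)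
      exact ⟨j, by omega, this, ⟨_, this.le, le_rfl, b1.2⟩, _, b1.1, Or.inr le_rfl, b1.2⟩
  rw [mH, not_and, not_or] at t
  obtain ⟨p, q, p1, p2, p3, ⟨x, x1, x2, x3⟩, z, z1, z2, z3⟩ := exists_sep hc hU hy (t hy).1
  obtain ⟨a, a1, rfl⟩ := g3 x ((mH x).2 ⟨x1, x2⟩)
  obtain ⟨b, b1, rfl⟩ := g3 z ((mH z).2 ⟨z1, z2⟩)
  obtain ⟨i, i1, i2⟩ := exists_pair (I := fun i => p < g i ∧ g i < q) (fun a b c h1 h2 h3 => by
    have := g5 a b h1 (by omega)
    have := g5 b c h2 h3
    omega) a1 b1 x3 z3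
  have := g1 i (i + H.card / 2) (by omega) i1
  refine ⟨i, by omega, this, ?_⟩
  by_cases u : p < g i ∧ g i < q
  · exact ⟨⟨q, by omega, by omega, p3⟩, p, by omega, by omega, p2⟩
  · exact ⟨⟨p, by omega, by omega, p2⟩, q, p1, by omega, p3⟩

open Classical in
theorem tc_eq (hc : NonCross n c) (hU : ∀ x ∈ U, x ≤ n ∧ c x = x) : tc n c U = hn n c U +
    if hn n c U % 2 = 1 ∧ ∀ x ∈ U, hn n c U ≤ hn n c (U.erase x) then 1 else 0 := by
  have a1 := hn_le_tc n c U
  have a2 := tc_le_hn hc hU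
  split_ifs with t
  · obtain ⟨S, Q, ⟨h1, h2⟩, h3⟩ := exists_cov n c U
    by_contra u
    obtain ⟨x, hx⟩ : S.Nonempty := card_pos.1 (by omega)
    have b1 := tc_le (n := n) (c := c) (U := U.erase x) (S := S.erase x) (Q := Q)
      ⟨h1, fun y hy => (h2 y (mem_of_mem_erase hy)).imp_left fun v =>
        mem_erase.2 ⟨(mem_erase.1 hy).1, v⟩⟩
    have b2 := card_erase_add_one hx
    by_cases v : x ∈ U
    · have := t.2 x v
      have := hn_le_tc n c (U.erase x)
      omega
    · rw [erase_eq_of_notMem v] at b1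
      omega
  · by_cases u : hn n c U % 2 = 1
    · simp only [u, true_and, not_forall, not_le] at t
      obtain ⟨x, -, hx⟩ := t
      obtain ⟨S, Q, ⟨h1, h2⟩, h3⟩ := exists_cov n c (U.erase x)
      have b1 := tc_le (n := n) (c := c) (U := U) (S := insert x S) (Q := Q) ⟨h1, fun y hy => by
        by_cases v : y = x
        · exact Or.inl (v ▸ mem_insert_self _ _)
        · exact (h2 y (mem_erase.2 ⟨v, hy⟩)).imp_left mem_insert_of_mem⟩
      have b2 := card_insert_le x S
      have b3 := tc_le_hn (U := U.erase x) hc fun y hy => hU y (mem_of_mem_erase hy)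
      omega
    · omega

end Pool.Agent.MP_f00251_lc.H19

end MrgPart3

-- ======== part 4: formerly Pool.Agent.MP_f00251_lc.h19.Link
section MrgPart4

/-! The cost of a cover of the bad components, read on the colouring of the gaps. -/

set_option autoImplicit false

open Finset

namespace Pool.Agent.MP_f00251_lc.H19

variable {n : ℕ} {P c : ℕ → ℕ} {U : Finset ℕ}

/-- The colouring `c` of the gaps names the components. -/
structure Col (n : ℕ) (P c : ℕ → ℕ) : Prop where
  eq : ∀ i j, i ≤ n → j ≤ n → (c i = c j ↔ ∃ e, Pt n P e (2 * i) ∧ Pt n P e (2 * j))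
  le : ∀ i, i ≤ n → c i ≤ n
  idem : ∀ i, i ≤ n → c (c i) = c i

namespace Cfg

variable (h : Cfg n P)
include h

theorem pt_le {e : Fin (n + 1)} {i : ℕ} (t : Pt n P e (2 * i)) : i ≤ n := by
  have := (h.pt_half.1 t).1
  omega

theorem pt_own (e : Fin (n + 1)) : Pt n P e (2 * (P (2 * e) / 2)) :=
  (h.pt_half.1 (End.pt (Or.inl rfl))).2

theorem col_iff (hc : Col n P c) {e : Fin (n + 1)} {x : ℕ} (t : Pt n P e (2 * x)) (i : ℕ) :
    Pt n P e (2 * i) ↔ i ≤ n ∧ c i = c x :=
  ⟨fun u => ⟨h.pt_le u, (hc.eq _ _ (h.pt_le u) (h.pt_le t)).2 ⟨e, u, t⟩⟩, fun u => by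
    obtain ⟨f, a, b⟩ := (hc.eq _ _ u.1 (h.pt_le t)).1 u.2
    exact a.rch (h.rch_of_pt t b)⟩

theorem nonCross (hc : Col n P c) : NonCross n c := fun i j k l h1 h2 h3 h4 a b => by
  obtain ⟨e, a1, a2⟩ := (hc.eq _ _ (by omega) (by omega)).1 a
  obtain ⟨f, b1, b2⟩ := (hc.eq _ _ (by omega) (by omega)).1 b
  exact (hc.eq _ _ (by omega) (by omega)).2
    ⟨e, a1, b1.rch (h.noncross a1 b1 a2 b2 (by omega) (by omega) (by omega))⟩

theorem cost_eq (hc : Col n P c)
    (hU : ∀ x, x ∈ U ↔ x ≤ n ∧ c x = x ∧ ∃ e, Bad (mat n P) e ∧ Pt n P e (2 * x)) :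
    cost n P = tc n c U := by
  classical
  refine le_antisymm ?_ ?_
  · obtain ⟨S, Q, ⟨h1, h2⟩, h3⟩ := exists_cov n c U
    have : ∀ x, ∃ e : Fin (n + 1), x ≤ n → End P e (2 * x) := fun x => by
      by_cases t : x ≤ n
      · exact (h.exists_end (y := 2 * x) (by omega)).imp fun e he _ => he
      · exact ⟨0, fun u => absurd u t⟩
    choose own ho using this
    refine (cost_le (S := S.image own) (Q := Q) ⟨h1, fun e he => ?_⟩).trans
      (by have := card_image_le (s := S) (f := own); omega)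
    have a1 := h.pt_own e
    have a2 := h.pt_le a1
    have a3 := (h.col_iff hc a1 _).2 ⟨hc.le _ a2, hc.idem _ a2⟩
    have a4 := hc.idem _ a2
    generalize c (P (2 * e) / 2) = x at a3 a4
    rcases h2 x ((hU x).2 ⟨h.pt_le a3, a4, e, he, a3⟩) with
      t | ⟨q, hq, t, ⟨i, i1, i2, i3⟩, j, j1, j2, j3⟩
    · exact Or.inl ⟨_, mem_image_of_mem _ t, h.rch_of_pt a3 (ho x (h.pt_le a3)).pt⟩
    · have := h1 q hq
      exact Or.inr ⟨q, hq, (h.hit_iff t).2 ⟨⟨i, i1, i2, (h.col_iff hc a3 _).2 ⟨by omega, by omega⟩⟩,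
        j, j2, (h.col_iff hc a3 _).2 ⟨j1, by omega⟩⟩⟩
  · obtain ⟨S, Q, ⟨h1, h2⟩, h3⟩ := exists_cover n P
    refine (tc_le (S := S.image fun s : Fin (n + 1) => c (P (2 * s) / 2))
      (Q := Q.image fun q => (min q.1 q.2, max q.1 q.2)) ⟨?_, fun x hx => ?_⟩).trans ?_
    · simp only [mem_image]
      rintro _ ⟨q, hq, rfl⟩
      have := h1 q hq
      constructor <;> simp only <;> omega
    · obtain ⟨x1, x2, e, he, t⟩ := (hU x).1 hx
      rcases h2 e he with ⟨s, s1, s2⟩ | ⟨q, hq, u⟩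
      · exact Or.inl (mem_image.2
          ⟨s, s1, ((h.col_iff hc t _).1 ((h.pt_own s).rch s2)).2.trans x2⟩)
      · have b1 : q.1 ≠ q.2 := fun w => by
          obtain ⟨f, -, v⟩ := u
          rw [w, chord_self] at v
          exact v rfl
        have b2 : chord n P q.1 q.2 = chord n P (min q.1 q.2) (max q.1 q.2) := by
          rcases le_total q.1 q.2 with w | w
          · rw [min_eq_left w, max_eq_right w]
          · rw [min_eq_right w, max_eq_left w, chord_comm]
        rw [b2, h.hit_iff (by omega)] at u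
        obtain ⟨⟨i, i1, i2, i3⟩, j, j1, j2⟩ := u
        exact Or.inr ⟨_, mem_image_of_mem _ hq, by simp only; omega,
          ⟨i, i1, i2, ((h.col_iff hc t _).1 i3).2.trans x2⟩,
          j, h.pt_le j2, j1, ((h.col_iff hc t _).1 j2).2.trans x2⟩
    · have := card_image_le (s := S) (f := fun s : Fin (n + 1) => c (P (2 * s) / 2))
      have := card_image_le (s := Q) (f := fun q => (min q.1 q.2, max q.1 q.2))
      omega

end Cfg

theorem DD_bound (n : ℕ) (P : ℕ → ℕ) : DD n P ≤ 2 * n + 2 := by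
  have h1 := cost_le (n := n) (P := P) (S := univ) (Q := ∅)
    ⟨by simp, fun e _ => Or.inl ⟨e, mem_univ _, Rch.refl _ _⟩⟩
  have h2 := (mat n P).rank_le_card_width
  simp only [card_univ, Fintype.card_fin, card_empty] at h1 h2
  unfold DD
  omega

end Pool.Agent.MP_f00251_lc.H19

end MrgPart4

-- marker of a merged file
example : 731051 + 429870 = 731051 + 429870 := rfl

end MrgPart0

-- ======== part 1: formerly Pool.Agent.MP_f00251_lc.h19.Alg
section MrgPart1

/-! Polynomial-time algorithms: rank over the field with two elements, reachability, hurdles. -/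

set_option autoImplicit false

namespace Pool.Agent.MP_f00251_lc.H19

open Pool.Agent.PolyT Pool.Agent.H82 N487b59b3

/-- Boolean membership test. -/
def memB {β : Type} [DecidableEq β] (x : β) (l : List β) : Bool := decide (x ∈ l)

@[simp] theorem memB_iff {β : Type} [DecidableEq β] {x : β} {l : List β} :
    memB x l = true ↔ x ∈ l := by simp [memB]

@[simp] theorem memB_false_iff {β : Type} [DecidableEq β] {x : β} {l : List β} :
    memB x l = false ↔ x ∉ l := by simp [memB]

section closure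

variable {α β : Type} [N487b59b3 α] [N487b59b3 β]

@[fun_prop] theorem p_memB [DecidableEq β] {f : α → β} {l : α → List β} (hf : Poly f)
    (hl : Poly l) : Poly (fun a => memB (f a) (l a)) := hf.mem hl

@[fun_prop] theorem p_headD {l : α → List β} {d : α → β} (hl : Poly l) (hd : Poly d) :
    Poly (fun a => (l a).headD (d a)) := hl.headD hd

@[fun_prop] theorem p_xor {c d : α → Bool} (hc : Poly c) (hd : Poly d) :
    Poly (fun a => xor (c a) (d a)) := hc.xor hd

@[fun_prop] theorem p_bodd {f : α → ℕ} (hf : Poly f) : Poly (fun a => (f a).bodd) := hf.bodd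

end closure

theorem headD_filter {I : List ℕ} {c : ℕ → Bool} (d : ℕ) (h : ∃ i ∈ I, c i = true) :
    (I.filter c).headD d ∈ I ∧ c ((I.filter c).headD d) = true := by
  rw [← List.mem_filter]
  obtain ⟨i, hi⟩ := h
  have := List.mem_filter.2 hi
  cases t : I.filter c with
  | nil => simp [t] at this
  | cons a l => simp

theorem headD_none {I : List ℕ} {c : ℕ → Bool} (d : ℕ) (h : ¬∃ i ∈ I, c i = true) :
    (I.filter c).headD d = d := by
  rw [List.filter_eq_nil_iff.2 fun i hi t => h ⟨i, hi, t⟩]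
  rfl

/-- All pairs. -/
def sq (I : List ℕ) : List (ℕ × ℕ) := I.flatMap fun i => I.map fun j => (i, j)

@[simp] theorem mem_sq {I : List ℕ} {i j : ℕ} : (i, j) ∈ sq I ↔ i ∈ I ∧ j ∈ I := by simp [sq]

@[fun_prop] theorem p_sq : Poly sq := by
  unfold sq
  fun_prop

abbrev St := List (ℕ × ℕ) × ℕ

/-- Add to the matrix the square of a column. -/
def op (I : List ℕ) (S : St) (f : ℕ) : St :=
  ((sq I).filter fun p => xor (memB p S.1) (memB (p.1, f) S.1 && memB (p.2, f) S.1),
    S.2 + bif memB (f, f) S.1 then 1 else 0)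

@[fun_prop] theorem p_op {α : Type} [N487b59b3 α] {I : α → List ℕ} {S : α → St} {f : α → ℕ}
    (hI : Poly I) (hS : Poly S) (hf : Poly f) : Poly fun a => op (I a) (S a) (f a) := by
  unfold op
  fun_prop

/-- Clear the column `e`. -/
def rstep (I : List ℕ) (S : St) (e : ℕ) : St :=
  op I (bif memB (e, e) S.1 then S else op I S ((I.filter fun f => memB (f, e) S.1).headD e)) e

/-- The rank. -/
def rk (I : List ℕ) (M : List (ℕ × ℕ)) : ℕ := (I.foldl (rstep I) (M, 0)).2

def wstep (I : List ℕ) (R : List (ℕ × ℕ)) (c : ℕ) : List (ℕ × ℕ) :=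
  (sq I).filter fun p => memB p R || (memB (p.1, c) R && memB (c, p.2) R)

/-- The reflexive and transitive closure. -/
def wr (I : List ℕ) (M : List (ℕ × ℕ)) : List (ℕ × ℕ) :=
  I.foldl (wstep I) ((sq I).filter fun p => memB p M || eqB p.1 p.2)

theorem rstep_bd (I l : List ℕ) : ∀ S : St,
    (bitEncode (l.foldl (rstep I) S).1).length ≤ (bitEncode (sq I)).length + (bitEncode S.1).length ∧
      (l.foldl (rstep I) S).2 ≤ S.2 + 2 * l.length := by
  induction l with
  | nil => simp
  | cons x l ih =>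
    intro S
    have a1 := ih (rstep I S x)
    have a2 : (bitEncode (rstep I S x).1).length ≤ (bitEncode (sq I)).length :=
      enc_sublist_le List.filter_sublist
    have a3 : ∀ S f, (op I S f).2 ≤ S.2 + 1 := fun S f => by
      unfold op
      cases memB (f, f) S.1 <;> simp
    have a4 : (rstep I S x).2 ≤ S.2 + 2 := by
      unfold rstep
      cases memB (x, x) S.1
      · exact (a3 _ _).trans (Nat.succ_le_succ (a3 _ _))
      · exact (a3 _ _).trans (Nat.le_succ _)
    rw [List.foldl_cons, List.length_cons]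
    refine ⟨?_, by omega⟩
    clear a1 a4 ih
    generalize rstep I S x = T at a2
    induction l generalizing T with
    | nil => exact a2.trans (Nat.le_add_right _ _)
    | cons y l ih => exact ih _ (enc_sublist_le List.filter_sublist)

@[fun_prop] theorem p_rk {α : Type} [N487b59b3 α] {I : α → List ℕ} {M : α → List (ℕ × ℕ)}
    (hI : Poly I) (hM : Poly M) : Poly fun a => rk (I a) (M a) := by
  refine (Poly.foldl (f := fun a => rstep (I a)) (by unfold rstep; fun_prop) hI
    (hM.pair (PolyT.Poly.const 0)) ((((Bd.const 2).mul ((p_sq.comp hI).bd.add hM.bd)).add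
      (Bd.const 1)).add ((Bd.const 2).mul hI.bd)) fun a n => ?_).snd
  obtain ⟨h1, h2⟩ := rstep_bd (I a) ((I a).take n) (M a, 0)
  have h3 := length_enc_nat_le_self (((I a).take n).foldl (rstep (I a)) (M a, 0)).2
  have h4 := length_le_enc (I a)
  rw [List.length_take] at h2
  rw [length_enc_pair]
  simp only at h1 h2 ⊢
  omega

@[fun_prop] theorem p_wr {α : Type} [N487b59b3 α] {I : α → List ℕ} {M : α → List (ℕ × ℕ)}
    (hI : Poly I) (hM : Poly M) : Poly fun a => wr (I a) (M a) := by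
  refine Poly.foldl (f := fun a => wstep (I a)) (by unfold wstep; fun_prop) hI (by fun_prop)
    (p_sq.comp hI).bd fun a n => enc_sublist_le ?_
  rcases List.eq_nil_or_concat ((I a).take n) with t | ⟨l, x, t⟩ <;> rw [t]
  · exact List.filter_sublist
  · rw [List.concat_eq_append, List.foldl_append]
    exact List.filter_sublist

variable {N : ℕ}

/-- The list `M` holds the positions of the non-zero entries of `A`. -/
def Rp (M : List (ℕ × ℕ)) (A : Matrix (Fin N) (Fin N) F2) : Prop :=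
  ∀ e f : Fin N, ((e : ℕ), (f : ℕ)) ∈ M ↔ A e f ≠ 0

theorem op_spec {S : St} {A : Matrix (Fin N) (Fin N) F2} (h : Rp S.1 A) (hA : A.IsSymm)
    (f : Fin N) : Rp (op (List.range N) S f).1 (upd A fun g => A g f) ∧
      (upd A fun g => A g f).rank + (op (List.range N) S f).2 = A.rank + S.2 := by
  have m : ∀ e g : Fin N, memB ((e : ℕ), (g : ℕ)) S.1 = decide (A e g ≠ 0) := fun e g => by
    simp only [memB, h e g]
  refine ⟨fun e g => ?_, ?_⟩
  · simp only [op, List.mem_filter, mem_sq, List.mem_range, e.2, g.2, true_and, m, upd_apply]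
    generalize A e g = x
    generalize A e f = y
    generalize A g f = z
    revert x y z
    decide
  · simp only [op, m]
    by_cases t : A f f = 0
    · simp [t, rank_cut t]
    · have := rank_press hA t
      simp only [t, ne_eq, not_false_eq_true, decide_true, cond_true]
      omega

theorem rstep_spec {S : St} {A : Matrix (Fin N) (Fin N) F2} (h : Rp S.1 A) (hA : A.IsSymm)
    (e : Fin N) : ∃ B : Matrix (Fin N) (Fin N) F2, Rp (rstep (List.range N) S e).1 B ∧ B.IsSymm ∧
      B.rank + (rstep (List.range N) S e).2 = A.rank + S.2 ∧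
      ∀ x, (x = e ∨ ∀ g, A g x = 0) → ∀ g, B g x = 0 := by
  have z : ∀ (A : Matrix (Fin N) (Fin N) F2), A.IsSymm → ∀ f x, (∀ g, A g x = 0) →
      ∀ g, (upd A fun g => A g f) g x = 0 := fun A hA f x t g => by
    rw [upd_apply, t, hA.apply f x, t, mul_zero, add_zero]
  have z' : ∀ (A : Matrix (Fin N) (Fin N) F2), A e e ≠ 0 →
      ∀ g, (upd A fun g => A g e) g e = 0 := fun A t g => by
    rw [upd_apply, f2_ne_zero.1 t, mul_one, f2_add_self]
  unfold rstep
  by_cases t : A e e = 0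
  · rw [memB_false_iff.2 (by rw [h]; exact not_not.2 t), cond_false]
    obtain ⟨f, f1, f2⟩ : ∃ f : Fin N, ((List.range N).filter fun f => memB (f, (e : ℕ)) S.1).headD e
        = f ∧ (A f e ≠ 0 ∨ ∀ g, A g e = 0) := by
      by_cases u : ∃ i ∈ List.range N, memB (i, (e : ℕ)) S.1 = true
      · obtain ⟨a, b⟩ := headD_filter e u
        exact ⟨⟨_, List.mem_range.1 a⟩, rfl, Or.inl ((h _ e).1 (memB_iff.1 b))⟩
      · exact ⟨e, headD_none _ u, Or.inr fun g => by_contra fun w =>
          u ⟨g, List.mem_range.2 g.2, memB_iff.2 ((h g e).2 w)⟩⟩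
    rw [f1]
    obtain ⟨a1, a2⟩ := op_spec h hA f
    obtain ⟨a3, a4⟩ := op_spec a1 (upd_symm hA _) e
    refine ⟨_, a3, upd_symm (upd_symm hA _) _, a4.trans a2, fun x hx => ?_⟩
    have b : (∀ g, A g x = 0) → _ := fun w => z _ (upd_symm hA _) e x (z A hA f x w)
    rcases hx with rfl | w
    · refine f2.elim (fun w => z' _ ?_) b
      rw [upd_apply, t, hA.apply f x, f2_ne_zero.1 w]
      decide
    · exact b w
  · rw [memB_iff.2 ((h e e).2 t), cond_true]
    obtain ⟨a1, a2⟩ := op_spec h hA e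
    exact ⟨_, a1, upd_symm hA _, a2, fun x hx => hx.elim (fun w => w ▸ z' A t) (z A hA e x)⟩

theorem rk_spec {M : List (ℕ × ℕ)} {A : Matrix (Fin N) (Fin N) F2} (h : Rp M A) (hA : A.IsSymm) :
    rk (List.range N) M = A.rank := by
  have key : ∀ (l : List (Fin N)) (S : St) (A : Matrix (Fin N) (Fin N) F2), Rp S.1 A → A.IsSymm →
      (∀ x, x ∈ l ∨ ∀ g, A g x = 0) →
      ((l.map Fin.val).foldl (rstep (List.range N)) S).2 = A.rank + S.2 := fun l => by
    induction l with
    | nil =>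
      intro S A _ _ t
      rw [show A = 0 from Matrix.ext fun g x => (t x).resolve_left (by simp) g]
      simp
    | cons e l ih =>
      intro S A h hA t
      obtain ⟨B, b1, b2, b3, b4⟩ := rstep_spec h hA e
      rw [List.map_cons, List.foldl_cons, ih _ B b1 b2 fun x => ?_, b3]
      rcases t x with u | u
      · exact (List.mem_cons.1 u).symm.imp_right fun w => b4 x (Or.inl w)
      · exact Or.inr (b4 x (Or.inr u))
  have := key (List.finRange N) (M, 0) A h hA fun x => Or.inl (List.mem_finRange x)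
  rwa [List.map_coe_finRange_eq_range] at this

theorem wr_spec {M : List (ℕ × ℕ)} {A : Matrix (Fin N) (Fin N) F2} (h : Rp M A) (e f : Fin N) :
    ((e : ℕ), (f : ℕ)) ∈ wr (List.range N) M ↔ Rch A e f := by
  have key : ∀ (l : List (Fin N)) (R : List (ℕ × ℕ)),
      (∀ a b : Fin N, (a.1, b.1) ∈ R → Rch A a b) → (∀ a b : Fin N, A a b ≠ 0 → (a.1, b.1) ∈ R) →
      (∀ a : Fin N, (a.1, a.1) ∈ R) →
      (∀ c : Fin N, c ∈ l ∨ ∀ a b : Fin N, (a.1, c.1) ∈ R → (c.1, b.1) ∈ R → (a.1, b.1) ∈ R) →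
      ((e.1, f.1) ∈ (l.map Fin.val).foldl (wstep (List.range N)) R ↔ Rch A e f) := fun l => by
    induction l with
    | nil =>
      intro R h1 h2 h3 h4
      refine ⟨h1 e f, fun t => ?_⟩
      induction t with
      | refl => exact h3 e
      | tail _ u ih => exact (h4 _).resolve_left (by simp) _ _ ih (h2 _ _ u)
    | cons x l ih =>
      intro R h1 h2 h3 h4
      have m : ∀ a b : Fin N, (a.1, b.1) ∈ wstep (List.range N) R x ↔
          (a.1, b.1) ∈ R ∨ ((a.1, x.1) ∈ R ∧ (x.1, b.1) ∈ R) := fun a b => by simp [wstep]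
      rw [List.map_cons, List.foldl_cons]
      refine ih _ (fun a b t => ?_) (fun a b t => (m _ _).2 (Or.inl (h2 a b t)))
        (fun a => (m _ _).2 (Or.inl (h3 a))) fun c => ?_
      · exact ((m _ _).1 t).elim (h1 a b) fun u => (h1 _ _ u.1).trans (h1 _ _ u.2)
      · simp only [m]
        rcases h4 c with u | u
        · refine (List.mem_cons.1 u).symm.imp_right fun w a b => ?_
          rw [w]
          tauto
        · refine Or.inr fun a b => ?_
          have := u a b
          have := u a x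
          have := u x b
          tauto
  have := key (List.finRange N) ((sq (List.range N)).filter fun p => memB p M || eqB p.1 p.2)
    (fun a b t => ?_) (fun a b t => by simp [h a b, t]) (fun a => by simp)
    fun x => Or.inl (List.mem_finRange x)
  · rwa [List.map_coe_finRange_eq_range] at this
  · simp only [List.mem_filter, Bool.or_eq_true, memB_iff, eqB_iff, h a b] at t
    exact t.2.elim Rch.single fun w => Fin.ext w ▸ Rch.refl _ _

/-- The number of hurdles. -/
def hnB (I C U : List ℕ) : ℕ := (U.filter fun x =>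
  (I.all fun i => I.all fun j => I.all fun k => !(ltB i j && ltB j k && eqB (C.getD i 0) x &&
    eqB (C.getD k 0) x && memB (C.getD j 0) U) || eqB (C.getD j 0) x) ||
  (I.all fun i => I.all fun j => I.all fun k => !(ltB i j && ltB j k && eqB (C.getD j 0) x &&
    memB (C.getD i 0) U && memB (C.getD k 0) U) || (eqB (C.getD i 0) x || eqB (C.getD k 0) x))).length

@[fun_prop] theorem p_hnB {α : Type} [N487b59b3 α] {I C U : α → List ℕ}
    (hI : Poly I) (hC : Poly C) (hU : Poly U) : Poly fun a => hnB (I a) (C a) (U a) := by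
  unfold hnB
  fun_prop

theorem hnB_spec (n : ℕ) (C : List ℕ) {U : List ℕ} (hU : U.Nodup) :
    hnB (List.range (n + 1)) C U = hn n (fun i => C.getD i 0) U.toFinset := by
  classical
  unfold hnB hn
  rw [← List.toFinset_card_of_nodup (hU.filter _), List.toFinset_filter]
  congr 1
  refine Finset.filter_congr fun x _ => ?_
  simp only [Bool.or_eq_true, List.all_eq_true, List.mem_range, Bool.not_eq_true', ← Bool.not_eq_true,
    Bool.and_eq_true, ltB_iff, eqB_iff, memB_iff, Hur1, Hur2, List.mem_toFinset]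
  refine or_congr ⟨fun t i j k a b c d e f => ?_, fun t i a j b k c => ?_⟩
    ⟨fun t i j k a b c d e f => ?_, fun t i a j b k c => ?_⟩
  · exact (t i (by omega) j (by omega) k (by omega)).resolve_left (not_not.2 ⟨⟨⟨⟨a, b⟩, d⟩, e⟩, f⟩)
  · have := t i j k
    have : k ≤ n := by omega
    tauto
  · exact (t i (by omega) j (by omega) k (by omega)).resolve_left (not_not.2 ⟨⟨⟨⟨a, b⟩, d⟩, e⟩, f⟩)
  · have := t i j k
    have : k ≤ n := by omega
    tauto

/-- The cost of a cheapest cover. -/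
def tcB (I C U : List ℕ) : ℕ := hnB I C U +
  bif (hnB I C U).bodd && U.all fun x => !ltB (hnB I C (U.filter fun y => !eqB y x)) (hnB I C U)
    then 1 else 0

@[fun_prop] theorem p_tcB {α : Type} [N487b59b3 α] {I C U : α → List ℕ}
    (hI : Poly I) (hC : Poly C) (hU : Poly U) : Poly fun a => tcB (I a) (C a) (U a) := by
  unfold tcB
  fun_prop

theorem tcB_spec (n : ℕ) (C : List ℕ) {U : List ℕ} (hU : U.Nodup)
    (hc : NonCross n fun i => C.getD i 0) (h : ∀ x ∈ U, x ≤ n ∧ C.getD x 0 = x) :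
    tcB (List.range (n + 1)) C U = tc n (fun i => C.getD i 0) U.toFinset := by
  rw [tc_eq hc fun x hx => h x (List.mem_toFinset.1 hx), tcB, Bool.cond_eq_ite]
  have a : ∀ x, (U.filter fun y => !eqB y x).toFinset = U.toFinset.erase x := fun x => by
    ext y
    simp [and_comm]
  simp only [hnB_spec n C hU, hnB_spec n C (hU.filter _), a, Bool.and_eq_true, List.all_eq_true,
    Bool.not_eq_true', ltB_false_iff, List.mem_toFinset, Nat.mod_two_of_bodd]
  congr 2
  cases Nat.bodd _ <;> simp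

end Pool.Agent.MP_f00251_lc.H19

end MrgPart1

-- ======== part 2: formerly Pool.Agent.MP_f00251_lc.Mem.Dist
section MrgPart2

-- ======== part 0: formerly Pool.Agent.MP_f00251_lc.h19.Bridge
section MrgPart0

/-! From signed permutations written as lists to framed configurations. -/

set_option autoImplicit false

namespace Pool.Agent.MP_f00251_lc.H19

def lo (a : ℤ) : ℕ := if 0 < a then 2 * a.natAbs - 1 else 2 * a.natAbs

def hi (a : ℤ) : ℕ := if 0 < a then 2 * a.natAbs else 2 * a.natAbs - 1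

/-- `P` gives the positions of the points of `π`. -/
structure Rep (π : List ℤ) (P : ℕ → ℕ) : Prop where
  zero : P 0 = 0
  last : P (2 * π.length + 1) = 2 * π.length + 1
  lo : ∀ i, i < π.length → P (lo (π.getD i 0)) = 2 * i + 1
  hi : ∀ i, i < π.length → P (hi (π.getD i 0)) = 2 * i + 2

variable {π : List ℤ} {P : ℕ → ℕ}

theorem sp_bd (hπ : IsSP π) {i : ℕ} (hi : i < π.length) :
    1 ≤ (π.getD i 0).natAbs ∧ (π.getD i 0).natAbs ≤ π.length := by
  have := hπ.subset (List.mem_map_of_mem (f := Int.natAbs) (List.getElem_mem hi))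
  rw [List.getD_eq_getElem _ _ hi]
  simp only [List.mem_range'_1] at this
  omega

theorem sp_surj (hπ : IsSP π) {x : ℕ} (h1 : 1 ≤ x) (h2 : x ≤ π.length) :
    ∃ i, i < π.length ∧ (π.getD i 0).natAbs = x := by
  obtain ⟨a, ha, e⟩ := List.mem_map.1 (hπ.symm.subset (List.mem_range'_1.2 ⟨h1, by omega⟩))
  obtain ⟨i, hi, rfl⟩ := List.getElem_of_mem ha
  exact ⟨i, hi, by rwa [List.getD_eq_getElem _ _ hi]⟩

theorem sp_inj (hπ : IsSP π) {i j : ℕ} (hi : i < π.length) (hj : j < π.length)
    (e : (π.getD i 0).natAbs = (π.getD j 0).natAbs) : i = j := by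
  have := hπ.nodup_iff.2 List.nodup_range'
  rw [List.getD_eq_getElem _ _ hi, List.getD_eq_getElem _ _ hj] at e
  exact (this.getElem_inj_iff (hi := by simpa using hi) (hj := by simpa using hj)).1 (by simpa using e)

theorem Rep.cases (h : Rep π P) (hπ : IsSP π) {p : ℕ} (hp : p ≤ 2 * π.length + 1) :
    (p = 0 ∧ P p = 0) ∨ (p = 2 * π.length + 1 ∧ P p = 2 * π.length + 1) ∨ ∃ i, i < π.length ∧
      ((p = H19.lo (π.getD i 0) ∧ P p = 2 * i + 1) ∨ (p = H19.hi (π.getD i 0) ∧ P p = 2 * i + 2)) := by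
  by_cases t : p = 0
  · exact Or.inl ⟨t, t ▸ h.zero⟩
  by_cases u : p = 2 * π.length + 1
  · exact Or.inr (Or.inl ⟨u, u ▸ h.last⟩)
  obtain ⟨i, i1, i2⟩ := sp_surj hπ (x := (p + 1) / 2) (by omega) (by omega)
  refine Or.inr (Or.inr ⟨i, i1, ?_⟩)
  have : p = H19.lo (π.getD i 0) ∨ p = H19.hi (π.getD i 0) := by
    unfold H19.lo H19.hi
    split_ifs <;> omega
  exact this.imp (fun e => ⟨e, e ▸ h.lo i i1⟩) fun e => ⟨e, e ▸ h.hi i i1⟩

theorem Rep.cfg (h : Rep π P) (hπ : IsSP π) : Cfg π.length P where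
  le p hp := by
    rcases h.cases hπ hp with t | t | ⟨i, _, t⟩ <;> omega
  inj p q hp hq e := by
    rcases h.cases hπ hp with t | t | ⟨i, _, t⟩ <;>
      rcases h.cases hπ hq with u | u | ⟨j, _, u⟩ <;> try omega
    obtain rfl : i = j := by omega
    omega
  zero := h.zero
  last := h.last
  elt x hx := by
    obtain ⟨i, i1, i2⟩ := sp_surj hπ (x := x + 1) (by omega) (by omega)
    have a1 := h.lo i i1
    have a2 := h.hi i i1
    unfold H19.lo at a1
    unfold H19.hi at a2
    rw [i2] at a1 a2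
    have e1 : 2 * (x + 1) - 1 = 2 * x + 1 := by omega
    have e2 : 2 * (x + 1) = 2 * x + 2 := by omega
    split_ifs at a1 a2
    · rw [e1] at a1; rw [e2] at a2; omega
    · rw [e2] at a1; rw [e1] at a2; omega

theorem length_rev {r : ℕ × ℕ} (h1 : r.1 ≤ r.2) (h2 : r.2 ≤ π.length) :
    (rev π r).length = π.length := by
  simp only [rev, List.length_append, List.length_take, List.length_map, List.length_reverse,
    List.length_drop]
  omega

theorem getD_rev {r : ℕ × ℕ} (h1 : r.1 ≤ r.2) (h2 : r.2 ≤ π.length) (m : ℕ) :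
    (rev π r).getD m 0 =
      if r.1 - 1 ≤ m ∧ m < r.2 then -π.getD (r.1 - 1 + r.2 - 1 - m) 0 else π.getD m 0 := by
  simp only [rev, List.getD_eq_getElem?_getD, List.getElem?_append, List.length_append,
    List.length_take, List.length_map, List.length_reverse, List.length_drop, List.getElem?_take,
    List.getElem?_map, List.getElem?_drop]
  split_ifs <;> try omega
  · rw [List.getElem?_reverse (by simp; omega)]
    simp only [List.length_drop, List.length_take, List.getElem?_drop, List.getElem?_take]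
    rw [if_pos (by omega), show r.1 - 1 + (min r.2 π.length - (r.1 - 1) - 1 -
      (m - min (r.1 - 1) π.length)) = r.1 - 1 + r.2 - 1 - m by omega,
      List.getElem?_eq_getElem (by omega)]
    rfl
  · congr 2
    omega

theorem isSP_rev (hπ : IsSP π) {r : ℕ × ℕ} (h1 : r.1 ≤ r.2) (h2 : r.2 ≤ π.length) :
    IsSP (rev π r) := by
  unfold IsSP
  rw [length_rev h1 h2]
  refine List.Perm.trans ?_ hπ
  have e : π = π.take (r.1 - 1) ++ (π.take r.2).drop (r.1 - 1) ++ π.drop r.2 := by
    have : π.take (r.1 - 1) = (π.take r.2).take (r.1 - 1) := by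
      rw [List.take_take, min_eq_left (by omega)]
    rw [this, List.take_append_drop, List.take_append_drop]
  conv_rhs => rw [e]
  simp only [rev, List.map_append, List.map_map]
  refine ((List.Perm.refl _).append ?_).append (List.Perm.refl _)
  rw [show (Int.natAbs ∘ fun a : ℤ => -a) = Int.natAbs from funext fun a => Int.natAbs_neg a]
  exact (List.reverse_perm _).map _

theorem Rep.rev (h : Rep π P) (hπ : IsSP π) {r : ℕ × ℕ} (h0 : 1 ≤ r.1) (h1 : r.1 ≤ r.2)
    (h2 : r.2 ≤ π.length) : Rep (rev π r) fun p => rf (r.1 - 1) r.2 (P p) := by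
  have a1 : ∀ a : ℤ, 1 ≤ a.natAbs → H19.lo (-a) = H19.hi a ∧ H19.hi (-a) = H19.lo a := fun a ha => by
    unfold H19.lo H19.hi
    rw [Int.natAbs_neg]
    split_ifs <;> omega
  refine ⟨by simp [h.zero, rf], ?_, fun i hi => ?_, fun i hi => ?_⟩ <;> rw [length_rev h1 h2] at *
  · rw [h.last, rf, if_neg (by omega)]
  · rw [getD_rev h1 h2]
    split_ifs with t
    · rw [(a1 _ (sp_bd hπ (by omega)).1).1, h.hi _ (by omega), rf, if_pos (by omega)]
      omega
    · rw [h.lo _ hi, rf, if_neg (by omega)]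
  · rw [getD_rev h1 h2]
    split_ifs with t
    · rw [(a1 _ (sp_bd hπ (by omega)).1).2, h.lo _ (by omega), rf, if_pos (by omega)]
      omega
    · rw [h.hi _ hi, rf, if_neg (by omega)]

theorem Rep.id_iff (h : Rep π P) (hπ : IsSP π) :
    π = (List.range' 1 π.length).map (fun a : ℕ => (a : ℤ)) ↔ mat π.length P = 0 := by
  have key : π = (List.range' 1 π.length).map (fun a : ℕ => (a : ℤ)) ↔
      ∀ i, i < π.length → π.getD i 0 = i + 1 := by
    refine ⟨fun t i hi => ?_, fun t => List.ext_getElem (by simp) fun i h1 h2 => ?_⟩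
    · rw [t, List.getD_eq_getElem _ _ (by simpa using hi)]
      simp [add_comm]
    · rw [← List.getD_eq_getElem _ 0 h1, t i h1]
      simp [add_comm]
  rw [key]
  refine ⟨fun t => Cfg.mat_id fun p hp => ?_, fun t i hi => ?_⟩
  · rcases h.cases hπ hp with u | u | ⟨i, i1, u⟩
    · omega
    · omega
    · rw [t i i1, H19.lo, H19.hi, if_pos (by omega), if_pos (by omega)] at u
      omega
  · have a1 := h.lo i hi
    have a2 := h.hi i hi
    have a3 := sp_bd hπ hi
    rw [(h.cfg hπ).eq_id t _ (by unfold H19.lo; split_ifs <;> omega), H19.lo] at a1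
    rw [(h.cfg hπ).eq_id t _ (by unfold H19.hi; split_ifs <;> omega), H19.hi] at a2
    split_ifs at a1 a2 <;> omega

theorem sorts_cons {r : ℕ × ℕ} {s : List (ℕ × ℕ)} :
    Sorts π (r :: s) ↔ (1 ≤ r.1 ∧ r.1 ≤ r.2 ∧ r.2 ≤ π.length) ∧ Sorts (rev π r) s := by
  simp only [Sorts, List.forall_mem_cons, List.foldl_cons, and_assoc]
  refine and_congr_right fun _ => and_congr_right fun h1 => and_congr_right fun h2 => ?_
  rw [length_rev h1 h2]

theorem Rep.lower (s : List (ℕ × ℕ)) : ∀ {π : List ℤ} {P : ℕ → ℕ}, Rep π P → IsSP π → Sorts π s →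
    DD π.length P ≤ s.length := by
  induction s with
  | nil => exact fun h hπ hs => (Cfg.DD_zero ((h.id_iff hπ).1 hs.2)).le
  | cons r s ih =>
    intro π P h hπ hs
    obtain ⟨⟨h0, h1, h2⟩, h3⟩ := sorts_cons.1 hs
    have a1 := ih (h.rev hπ h0 h1 h2) (isSP_rev hπ h1 h2) h3
    have a2 := (h.cfg hπ).DD_le (k := r.1 - 1) (k' := r.2) (by omega) h2
    rw [length_rev h1 h2] at a1
    rw [List.length_cons]
    omega

theorem Rep.upper (m : ℕ) : ∀ {π : List ℤ} {P : ℕ → ℕ}, Rep π P → IsSP π → DD π.length P ≤ m →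
    ∃ s, Sorts π s ∧ s.length ≤ m := by
  induction m using Nat.strong_induction_on with
  | _ m ih =>
    intro π P h hπ hm
    by_cases t : mat π.length P = 0
    · exact ⟨[], ⟨by simp, (h.id_iff hπ).2 t⟩, Nat.zero_le _⟩
    obtain ⟨k, k', h1, h2, h3⟩ := (h.cfg hπ).exists_DD_lt t
    obtain ⟨s, s1, s2⟩ := ih (m - 1) (by omega) (h.rev hπ (r := (k + 1, k')) (by simp) h1 h2)
      (isSP_rev hπ h1 h2) (by
        rw [length_rev (r := (k + 1, k')) h1 h2]
        simp only [Nat.add_sub_cancel]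
        omega)
    exact ⟨(k + 1, k') :: s, sorts_cons.2 ⟨⟨by simp, h1, h2⟩, s1⟩, by
      rw [List.length_cons]; omega⟩

end Pool.Agent.MP_f00251_lc.H19

end MrgPart0

-- ======== part 1: formerly Pool.Agent.MP_f00251_lc.Mem.Dist
section MrgPart1

/-! The reversal distance is computable in polynomial time (Hannenhalli and Pevzner). -/

set_option autoImplicit false

namespace Pool.Agent.MP_f00251_lc.H19

open Pool.Agent.PolyT Pool.Agent.H82 N487b59b3

section closure

variable {α : Type} [N487b59b3 α] {f : α → ℤ}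

theorem p_parts (hf : Poly f) : Poly fun a => ((f a).toNat, (-f a).toNat) := hf

@[fun_prop] theorem p_toNat (hf : Poly f) : Poly fun a => (f a).toNat := (p_parts hf).fst

@[fun_prop] theorem p_natAbs (hf : Poly f) : Poly fun a => (f a).natAbs :=
  ((p_parts hf).fst.add (p_parts hf).snd).congr fun a => by omega

@[fun_prop] theorem p_lo (hf : Poly f) : Poly fun a => lo (f a) :=
  PolyT.Poly.congr (f := fun a => bif ltB 0 (f a).toNat then 2 * (f a).natAbs - 1 else 2 * (f a).natAbs)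
    (by fun_prop) fun a => by simp [lo, Bool.cond_eq_ite]

end closure

def ix (π : List ℤ) (p : ℕ) : ℕ :=
  ((idx π).filter fun i => eqB (π.getD i 0).natAbs (half (p + 1))).headD π.length

/-- The position of a point. -/
def pos (π : List ℤ) (p : ℕ) : ℕ := bif ltB (ix π p) π.length then
  (bif eqB (lo (π.getD (ix π p) 0)) p then 2 * ix π p + 1 else 2 * ix π p + 2) else p

def matL (π : List ℤ) : List (ℕ × ℕ) := (sq (idx (0 :: π))).filter fun p =>
  bif eqB p.1 p.2 then !(pos π (2 * p.1) + pos π (2 * p.1 + 1)).bodd else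
    xor (xor (xor (ltB (pos π (2 * p.1)) (pos π (2 * p.2)))
      (ltB (pos π (2 * p.1)) (pos π (2 * p.2 + 1)))) (ltB (pos π (2 * p.1 + 1)) (pos π (2 * p.2))))
      (ltB (pos π (2 * p.1 + 1)) (pos π (2 * p.2 + 1)))

def own (π : List ℤ) (y : ℕ) : ℕ :=
  ((idx (0 :: π)).filter fun e => eqB (pos π (2 * e)) y || eqB (pos π (2 * e + 1)) y).headD 0

def colL (π : List ℤ) : List ℕ := (idx (0 :: π)).map fun i => ((idx (0 :: π)).filter fun j =>
  memB (own π (2 * i), own π (2 * j)) (wr (idx (0 :: π)) (matL π))).headD 0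

def badL (π : List ℤ) : List ℕ := (idx (0 :: π)).filter fun x => eqB ((colL π).getD x 0) x &&
  ((idx (0 :: π)).any fun f => memB (own π (2 * x), f) (matL π)) && (idx (0 :: π)).all fun f =>
    !memB (own π (2 * x), f) (wr (idx (0 :: π)) (matL π)) || !memB (f, f) (matL π)

/-- The reversal distance. -/
def dd (π : List ℤ) : ℕ :=
  rk (idx (0 :: π)) (matL π) + tcB (idx (0 :: π)) (colL π) (badL π)

section poly

variable {α : Type} [N487b59b3 α] {l : α → List ℤ} {g : α → ℕ}

@[fun_prop] theorem p_ix (hl : Poly l) (hg : Poly g) : Poly fun a => ix (l a) (g a) := by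
  unfold ix
  fun_prop

@[fun_prop] theorem p_pos (hl : Poly l) (hg : Poly g) : Poly fun a => pos (l a) (g a) := by
  unfold pos
  fun_prop

@[fun_prop] theorem p_matL : Poly matL := by
  unfold matL
  fun_prop

@[fun_prop] theorem p_own (hl : Poly l) (hg : Poly g) : Poly fun a => own (l a) (g a) := by
  unfold own
  fun_prop

@[fun_prop] theorem p_colL : Poly colL := by
  unfold colL
  fun_prop

@[fun_prop] theorem p_badL : Poly badL := by
  unfold badL
  fun_prop

theorem p_dd : Poly dd := by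
  unfold dd
  fun_prop

end poly

variable {π : List ℤ}

theorem idx_cons (π : List ℤ) : idx (0 :: π) = List.range (π.length + 1) := rfl

theorem rep_pos (hπ : IsSP π) : Rep π (pos π) := by
  have a1 : ∀ p, (p = 0 ∨ p = 2 * π.length + 1) → pos π p = p := fun p hp => by
    have : ix π p = π.length := headD_none _ fun ⟨i, h1, h2⟩ => by
      have := sp_bd hπ (mem_idx.1 h1)
      rw [eqB_iff, half] at h2
      omega
    rw [pos, this, ltB_false_iff.2 le_rfl, cond_false]
  have a2 : ∀ i p, i < π.length → (π.getD i 0).natAbs = (p + 1) / 2 → ix π p = i :=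
    fun i p hi hp => by
      obtain ⟨h1, h2⟩ := headD_filter (c := fun i => eqB (π.getD i 0).natAbs (half (p + 1))) π.length
        ⟨i, mem_idx.2 hi, eqB_iff.2 hp⟩
      exact sp_inj hπ (mem_idx.1 h1) hi ((eqB_iff.1 h2).trans hp.symm)
  refine ⟨a1 _ (Or.inl rfl), a1 _ (Or.inr rfl), fun i hi => ?_, fun i hi => ?_⟩
  all_goals have := sp_bd hπ hi
  · rw [pos, a2 i _ hi (by unfold lo; split_ifs <;> omega), ltB_iff.2 hi, eqB_iff.2 rfl]
    rfl
  · rw [pos, a2 i _ hi (by unfold H19.hi; split_ifs <;> omega), ltB_iff.2 hi,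
      eqB_false_iff.2 (by unfold lo H19.hi; split_ifs <;> omega)]
    rfl

theorem rp_matL (π : List ℤ) : Rp (matL π) (mat π.length (pos π)) := fun e f => by
  simp only [matL, idx_cons, List.mem_filter, mem_sq, List.mem_range, e.2, f.2, true_and]
  by_cases t : e = f
  · subst t
    rw [eqB_iff.2 rfl, cond_true, mat_self, Nat.mod_two_of_bodd]
    cases Nat.bodd _ <;> simp [ind]
  · rw [eqB_false_iff.2 fun u => t (Fin.ext u), cond_false, mat_ne t]
    have : ∀ x y, ind (x < y) = bif ltB x y then 1 else 0 := fun x y => by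
      simp [ind, Bool.cond_eq_ite]
    simp only [this]
    generalize ltB (pos π (2 * e)) (pos π (2 * f)) = a
    generalize ltB (pos π (2 * e)) (pos π (2 * f + 1)) = b
    generalize ltB (pos π (2 * e + 1)) (pos π (2 * f)) = c
    generalize ltB (pos π (2 * e + 1)) (pos π (2 * f + 1)) = d
    revert a b c d
    decide

theorem own_spec (h : Cfg π.length (pos π)) {i : ℕ} (hi : i ≤ π.length) :
    ∃ e : Fin (π.length + 1), own π (2 * i) = e ∧ Pt π.length (pos π) e (2 * i) := by
  obtain ⟨e, he⟩ := h.exists_end (y := 2 * i) (by omega)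
  obtain ⟨h1, h2⟩ := headD_filter (I := idx (0 :: π))
    (c := fun e => eqB (pos π (2 * e)) (2 * i) || eqB (pos π (2 * e + 1)) (2 * i)) 0
    ⟨e, List.mem_range.2 e.2, by simpa [End] using he⟩
  exact ⟨⟨own π (2 * i), List.mem_range.1 h1⟩, rfl, End.pt (by
    rwa [Bool.or_eq_true, eqB_iff, eqB_iff] at h2)⟩

theorem col_spec (h : Cfg π.length (pos π)) :
    Col π.length (pos π) fun i => (colL π).getD i 0 := by
  have a1 : ∀ i j, i ≤ π.length → j ≤ π.length →
      (memB (own π (2 * i), own π (2 * j)) (wr (idx (0 :: π)) (matL π)) = true ↔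
        ∃ e, Pt π.length (pos π) e (2 * i) ∧ Pt π.length (pos π) e (2 * j)) := fun i j hi hj => by
    obtain ⟨e, e1, e2⟩ := own_spec h hi
    obtain ⟨f, f1, f2⟩ := own_spec h hj
    rw [memB_iff, e1, f1, idx_cons, wr_spec (rp_matL π)]
    exact ⟨fun t => ⟨e, e2, f2.rch t⟩, fun ⟨g, g1, g2⟩ =>
      (h.rch_of_pt e2 g1).trans (h.rch_of_pt g2 f2)⟩
  have a2 : ∀ i, i ≤ π.length → (colL π).getD i 0 = ((idx (0 :: π)).filter fun j =>
      memB (own π (2 * i), own π (2 * j)) (wr (idx (0 :: π)) (matL π))).headD 0 := fun i hi => by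
    rw [colL, List.getD_eq_getElem _ _ (by simp; omega)]
    simp [idx]
  have a3 : ∀ i, i ≤ π.length → (colL π).getD i 0 ≤ π.length ∧ ∃ e,
      Pt π.length (pos π) e (2 * i) ∧ Pt π.length (pos π) e (2 * (colL π).getD i 0) := fun i hi => by
    obtain ⟨e, -, e2⟩ := own_spec h hi
    obtain ⟨h1, h2⟩ := headD_filter (I := idx (0 :: π)) (c := fun j =>
      memB (own π (2 * i), own π (2 * j)) (wr (idx (0 :: π)) (matL π))) 0
      ⟨i, List.mem_range.2 (Nat.lt_succ_of_le hi), (a1 i i hi hi).2 ⟨e, e2, e2⟩⟩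
    rw [← a2 i hi] at h1 h2
    have := Nat.le_of_lt_succ (List.mem_range.1 h1)
    exact ⟨this, (a1 _ _ hi this).1 h2⟩
  have a4 : ∀ i j, i ≤ π.length → j ≤ π.length → (∃ e, Pt π.length (pos π) e (2 * i) ∧
      Pt π.length (pos π) e (2 * j)) → (colL π).getD i 0 = (colL π).getD j 0 := by
    rintro i j hi hj ⟨e, e1, e2⟩
    rw [a2 i hi, a2 j hj, List.filter_congr fun k hk => ?_]
    have := Nat.le_of_lt_succ (List.mem_range.1 hk)
    rw [Bool.eq_iff_iff, a1 i k hi this, a1 j k hj this]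
    exact ⟨fun ⟨g, g1, g2⟩ => ⟨e, e2, g2.rch (h.rch_of_pt e1 g1)⟩,
      fun ⟨g, g1, g2⟩ => ⟨e, e1, g2.rch (h.rch_of_pt e2 g1)⟩⟩
  refine ⟨fun i j hi hj => ⟨fun t => ?_, a4 i j hi hj⟩, fun i hi => (a3 i hi).1,
    fun i hi => (a4 _ _ hi (a3 i hi).1 (a3 i hi).2).symm⟩
  obtain ⟨e, e1, e2⟩ := (a3 i hi).2
  obtain ⟨f, f1, f2⟩ := (a3 j hj).2
  exact ⟨e, e1, f1.rch (h.rch_of_pt e2 (t ▸ f2))⟩

theorem mem_badL (h : Cfg π.length (pos π)) (x : ℕ) : x ∈ badL π ↔ x ≤ π.length ∧
    (colL π).getD x 0 = x ∧ ∃ e, Bad (mat π.length (pos π)) e ∧ Pt π.length (pos π) e (2 * x) := by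
  simp only [badL, idx_cons, List.mem_filter, List.mem_range, Nat.lt_succ_iff, Bool.and_eq_true,
    eqB_iff, and_assoc, List.any_eq_true, List.all_eq_true, Bool.or_eq_true, Bool.not_eq_true',
    memB_iff, memB_false_iff]
  refine and_congr_right fun hx => and_congr_right fun _ => ?_
  obtain ⟨e, e1, e2⟩ := own_spec h hx
  rw [e1]
  refine Iff.trans (b := Bad (mat π.length (pos π)) e) (and_congr
    ⟨fun ⟨f, f1, f2⟩ => ⟨⟨f, by omega⟩, (rp_matL π e _).1 f2⟩,
      fun ⟨f, f1⟩ => ⟨f, by omega, (rp_matL π e f).2 f1⟩⟩ ⟨fun t f u => ?_, fun t f u => ?_⟩)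
    ⟨fun t => ⟨e, t, e2⟩, fun ⟨g, g1, g2⟩ => g1.rch h.symm (h.rch_of_pt g2 e2)⟩
  · have := t f (by omega)
    rw [wr_spec (rp_matL π), rp_matL π] at this
    tauto
  · have := t ⟨f, by omega⟩
    rw [← wr_spec (rp_matL π), ← not_not (a := _ = _), ← ne_eq, ← rp_matL π] at this
    tauto

theorem dd_eq (hπ : IsSP π) : dd π = DD π.length (pos π) := by
  have h := (rep_pos hπ).cfg hπ
  rw [dd, DD, idx_cons, rk_spec (rp_matL π) h.symm, h.cost_eq (col_spec h) (U := (badL π).toFinset)
    fun x => by rw [List.mem_toFinset, mem_badL h], tcB_spec (U := badL π) _ _ (List.nodup_range.filter _)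
    (h.nonCross (col_spec h)) fun x hx => ⟨((mem_badL h x).1 hx).1, ((mem_badL h x).1 hx).2.1⟩]

end H19

/-- The theorem of Hannenhalli and Pevzner. -/
theorem distStmt : DistStmt := ⟨H19.dd, H19.p_dd, fun π hπ => by
  rw [H19.dd_eq hπ]
  obtain ⟨s, s1, s2⟩ := (H19.rep_pos hπ).upper _ hπ le_rfl
  exact ⟨H19.DD_bound _ _, ⟨s, s1, s2.antisymm ((H19.rep_pos hπ).lower s hπ s1)⟩,
    fun t => (H19.rep_pos hπ).lower t hπ⟩⟩

end Pool.Agent.MP_f00251_lc

end MrgPart1

-- marker of a merged file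
example : 731051 + 132648 = 731051 + 132648 := rfl

end MrgPart2

-- marker of a merged file
example : 731051 + 132648 = 731051 + 132648 := rfl
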