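import Pool.Agent.MP_f00251_lc.H81.Geo
import Pool.Agent.MP_f00251_lc.H81.Machine
import Pool.Agent.MP_f00251_lc.Defs
import Pool.Agent.MP_f00251_lc.Mem.Dist
import Pool.Agent.MP_f00251_lc.Mem.Verifier

-- ======== part 0: formerly Pool.Agent.MP_f00251_lc.H81.Red
section MrgPart0

/-!
Reductions in which the answer is a rational linear combination of oracle answers.
-/

set_option autoImplicit false
set_option linter.unusedSectionVars false
set_option linter.unusedVariables false

namespace Pool.Agent.MP_f00251_lc.H81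

open Finset Pool.Agent.H82 Pool.Agent.PolyT N487b59b3

section poly

variable {α β : Type} [N487b59b3 α] [N487b59b3 β]

@[fun_prop] theorem p_prod {l : α → List ℕ} (hl : PolyT.Poly l) :
    PolyT.Poly (fun a => (l a).prod) := by
  have key : ∀ r : List ℕ, r.prod < 2 ^ ((bitEncode r).length + 1) := by
    intro r
    induction r with
    | nil => simp
    | cons x r ih =>
      rw [List.prod_cons, length_enc_cons]
      refine (Nat.mul_lt_mul'' (lt_two_pow_enc x) ih).trans_le ?_
      rw [← pow_add]
      exact Nat.pow_le_pow_right (by norm_num) (by omega)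
  exact PolyT.Poly.foldr (f := fun _ (x n : ℕ) => x * n)
    (PolyT.Poly.id.snd.fst.mul PolyT.Poly.id.snd.snd) hl (PolyT.Poly.const 1)
    (hl.bd.add (Bd.const 1)) fun a n => (length_enc_nat_le (key _)).trans
      (Nat.add_le_add_right (enc_sublist_le (List.drop_sublist _ _)) 1)

/-- One step of the long division. -/
def divStep (d : ℕ) (b : Bool) (s : ℕ × ℕ) : ℕ × ℕ :=
  cond (ltB (2 * s.2 + cond b 1 0) d) (2 * s.1, 2 * s.2 + cond b 1 0)
    (2 * s.1 + 1, 2 * s.2 + cond b 1 0 - d)

theorem divStep_spec (d : ℕ) (l : List Bool) :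
    (l.foldr (divStep d) (0, 0)).1 * d + (l.foldr (divStep d) (0, 0)).2 = ofBits l ∧
    (0 < d → (l.foldr (divStep d) (0, 0)).2 < d) ∧
    (l.foldr (divStep d) (0, 0)).1 < 2 ^ l.length := by
  induction l with
  | nil => simp
  | cons b l ih =>
    rw [List.foldr_cons, ofBits_cons, List.length_cons, pow_succ]
    generalize l.foldr (divStep d) (0, 0) = s at ih
    have e : b.toNat = cond b 1 0 := by cases b <;> rfl
    have e1 : cond b 1 0 ≤ 1 := by cases b <;> simp
    by_cases h : 2 * s.2 + cond b 1 0 < d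
    · simp only [divStep, e, ltB, h, decide_true, cond_true, mul_assoc, implies_true, true_and]
      omega
    · simp only [divStep, e, ltB, h, decide_false, cond_false, add_mul, mul_assoc]
      omega

/-- Division. -/
def dv (a d : ℕ) : ℕ := a / d

@[fun_prop] theorem p_dv {f g : α → ℕ} (hf : PolyT.Poly f) (hg : PolyT.Poly g) :
    PolyT.Poly (fun a => dv (f a) (g a)) := by
  have h1 : PolyT.Poly (fun a => (f a).bits.foldr (divStep (g a)) (0, 0)) := by
    refine PolyT.Poly.foldr (f := fun a => divStep (g a)) (by unfold divStep; fun_prop) hf.bits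
      (PolyT.Poly.const _) (((Bd.const 3).mul hf.bits.bd).add (Bd.const 1)) fun a n => ?_
    obtain ⟨a1, -, a2⟩ := divStep_spec (g a) ((f a).bits.drop n)
    have a3 := length_enc_nat_le a2
    have a4 := length_enc_nat_le ((Nat.le_add_left _ _).trans_lt (a1 ▸ ofBits_lt _))
    have a5 := ((List.drop_sublist n (f a).bits).length_le).trans (length_le_enc _)
    rw [length_enc_pair]
    omega
  refine PolyT.Poly.congr (f := fun a => cond (eqB (g a) 0) 0
    ((f a).bits.foldr (divStep (g a)) (0, 0)).1) (by fun_prop) fun a => ?_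
  by_cases h : g a = 0
  · simp [eqB, h, dv]
  · obtain ⟨a1, a2, -⟩ := divStep_spec (g a) (f a).bits
    rw [ofBits_bits] at a1
    simp only [eqB, h, decide_false, cond_false, dv]
    conv_rhs => rw [← a1]
    rw [add_comm, Nat.add_mul_div_right _ _ (Nat.pos_of_ne_zero h),
      Nat.div_eq_of_lt (a2 (Nat.pos_of_ne_zero h)), zero_add]

/-- Factorial of the length. -/
def facU {γ : Type} (l : List γ) : ℕ := ((idx l).map fun i => i + 1).prod

theorem facU_eq {γ : Type} (l : List γ) : facU l = l.length.factorial := by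
  rw [facU, idx, ← Finset.prod_range_add_one_eq_factorial, ← List.prod_toFinset _ List.nodup_range,
    List.toFinset_range]

@[fun_prop] theorem p_facU {l : α → List β} (hl : PolyT.Poly l) :
    PolyT.Poly (fun a => facU (l a)) := by
  unfold facU; fun_prop

/-- Power with the length as exponent. -/
def powU {γ : Type} (c : ℕ) (l : List γ) : ℕ := (l.map fun _ => c).prod

theorem powU_eq {γ : Type} (c : ℕ) (l : List γ) : powU c l = c ^ l.length := by simp [powU]

@[fun_prop] theorem p_powU (c : ℕ) {l : α → List β} (hl : PolyT.Poly l) :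
    PolyT.Poly (fun a => powU c (l a)) := by
  unfold powU; fun_prop

end poly

/-- Value of a coefficient. -/
def cf (e : Bool × ℕ × ℕ) : ℚ := cond e.1 (-1) 1 * e.2.1 / e.2.2

variable {α β γ : Type} [N487b59b3 α] [N487b59b3 β] [N487b59b3 γ]

/-- Linear reductions between counting problems with promises. -/
def LinRed (P : α → Prop) (f : α → ℕ) (Q : β → Prop) (g : β → ℕ) : Prop :=
  ∃ R : α → List (β × Bool × ℕ × ℕ), PolyT.Poly R ∧ ∀ x, P x →
    (∀ e ∈ R x, Q e.1 ∧ 0 < e.2.2.2) ∧ (f x : ℚ) = ((R x).map fun e => cf e.2 * g e.1).sum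

theorem LinRed.trans {P : α → Prop} {f : α → ℕ} {Q : β → Prop} {g : β → ℕ} {S : γ → Prop}
    {h : γ → ℕ} (h1 : LinRed P f Q g) (h2 : LinRed Q g S h) : LinRed P f S h := by
  obtain ⟨R, hR, h1⟩ := h1
  obtain ⟨R', hR', h2⟩ := h2
  refine ⟨fun x => (R x).flatMap fun e => (R' e.1).map fun e' =>
    (e'.1, !eqB e.2.1 e'.2.1, e.2.2.1 * e'.2.2.1, e.2.2.2 * e'.2.2.2), by fun_prop,
    fun x hx => ?_⟩
  obtain ⟨a1, a2⟩ := h1 x hx
  constructor
  · simp only [List.forall_mem_flatMap, List.forall_mem_map]
    exact fun e he e' he' => ⟨((h2 _ (a1 e he).1).1 e' he').1,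
      Nat.mul_pos (a1 e he).2 ((h2 _ (a1 e he).1).1 e' he').2⟩
  · rw [a2]
    beta_reduce
    generalize R x = l at a1
    induction l with
    | nil => rfl
    | cons e l ih =>
      rw [List.flatMap_cons, List.map_append, List.sum_append, List.map_cons, List.sum_cons,
        ih fun e he => a1 e (List.mem_cons_of_mem _ he), (h2 _ (a1 e List.mem_cons_self).1).2,
        List.map_map, ← List.sum_map_mul_left]
      congr 2
      refine List.map_congr_left fun e' _ => ?_
      simp only [Function.comp, cf]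
      cases e.2.1 <;> cases e'.2.1 <;> simp [eqB] <;> ring

theorem LinRed.single {P : α → Prop} {f : α → ℕ} {Q : β → Prop} {g : β → ℕ} {φ : α → β}
    {n d : α → ℕ} (hφ : PolyT.Poly φ) (hn : PolyT.Poly n) (hd : PolyT.Poly d)
    (h : ∀ x, P x → Q (φ x) ∧ 0 < d x ∧ (f x : ℚ) * d x = n x * g (φ x)) : LinRed P f Q g := by
  refine ⟨fun x => [(φ x, false, n x, d x)], by fun_prop, fun x hx => ?_⟩
  obtain ⟨a1, a2, a3⟩ := h x hx
  have : (d x : ℚ) ≠ 0 := by positivity
  refine ⟨by simp [a1, a2], ?_⟩
  simp only [List.map_cons, List.map_nil, List.sum_cons, List.sum_nil, cf, cond_false]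
  field_simp
  linarith

theorem LinRed.alt {P : α → Prop} {f : α → ℕ} {Q : α × List ℕ → Prop} {g : α × List ℕ → ℕ}
    {u : α → List ℕ} {e : α → ℕ} (hu : PolyT.Poly u) (he : PolyT.Poly e) (δ c : ℕ) (hc : 0 < c)
    (G : α → ℕ → ℕ) (hG : ∀ x l, g (x, l) = G x l.length) (hQ : ∀ x l, P x → Q (x, l))
    (h : ∀ x, P x → (c * f x : ℤ) = ∑ j ∈ range ((u x).length + 1),
      (-1) ^ (e x + j) * (((u x).length + δ).choose (j + δ) : ℤ) * G x j) : LinRed P f Q g := by
  refine ⟨fun x => (idx (0 :: u x)).map fun j => ((x, (u x).take j), eqB (md2 (e x + j)) 1,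
    facU (u x ++ List.replicate δ 0),
    c * (facU ((u x).take j ++ List.replicate δ 0) * facU ((u x).drop j))), by fun_prop,
    fun x hx => ⟨?_, ?_⟩⟩
  · simp only [List.forall_mem_map, facU_eq]
    exact fun j _ => ⟨hQ x _ hx, by positivity⟩
  · have h1 : (c : ℚ) ≠ 0 := by positivity
    have h2 := congrArg (Int.cast : ℤ → ℚ) (h x hx)
    push_cast at h2
    apply mul_left_cancel₀ h1
    rw [h2, List.map_map, idx, ← List.sum_toFinset _ List.nodup_range, List.toFinset_range,
      List.length_cons, mul_sum]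
    refine sum_congr rfl fun j hj => ?_
    have h3 : j ≤ (u x).length := by simpa [Nat.lt_succ_iff] using hj
    have h4 : (cond (eqB (md2 (e x + j)) 1) (-1) 1 : ℚ) = (-1) ^ (e x + j) := by
      rcases Nat.even_or_odd (e x + j) with a | a
      · rw [a.neg_one_pow, md2, Nat.even_iff.1 a]; rfl
      · rw [a.neg_one_pow, md2, Nat.odd_iff.1 a]; rfl
    simp only [Function.comp, cf, h4, hG, facU_eq, List.length_append, List.length_replicate,
      List.length_take, List.length_drop, min_eq_left h3]
    rw [Nat.cast_choose ℚ (by omega), show (u x).length + δ - (j + δ) = (u x).length - j by omega]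
    push_cast
    field_simp

theorem LinRed.extrap {P : α → Prop} {f : α → ℕ} {Q : α × List ℕ → Prop} {g : α × List ℕ → ℕ}
    {u : α → List ℕ} (hu : PolyT.Poly u) (c : ℕ) (hc : 0 < c) (G : α → ℕ → ℕ)
    (hG : ∀ x l, g (x, l) = G x l.length) (hQ : ∀ x l, P x → Q (x, l))
    (h : ∀ x, P x → Nil ((u x).length + 1) (cns (c * f x) fun j => G x j)) : LinRed P f Q g :=
  LinRed.alt hu (PolyT.Poly.const 0) 1 c hc G hG hQ fun x hx => by
    simpa using (h x hx).extrap_cns

theorem LinRed.diff {P : α → Prop} {f : α → ℕ} {Q : α × List ℕ → Prop} {g : α × List ℕ → ℕ}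
    {u : α → List ℕ} (hu : PolyT.Poly u) (G : α → ℕ → ℕ)
    (hG : ∀ x l, g (x, l) = G x l.length) (hQ : ∀ x l, P x → Q (x, l))
    (h : ∀ x, P x → Dl (u x).length (fun j => G x j) 0 = f x) : LinRed P f Q g :=
  LinRed.alt hu hu.length 0 1 Nat.one_pos G hG hQ fun x hx => by
    rw [← h x hx, Dl_formula]; simp

theorem LinRed.oracle {f : α → ℕ} {Q : β → Prop} {g : β → ℕ} (h : LinRed (fun _ => True) f Q g) :
    ∃ (q : α → List β) (post : α × List ℕ → ℕ), N68a2faeb.IsPolyTime q ∧
      N68a2faeb.IsPolyTime post ∧ ∀ x, (∀ b ∈ q x, Q b) ∧ f x = post (x, (q x).map g) := by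
  obtain ⟨R, hR, h⟩ := h
  let c : α → List (Bool × ℕ × ℕ) := fun x => (R x).map fun e => e.2
  let D : α → ℕ := fun x => ((c x).map fun e => e.2.2).prod
  let S : Bool → α × List ℕ → ℕ := fun s y => ((idx (c y.1)).map fun i =>
    cond (eqB ((c y.1).getD i (false, 0, 0)).1 s) (((c y.1).getD i (false, 0, 0)).2.1 *
      dv (D y.1) ((c y.1).getD i (false, 0, 0)).2.2 * y.2.getD i 0) 0).sum
  have hc : PolyT.Poly c := by fun_prop
  have hD : PolyT.Poly D := by fun_prop
  have hS : ∀ s, PolyT.Poly (S s) := fun s => by fun_prop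
  refine ⟨fun x => (R x).map fun e => e.1, fun y => dv (S false y - S true y) (D y.1),
    (poly_iff _).1 (by fun_prop), (poly_iff _).1 (by fun_prop), fun x => ?_⟩
  obtain ⟨a1, a2⟩ := h x trivial
  refine ⟨by simpa only [List.forall_mem_map] using fun e he => (a1 e he).1, ?_⟩
  have hD0 : 0 < D x := List.prod_pos (by
    simpa only [c, List.forall_mem_map] using fun e he => (a1 e he).2)
  have e1 : ∀ s, S s (x, ((R x).map fun e => e.1).map g) = ((R x).map fun e =>
      cond (eqB e.2.1 s) (e.2.2.1 * dv (D x) e.2.2.2 * g e.1) 0).sum := by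
    intro s
    refine congrArg List.sum (List.ext_getElem (by simp [c]) fun i h1 h2 => ?_)
    have h3 : i < (R x).length := by simpa using h2
    simp [c, idx, h3]
  have e2 : ((S false (x, ((R x).map fun e => e.1).map g) : ℕ) : ℚ) =
      f x * D x + (S true (x, ((R x).map fun e => e.1).map g) : ℕ) := by
    rw [e1, e1, a2, Nat.cast_list_sum, Nat.cast_list_sum, List.map_map, List.map_map,
      ← List.sum_map_mul_right, ← List.sum_map_add]
    refine congrArg List.sum (List.map_congr_left fun e he => ?_)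
    have b1 : e.2.2.2 ∣ D x := List.dvd_prod (List.mem_map_of_mem (f := fun e : Bool × ℕ × ℕ =>
      e.2.2) (List.mem_map_of_mem he))
    have b2 : (e.2.2.2 : ℚ) ≠ 0 := by have := (a1 e he).2; positivity
    simp only [Function.comp, cf, dv]
    cases e.2.1 <;> simp [eqB, Nat.cast_div b1 b2] <;> ring
  have e3 : S false (x, ((R x).map fun e => e.1).map g) =
      f x * D x + S true (x, ((R x).map fun e => e.1).map g) := by exact_mod_cast e2
  simp only [e3, Nat.add_sub_cancel, dv, Nat.mul_div_cancel _ hD0]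

end Pool.Agent.MP_f00251_lc.H81

end MrgPart0

-- ======== part 1: formerly Pool.Agent.MP_f00251_lc.H81.Programs
section MrgPart1

/-!
Programs for the weighted machine.
-/

set_option autoImplicit false
set_option linter.unusedSectionVars false
set_option linter.unusedVariables false

namespace Pool.Agent.MP_f00251_lc.H81

open Finset Pool.Agent.H82 Pool.Agent.PolyT N487b59b3

/-- Shift of a program. -/
def sh (n : ℕ) (l : List Op) : List Op := l.map fun o => (o.1, o.2.1, o.2.2 + n)

/-- Number of weighted instructions. -/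
def cA (l : List Op) : ℕ := (l.filter fun o => o.1 && !o.2.1).length

theorem sh_zero (l : List Op) : sh 0 l = l := by simp [sh]

theorem sh_succ (n : ℕ) (l : List Op) : sh (n + 1) l = sh 1 (sh n l) := by
  simp [sh, add_assoc]

theorem sh_append (n : ℕ) (l l' : List Op) : sh n (l ++ l') = sh n l ++ sh n l' := List.map_append

theorem cA_append (l l' : List Op) : cA (l ++ l') = cA l + cA l' := by simp [cA]

theorem cA_sh (n : ℕ) (l : List Op) : cA (sh n l) = cA l := by
  simp [cA, sh, List.filter_map, Function.comp_def]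

theorem runK_sh (l : List Op) (K : (ℕ → Bool) → ℕ) (x : Bool) : ∀ y : ℕ → Bool,
    runK (sh 1 l) (sc x y) K = runK l y fun z => K (sc x z) := by
  induction l with
  | nil => intro y; rfl
  | cons o l ih =>
    intro y
    change stepK o.1 o.2.1 o.2.2 y (fun z => runK (sh 1 l) (sc x z) K) = _
    simp only [ih, runK]

/-- The program computes deterministically, with the standard weight. -/
def Does (l : List Op) (y y' : ℕ → Bool) : Prop := ∀ K, runK l y K = 24 ^ cA l * K y'

theorem Does.append {l l' : List Op} {y y' y'' : ℕ → Bool} (h : Does l y y') (h' : Does l' y' y'') :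
    Does (l ++ l') y y'' := fun K => by
  rw [runK_append, h, h', cA_append, pow_add, mul_assoc]

theorem Does.sh {l : List Op} {y y' : ℕ → Bool} (h : Does l y y') (x : Bool) :
    Does (sh 1 l) (sc x y) (sc x y') := fun K => by rw [runK_sh, h, cA_sh]

/-- Negation. -/
def pNeg : List Op := [(false, false, 0)]

/-- Copy. -/
def pDup : List Op := [(false, true, 0), (false, false, 0), (false, true, 0), (false, false, 0),
  (false, false, 1), (true, true, 1)]

/-- Weights one and two. -/
def pTwo : List Op := [(false, true, 0), (false, false, 0), (false, false, 1), (true, true, 0),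
  (false, false, 0)]

/-- Weights one and three. -/
def pThree : List Op := (false, true, 0) :: sh 1 pTwo ++ [(false, false, 0), (false, false, 1),
  (true, true, 0), (false, false, 0)]

/-- Negated conjunction. -/
def pNand : List Op := pTwo ++ (sh 1 pTwo ++ ((true, false, 0) :: (false, false, 0) :: pTwo ++
  (pTwo ++ pThree)))

/-- Exclusive disjunction. -/
def pXor : List Op :=
  pDup ++ sh 1 (sh 1 pDup) ++ sh 1 pNand ++ sh 1 pDup ++ pNand ++ sh 1 pNand ++ pNand

/-- Exchange. -/
def pSwap : List Op := pDup ++ sh 1 (sh 1 pDup) ++ sh 1 pXor ++ sh 1 pDup ++ pXor ++ sh 1 pXor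

/-- Assertion. -/
def pAssert : List Op := [(false, true, 0), (false, false, 0), (true, true, 0), (false, false, 0)]

theorem st_neg (a : Bool) (y : ℕ → Bool) (K : (ℕ → Bool) → ℕ) :
    stepK false false 0 (sc a y) K = K (sc (!a) y) := (rfl)

theorem st_spl (a : Bool) (y : ℕ → Bool) (K : (ℕ → Bool) → ℕ) : stepK false true 0 (sc a y) K =
    K (sc a (sc false y)) + cond a (K (sc a (sc true y))) 0 := (rfl)

theorem st_and (a b : Bool) (y : ℕ → Bool) (K : (ℕ → Bool) → ℕ) :
    stepK true false 0 (sc a (sc b y)) K =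
      cond a (cond b 6 1) (cond b 1 2) * K (sc (a && b) y) := (rfl)

theorem st_join (a b : Bool) (y : ℕ → Bool) (K : (ℕ → Bool) → ℕ) :
    stepK true true 0 (sc a (sc b y)) K = cond (!a || b) (K (sc a y)) 0 := (rfl)

theorem st_one (a b x : Bool) (y : ℕ → Bool) (K : (ℕ → Bool) → ℕ) :
    stepK a b 1 (sc x y) K = stepK a b 0 y fun z => K (sc x z) := (rfl)

theorem runK_nil (y : ℕ → Bool) (K : (ℕ → Bool) → ℕ) : runK [] y K = K y := (rfl)

theorem runK_cons (a b : Bool) (p : ℕ) (l : List Op) (y : ℕ → Bool) (K : (ℕ → Bool) → ℕ) :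
    runK ((a, b, p) :: l) y K = stepK a b p y fun z => runK l z K := (rfl)

theorem does_neg (a : Bool) (y : ℕ → Bool) : Does pNeg (sc a y) (sc (!a) y) := fun K => by
  simp [pNeg, runK_nil, runK_cons, st_neg, cA]

theorem does_dup (a : Bool) (y : ℕ → Bool) : Does pDup (sc a y) (sc a (sc a y)) := fun K => by
  cases a <;> simp [pDup, runK_nil, runK_cons, st_neg, st_spl, st_join, st_one, cA]

theorem run_two (a : Bool) (y : ℕ → Bool) (K : (ℕ → Bool) → ℕ) :
    runK pTwo (sc a y) K = cond a 2 1 * K (sc a y) := by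
  cases a <;> simp [pTwo, runK_nil, runK_cons, st_neg, st_spl, st_join, st_one, two_mul]

theorem run_three (a : Bool) (y : ℕ → Bool) (K : (ℕ → Bool) → ℕ) :
    runK pThree (sc a y) K = cond a 3 1 * K (sc a y) := by
  simp only [pThree, runK_nil, runK_cons, runK_append, runK_sh, run_two, st_neg, st_spl, st_join, st_one]
  cases a <;> simp only [Bool.not_true, Bool.not_false, cond_true, cond_false, Bool.or_true,
    Bool.or_false] <;> ring

theorem does_nand (a b : Bool) (y : ℕ → Bool) :
    Does pNand (sc a (sc b y)) (sc (!(a && b)) y) := fun K => by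
  have : cA pNand = 1 := by decide
  rw [this]
  simp only [pNand, runK_append, run_two, run_three, runK_sh, runK_cons, st_neg, st_and]
  cases a <;> cases b <;> simp only [Bool.not_true, Bool.not_false, cond_true, cond_false,
    Bool.and_true, Bool.and_false] <;> ring

theorem does_xor (a b : Bool) (y : ℕ → Bool) : Does pXor (sc a (sc b y)) (sc (xor a b) y) := by
  have := (((((((does_dup a _).append (((does_dup b y).sh a).sh a)).append
    ((does_nand a b _).sh a)).append ((does_dup _ _).sh a)).append (does_nand _ _ _)).append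
    ((does_nand _ _ _).sh _)).append (does_nand _ _ _))
  cases a <;> cases b <;> exact this

theorem does_swap (a b : Bool) (y : ℕ → Bool) : Does pSwap (sc a (sc b y)) (sc b (sc a y)) := by
  have := ((((((does_dup a _).append (((does_dup b y).sh a).sh a)).append
    ((does_xor a b _).sh a)).append ((does_dup _ _).sh a)).append (does_xor _ _ _)).append
    ((does_xor _ _ _).sh _))
  cases a <;> cases b <;> exact this

theorem run_assert (a : Bool) (y : ℕ → Bool) (K : (ℕ → Bool) → ℕ) :
    runK pAssert (sc a y) K = cond a 2 0 * K (sc a y) := by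
  cases a <;> simp [pAssert, runK_nil, runK_cons, st_neg, st_spl, st_join, two_mul]

/-- Copy of an entry to the front. -/
def fetch (j : ℕ) : List Op :=
  sh j pDup ++ (List.range j).flatMap fun t => sh (j - 1 - t) pSwap

theorem fetch_succ (j : ℕ) : fetch (j + 1) = sh 1 (fetch j) ++ pSwap := by
  rw [fetch, fetch, List.range_succ, List.flatMap_append, sh_append, sh_succ, List.append_assoc]
  congr 2
  · rw [sh, List.map_flatMap]
    refine List.flatMap_congr fun t ht => ?_
    rw [show j + 1 - 1 - t = j - 1 - t + 1 by have := List.mem_range.1 ht; omega, sh_succ]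
    rfl
  · simp [sh_zero]

theorem does_fetch (j : ℕ) : ∀ y : ℕ → Bool, Does (fetch j) y (sc (y j) y) := by
  induction j with
  | zero =>
    intro y
    have := does_dup (y 0) (tl y)
    rw [sc_tl] at this
    simpa [fetch, sh_zero] using this
  | succ j ih =>
    intro y
    have := ((ih (tl y)).sh (y 0)).append (does_swap _ _ _)
    rw [sc_tl] at this
    rw [fetch_succ]
    exact this

/-- The negation of a literal is put in front. -/
def getNeg (l : Lit) (d : ℕ) : List Op := fetch (l.1 + d) ++ cond l.2 pNeg []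

theorem does_getNeg (l : Lit) (d : ℕ) (y : ℕ → Bool) :
    Does (getNeg l d) y (sc (xor (y (l.1 + d)) l.2) y) := by
  unfold getNeg
  cases l.2
  · simpa using does_fetch (l.1 + d) y
  · simpa using (does_fetch (l.1 + d) y).append (does_neg _ _)

/-- Test of a clause. -/
def chk (C : Cl) : List Op :=
  getNeg C.1 0 ++ getNeg C.2.1 1 ++ getNeg C.2.2 2 ++ pNand ++ pNeg ++ pNand ++
    (pAssert ++ (pNand ++ pNeg))

instance (β : ℕ → Bool) (C : Cl) : Decidable (C.Holds β) := by unfold Cl.Holds; infer_instance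

theorem run_chk (C : Cl) (y : ℕ → Bool) (K : (ℕ → Bool) → ℕ) :
    runK (chk C) y K = if C.Holds y then 2 * 24 ^ cA (chk C) * K y else 0 := by
  have h1 := (((((does_getNeg C.1 0 y).append (does_getNeg C.2.1 1 _)).append
    (does_getNeg C.2.2 2 _)).append (does_nand _ _ _)).append (does_neg _ _)).append
    (does_nand _ _ _)
  have h2 := ((does_nand true (y 0) (tl y)).append (does_neg _ _)) K
  have h3 : cA pAssert = 0 := by decide
  rw [Bool.not_not, Bool.true_and, sc_tl] at h2
  rw [chk, runK_append, h1, runK_append, run_assert, cA_append _ (pAssert ++ _),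
    cA_append pAssert, h3]
  have h4 : ∀ a b c d e f : Bool, (!(!!(xor c f && xor b e) && xor a d)) =
      decide (a = d ∨ b = e ∨ c = f) := by decide
  simp only [add_zero, sc_succ, h4]
  by_cases h : C.Holds y
  · rw [if_pos h, decide_eq_true (p := _ ∨ _ ∨ _) h, h2, zero_add, pow_add, cond_true]; ring
  · rw [if_neg h, decide_eq_false (p := _ ∨ _ ∨ _) h]; simp

theorem run_prog (φ : List Cl) (y : ℕ → Bool) (K : (ℕ → Bool) → ℕ) :
    runK (φ.flatMap chk) y K =
      if ∀ C ∈ φ, C.Holds y then 2 ^ φ.length * 24 ^ cA (φ.flatMap chk) * K y else 0 := by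
  induction φ with
  | nil => simp [runK, cA]
  | cons C φ ih =>
    rw [List.flatMap_cons, runK_append, run_chk, ih, cA_append]
    simp only [List.forall_mem_cons, ite_and, List.length_cons]
    split_ifs
    · ring
    · rfl
    · rfl

/-- The program testing a formula. -/
def prog (φ : List Cl) : List Op := pNeg ++ pNeg ++ φ.flatMap chk

/-- Number of satisfying assignments. -/
def numSat (φ : List Cl) (N : ℕ) : ℕ :=
  ∑ y : Fin N → Bool, if ∀ C ∈ φ, C.Holds (xt false y) then 1 else 0

/-- All variables are below `N`. -/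
def VarLt (φ : List Cl) (N : ℕ) : Prop := ∀ C ∈ φ, C.1.1 < N ∧ C.2.1.1 < N ∧ C.2.2.1 < N

theorem sum_extra (N : ℕ) : ∀ (W : ℕ) (F : (ℕ → Bool) → ℕ), N ≤ W →
    (∀ z z', Ag N z z' → F z = F z') →
    ∑ z : Fin W → Bool, F (xt false z) = 2 ^ (W - N) * ∑ z : Fin N → Bool, F (xt false z) := by
  induction N with
  | zero =>
    intro W F _ h
    rw [sum_congr rfl fun z _ => h _ (xt false (fun _ : Fin 0 => false))
      fun _ h => absurd h (Nat.not_lt_zero _)]
    simp only [sum_const, card_univ, Fintype.card_pi, Fintype.card_bool, prod_const,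
      Fintype.card_fin, smul_eq_mul, Nat.sub_zero, univ_unique, sum_singleton]
    exact congrArg _ (h _ _ fun _ h => absurd h (Nat.not_lt_zero _))
  | succ N ih =>
    intro W F hW h
    obtain ⟨W, rfl⟩ : ∃ W', W = W' + 1 := ⟨W - 1, by omega⟩
    rw [sum_xt, sum_xt, mul_sum, Nat.add_sub_add_right]
    refine sum_congr rfl fun a _ => ih W (fun z => F (sc a z)) (by omega) fun z z' hz =>
      h _ _ fun i hi => ?_
    rcases i with _ | i
    · rfl
    · exact hz i (by omega)

theorem pos_fetch (j : ℕ) : ∀ o ∈ fetch j, o.2.2 ≤ j + 5 := by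
  have h1 : ∀ o ∈ pDup, o.2.2 ≤ 5 := by decide
  have h2 : ∀ o ∈ pSwap, o.2.2 ≤ 5 := by decide +kernel
  simp only [fetch, sh, List.forall_mem_append, List.forall_mem_map, List.forall_mem_flatMap]
  exact ⟨fun o ho => by have := h1 o ho; omega, fun t _ o ho => by have := h2 o ho; omega⟩

theorem pos_prog {φ : List Cl} {N : ℕ} (h : VarLt φ N) : ∀ o ∈ prog φ, o.2.2 + 1 ≤ N + 7 := by
  have h0 : ∀ o ∈ pNeg, o.2.2 ≤ 5 := by decide
  have h1 : ∀ o ∈ pNand, o.2.2 ≤ 5 := by decide
  have h2 : ∀ o ∈ pAssert, o.2.2 ≤ 5 := by decide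
  have h3 : ∀ (l : Lit) d, ∀ o ∈ getNeg l d, o.2.2 ≤ l.1 + d + 5 := by
    intro l d o ho
    rcases List.mem_append.1 ho with a | a
    · exact pos_fetch _ o a
    · revert a
      cases l.2
      · simp
      · intro a; have := h0 o a; omega
  intro o ho
  simp only [prog, chk, List.mem_append, List.mem_flatMap] at ho
  rcases ho with (a | a) | ⟨C, hC, (((((a | a) | a) | a) | a) | a) | a | a | a⟩
  all_goals first
    | (have := h0 o a; omega)
    | (have := h1 o a; omega)
    | (have := h2 o a; omega)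
    | (have := h3 _ _ o a; have := h C hC; omega)

theorem F0_prog {φ : List Cl} {N w : ℕ} (h : VarLt φ N) (hw : N + 7 + (prog φ).length ≤ w) :
    F0 (prog φ) w = 2 ^ ((prog φ).filter fun o => o.1).length * (2 ^ φ.length * 24 ^ cA (prog φ)) *
      2 ^ (w - N) * numSat φ N := by
  have e : ∀ y, runK (prog φ) y (fun _ => 1) = 2 ^ φ.length * 24 ^ cA (prog φ) *
      if ∀ C ∈ φ, C.Holds y then 1 else 0 := by
    intro y
    have := (does_neg (y 0) (tl y)).append (does_neg _ _)
    rw [Bool.not_not, sc_tl] at this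
    rw [prog, runK_append, this, run_prog, cA_append (pNeg ++ pNeg),
      show cA (pNeg ++ pNeg) = 0 by decide]
    simp
  rw [F0_eq, sum_congr rfl fun y _ => Vw_eq (prog φ) _ _ (pos_prog h) hw fun _ _ => rfl]
  simp only [e, ← mul_sum]
  rw [sum_extra N w (fun y => if ∀ C ∈ φ, C.Holds y then 1 else 0) (by omega), numSat]
  · ring
  · intro z z' hz
    refine if_congr (forall₂_congr fun C hC => ?_) rfl rfl
    obtain ⟨a, b, c⟩ := h C hC
    rw [Cl.Holds, Cl.Holds, hz _ a, hz _ b, hz _ c]

/-- The program written with a bound in unary. -/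
def fetchU (u : List ℕ) (j : ℕ) : List Op :=
  sh j pDup ++ ((idx u).take j).flatMap fun t => sh (j - 1 - t) pSwap

/-- The program written with a bound in unary. -/
def progU (u : List ℕ) (φ : List Cl) : List Op := pNeg ++ pNeg ++ φ.flatMap fun C =>
  (fetchU u (C.1.1 + 0) ++ cond C.1.2 pNeg []) ++ (fetchU u (C.2.1.1 + 1) ++ cond C.2.1.2 pNeg [])
    ++ (fetchU u (C.2.2.1 + 2) ++ cond C.2.2.2 pNeg []) ++ pNand ++ pNeg ++ pNand ++
    (pAssert ++ (pNand ++ pNeg))

theorem progU_eq {u : List ℕ} {φ : List Cl} {N : ℕ} (h : VarLt φ N) (hu : N + 2 ≤ u.length) :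
    progU u φ = prog φ := by
  have e : ∀ j ≤ u.length, fetchU u j = fetch j := fun j hj => by
    rw [fetchU, fetch, idx, List.take_range, min_eq_left hj]
  unfold progU prog
  congr 1
  refine List.flatMap_congr fun C hC => ?_
  obtain ⟨a, b, c⟩ := h C hC
  rw [e _ (by omega), e _ (by omega), e _ (by omega)]
  rfl

@[fun_prop] theorem p_progU {α : Type} [N487b59b3 α] {u : α → List ℕ} {φ : α → List Cl}
    (hu : PolyT.Poly u) (hφ : PolyT.Poly φ) : PolyT.Poly (fun a => progU (u a) (φ a)) := by
  unfold progU fetchU sh; fun_prop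

end Pool.Agent.MP_f00251_lc.H81

end MrgPart1

-- ======== part 2: formerly Pool.Agent.MP_f00251_lc.H81.CountSat
section MrgPart2

/-!
A parsimonious form of the Cook-Levin theorem.
-/

set_option autoImplicit false
set_option linter.unusedSectionVars false
set_option linter.unusedVariables false

namespace Pool.Agent.MP_f00251_lc.H81

open Finset Pool.Agent.H82 Pool.Agent.PolyT N487b59b3 Function

/-- Names of the variables of the table. -/
def tv (m A C t i c : ℕ) : ℕ := m + ((t * A + i) * C + c)

theorem tv_lt {m A C T t i c : ℕ} (ht : t ≤ T) (hi : i < A) (hc : c < C) :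
    tv m A C t i c < m + (T + 1) * A * C :=
  Nat.add_lt_add_left (mul_add_lt (j := 0) hc (mul_add_lt (j := 0) hi (Nat.lt_succ_of_le ht))) m

variable (N : FSM)

/-- Number of codes. -/
def nC : ℕ := Fintype.card (N.Q ⊕ N.K × Option N.G)

theorem code_lt (x : N.Q ⊕ N.K × Option N.G) : N.code x < nC N := (Fintype.equivFin _ x).2

open Classical in
/-- The intended value of a variable. -/
noncomputable def truth (c : N.Q × (N.K → List N.G)) (i : ℕ) : N.Q ⊕ N.K × Option N.G → Bool
  | Sum.inl q => decide (c.1 = q)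
  | Sum.inr p => decide ((c.2 p.1)[i]? = p.2)

/-- The row `t` describes the configuration `c`. -/
def Row (m A : ℕ) (β : ℕ → Bool) (t : ℕ) (c : N.Q × (N.K → List N.G)) : Prop :=
  ∀ i < A, ∀ x, β (tv m A (nC N) t i (N.code x)) = truth N c i x

open Classical in
/-- Templates of the control clauses. -/
noncomputable def tZ : List (ℕ × ℕ × ℕ × Bool) :=
  (univ : Finset (N.Q × Option N.G × N.Q)).toList.map
    fun p => (N.cq p.1, N.cc (N.M.stk p.1) p.2.1, N.cq p.2.2, decide (N.M.next p.1 p.2.1 = p.2.2))

open Classical in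
/-- Templates of the cell clauses. -/
noncomputable def tC : List (ℕ × ℕ × ℕ × ℕ × Bool × Bool) :=
  (univ : Finset (N.Q × N.K × Option N.G × Bool)).toList.map
    fun p => (N.cq p.1, N.cc p.2.1 p.2.2.1, N.dd p.1 p.2.1, N.ee p.1 p.2.1,
      decide (N.M.op p.1 = some p.2.2.1), p.2.2.2)

open Classical in
/-- The value of a variable of the first row, given the content of the input cell. -/
noncomputable def tr0 (o : Option Bool) : N.Q ⊕ N.K × Option N.G → Bool
  | Sum.inl q => decide (N.q₀ = q)
  | Sum.inr p => decide ((if p.1 = N.k₀ then o.map N.inp else none) = p.2)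

/-- Templates of the clauses of the first row. -/
noncomputable def tI : List (ℕ × Bool × Bool × Bool × Bool) :=
  (univ : Finset ((N.Q ⊕ N.K × Option N.G) × Bool)).toList.map
    fun p => (N.code p.1, tr0 N (some false) p.1, tr0 N (some true) p.1, tr0 N none p.1, p.2)

/-- The clauses linking the rows `t` and `t + 1`. -/
noncomputable def stepCl (m : ℕ) (Al : List ℕ) (t : ℕ) : List Cl :=
  (idx Al).flatMap fun i =>
    (tZ N).map (fun p => ((tv m Al.length (nC N) t 0 p.1, false),
      (tv m Al.length (nC N) t 0 p.2.1, false),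
      (tv m Al.length (nC N) (t + 1) i p.2.2.1, p.2.2.2))) ++
    (tC N).map fun p => cond (ltB i p.2.2.2.1)
      ((tv m Al.length (nC N) t 0 p.1, false), (tv m Al.length (nC N) t 0 p.1, false),
        (tv m Al.length (nC N) (t + 1) i p.2.1, p.2.2.2.2.1))
      ((tv m Al.length (nC N) t 0 p.1, false),
        (tv m Al.length (nC N) t (cond (ltB (i - p.2.2.2.1 + p.2.2.1) Al.length)
          (i - p.2.2.2.1 + p.2.2.1) (Al.length - 1)) p.2.1, !p.2.2.2.2.2),
        (tv m Al.length (nC N) (t + 1) i p.2.1, p.2.2.2.2.2))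

/-- The clauses of the first row. -/
noncomputable def initCl (u : List Bool) (m : ℕ) (Al : List ℕ) : List Cl :=
  (idx Al).flatMap fun i => (tI N).map fun p => cond (ltB i u.length)
    (unitCl (tv m Al.length (nC N) 0 i p.1) (cond (u.getD i false) p.2.2.1 p.2.1))
    (cond (ltB i (u.length + m))
      ((i - u.length, !p.2.2.2.2), (i - u.length, !p.2.2.2.2),
        (tv m Al.length (nC N) 0 i p.1, cond p.2.2.2.2 p.2.2.1 p.2.1))
      (unitCl (tv m Al.length (nC N) 0 i p.1) p.2.2.2.1))

/-- The formula. -/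
noncomputable def formula (u : List Bool) (m : ℕ) (Al Tl : List ℕ) : List Cl :=
  unitCl (tv m Al.length (nC N) Tl.length 0 (N.cc N.k₁ (some (N.out true)))) true ::
    (initCl N u m Al ++ (idx Tl).flatMap (stepCl N m Al))

theorem p_formula {α : Type} [N487b59b3 α] {u : α → List Bool} {m : α → ℕ} {Al Tl : α → List ℕ}
    (hu : PolyT.Poly u) (hm : PolyT.Poly m) (hA : PolyT.Poly Al) (hT : PolyT.Poly Tl) :
    PolyT.Poly (fun a => formula N (u a) (m a) (Al a) (Tl a)) := by
  unfold formula initCl stepCl tv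
  fun_prop

variable {N}

theorem dd_le (q : N.Q) (k : N.K) : N.dd q k ≤ 1 := by unfold FSM.dd; split_ifs <;> omega

theorem varLt_formula (u : List Bool) (m : ℕ) (Al Tl : List ℕ) (hA : 0 < Al.length) :
    VarLt (formula N u m Al Tl) (m + (Tl.length + 1) * Al.length * nC N) := by
  have h := fun t (ht : t ≤ Tl.length) i (hi : i < Al.length) x =>
    tv_lt (m := m) ht hi (code_lt N x)
  simp only [VarLt, formula, initCl, stepCl, tZ, tC, tI, List.forall_mem_cons,
    List.forall_mem_append, List.forall_mem_flatMap, List.forall_mem_map, mem_idx, unitCl]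
  refine ⟨⟨h _ le_rfl _ hA _, h _ le_rfl _ hA _, h _ le_rfl _ hA _⟩, fun i hi p _ => ?_,
    fun t ht i hi => ⟨fun p _ => ⟨h _ ht.le _ hA _, h _ ht.le _ hA _, h _ ht _ hi _⟩,
      fun p _ => ?_⟩⟩
  · have := h 0 (Nat.zero_le _) i hi p.1
    by_cases c1 : i < u.length
    · simp [ltB, c1, this]
    · by_cases c2 : i < u.length + m
      · simp only [ltB, c1, c2, decide_true, decide_false, cond_true, cond_false, this, and_true]
        omega
      · simp [ltB, c1, c2, this]
  · cases ltB i (N.ee p.1 p.2.1)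
    · refine ⟨h _ ht.le _ hA _, h _ ht.le _ ?_ _, h _ ht _ hi _⟩
      by_cases c : i - N.ee p.1 p.2.1 + N.dd p.1 p.2.1 < Al.length <;> simp [ltB, c]
      omega
    · exact ⟨h _ ht.le _ hA _, h _ ht.le _ hA _, h _ ht _ hi _⟩

theorem truth_step (c : N.Q × (N.K → List N.G)) {A : ℕ} (hl : ∀ k, (c.2 k).length < A) {i : ℕ}
    (hi : i < A) (k : N.K) (γ : Option N.G) (h : ¬ i < N.ee c.1 k) :
    truth N (N.M.step c) i (Sum.inr (k, γ)) =
      truth N c (cond (ltB (i - N.ee c.1 k + N.dd c.1 k) A) (i - N.ee c.1 k + N.dd c.1 k) (A - 1))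
        (Sum.inr (k, γ)) := by
  have e := N.step_cell c k (i - N.ee c.1 k)
  rw [Nat.sub_add_cancel (not_lt.1 h)] at e
  refine decide_eq_decide.2 ?_
  simp only [e]
  by_cases c1 : i - N.ee c.1 k + N.dd c.1 k < A
  · simp [ltB, c1]
  · have := hl k
    simp only [ltB, c1, decide_false, cond_false]
    rw [List.getElem?_eq_none (by omega), List.getElem?_eq_none (by omega)]

open Classical in
theorem truth_push (c : N.Q × (N.K → List N.G)) {i : ℕ} (k : N.K) (γ : Option N.G)
    (h : i < N.ee c.1 k) :
    truth N (N.M.step c) i (Sum.inr (k, γ)) = decide (N.M.op c.1 = some γ) := by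
  unfold FSM.ee at h
  split_ifs at h with h2
  · obtain ⟨rfl, h3⟩ := h2
    obtain rfl : i = 0 := by omega
    rcases h4 : N.M.op c.1 with _ | _ | g
    · simp [h4] at h3
    · simp [h4] at h3
    · simp [truth, N.step_push c g h4]
  · omega

theorem step_iff {m : ℕ} {Al : List ℕ} {β : ℕ → Bool} {t : ℕ} {c : N.Q × (N.K → List N.G)}
    (hA : 0 < Al.length) (hl : ∀ k, (c.2 k).length < Al.length) (h : Row N m Al.length β t c) :
    (∀ C ∈ stepCl N m Al t, C.Holds β) ↔ Row N m Al.length β (t + 1) (N.M.step c) := by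
  have hq : ∀ q, β (tv m Al.length (nC N) t 0 (N.cq q)) = false ↔ c.1 ≠ q := fun q => by
    rw [FSM.cq, h 0 hA]; simp [truth]
  have hc : ∀ k γ, β (tv m Al.length (nC N) t 0 (N.cc k γ)) = false ↔ (c.2 k).head? ≠ γ :=
    fun k γ => by rw [FSM.cc, h 0 hA, List.head?_eq_getElem?]; simp [truth]
  have hb : ∀ i q k, i < Al.length → cond (ltB (i - N.ee q k + N.dd q k) Al.length)
      (i - N.ee q k + N.dd q k) (Al.length - 1) < Al.length := fun i q k hi => by
    by_cases c : i - N.ee q k + N.dd q k < Al.length <;> simp [ltB, c]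
    omega
  simp only [stepCl, tZ, tC, List.forall_mem_flatMap, List.forall_mem_append,
    List.forall_mem_map, mem_idx, mem_toList, mem_univ, true_imp_iff, Prod.forall, Row]
  refine forall₂_congr fun i hi => ⟨fun ⟨h1, h2⟩ x => ?_, fun h1 => ⟨fun q γ q' => ?_,
    fun q k γ s => ?_⟩⟩
  · rcases x with q | ⟨k, γ⟩
    · have := h1 c.1 (c.2 (N.M.stk c.1)).head? q
      simp only [Cl.Holds, hq, hc, ne_eq, not_true_eq_false, false_or] at this
      exact this
    · by_cases c1 : i < N.ee c.1 k
      · have := h2 c.1 k γ true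
        simp only [ltB, c1, decide_true, cond_true, Cl.Holds, hq, ne_eq, not_true_eq_false,
          false_or] at this
        rw [truth_push c k γ c1]
        exact this
      · have := h2 c.1 k γ (truth N (N.M.step c) i (Sum.inr (k, γ)))
        rw [show ltB i (N.ee c.1 k) = false by simpa using c1, cond_false] at this
        simp only [Cl.Holds, hq, ne_eq, not_true_eq_false, false_or] at this
        rw [FSM.cc, h _ (hb i _ _ hi), ← truth_step c hl hi k γ c1] at this
        simpa using this
  · simp only [Cl.Holds, hq, hc]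
    by_cases c1 : c.1 = q
    · subst c1
      by_cases c2 : (c.2 (N.M.stk c.1)).head? = γ
      · subst c2
        exact Or.inr (Or.inr (h1 (Sum.inl q')))
      · exact Or.inr (Or.inl c2)
    · exact Or.inl c1
  · by_cases c1 : c.1 = q
    · subst c1
      by_cases c2 : i < N.ee c.1 k
      · simp only [ltB, c2, decide_true, cond_true, Cl.Holds]
        exact Or.inr (Or.inr ((h1 (Sum.inr (k, γ))).trans (truth_push c k γ c2)))
      · rw [show ltB i (N.ee c.1 k) = false by simpa using c2, cond_false]
        refine Or.inr ?_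
        simp only
        rw [FSM.cc, h _ (hb i _ _ hi), ← truth_step c hl hi k γ c2, h1]
        cases s <;> simp
    · cases ltB i (N.ee q k) <;> exact Or.inl ((hq q).2 c1)

theorem truth_start (x : List Bool) (i : ℕ) (y : N.Q ⊕ N.K × Option N.G) :
    truth N (N.start x) i y = tr0 N x[i]? y := by
  rcases y with q | ⟨k, γ⟩
  · rfl
  · refine decide_eq_decide.2 ?_
    by_cases h : k = N.k₀ <;> simp [FSM.start, h]

theorem init_iff {u : List Bool} {m : ℕ} {Al : List ℕ} {β : ℕ → Bool} :
    (∀ C ∈ initCl N u m Al, C.Holds β) ↔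
      Row N m Al.length β 0 (N.start (u ++ (List.range m).map β)) := by
  simp only [initCl, tI, List.forall_mem_flatMap, List.forall_mem_map, mem_idx, mem_toList,
    mem_univ, true_imp_iff, Prod.forall, Row, truth_start]
  refine forall₂_congr fun i hi => forall_congr' fun x => ?_
  by_cases c1 : i < u.length
  · rw [List.getElem?_append_left c1, List.getElem?_eq_getElem c1, List.getD_eq_getElem _ _ c1]
    cases u[i] <;> simp [ltB, c1]
  · rw [List.getElem?_append_right (not_lt.1 c1)]
    by_cases c2 : i < u.length + m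
    · rw [List.getElem?_map, List.getElem?_range (by omega)]
      cases c3 : β (i - u.length) <;> simp [ltB, c1, c2, Cl.Holds, c3]
    · rw [List.getElem?_eq_none (by simp; omega)]
      simp [ltB, c1, c2]

theorem length_iter (c : N.Q × (N.K → List N.G)) (n : ℕ) (h : ∀ k, (c.2 k).length ≤ n) (t : ℕ) :
    ∀ k, ((N.M.step^[t] c).2 k).length ≤ n + t := by
  induction t with
  | zero => exact h
  | succ t ih =>
    intro k
    rw [iterate_succ_apply']
    generalize N.M.step^[t] c = d at ih
    have := ih k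
    unfold SM.step
    by_cases hk : k = N.M.stk d.1
    · subst hk
      simp only [update_self]
      rcases N.M.op d.1 with _ | _ | g <;> simp [upd] <;> omega
    · simp only [update_of_ne hk]; omega

theorem formula_iff {u : List Bool} {m : ℕ} {Al Tl : List ℕ} {β : ℕ → Bool}
    (hA : u.length + m + Tl.length < Al.length) {b : Bool}
    (hb : (N.M.step^[Tl.length] (N.start (u ++ (List.range m).map β))).2 N.k₁ = [N.out b]) :
    (∀ C ∈ formula N u m Al Tl, C.Holds β) ↔ (∀ t ≤ Tl.length,
      Row N m Al.length β t (N.M.step^[t] (N.start (u ++ (List.range m).map β)))) ∧ b = true := by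
  have hl : ∀ t ≤ Tl.length, ∀ k,
      ((N.M.step^[t] (N.start (u ++ (List.range m).map β))).2 k).length < Al.length := by
    intro t ht k
    have := length_iter (N.start (u ++ (List.range m).map β)) (u.length + m) (fun k => by
      simp only [FSM.start]; split_ifs <;> simp) t k
    omega
  have e : ((∀ C ∈ initCl N u m Al, C.Holds β) ∧
      ∀ t < Tl.length, ∀ C ∈ stepCl N m Al t, C.Holds β) ↔ ∀ t ≤ Tl.length,
      Row N m Al.length β t (N.M.step^[t] (N.start (u ++ (List.range m).map β))) := by
    rw [init_iff]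
    constructor
    · rintro ⟨h1, h2⟩ t
      induction t with
      | zero => exact fun _ => h1
      | succ t ih =>
        intro ht
        rw [iterate_succ_apply']
        exact (step_iff (by omega) (hl t (by omega)) (ih (by omega))).1 (h2 t ht)
    · intro h
      refine ⟨h 0 (Nat.zero_le _), fun t ht =>
        (step_iff (by omega) (hl t ht.le) (h t ht.le)).2 ?_⟩
      have := h (t + 1) ht
      rwa [iterate_succ_apply'] at this
  simp only [formula, List.forall_mem_cons, List.forall_mem_append, List.forall_mem_flatMap,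
    mem_idx, holds_unitCl, e]
  rw [and_comm]
  refine and_congr_right fun h => ?_
  rw [FSM.cc, h _ le_rfl 0 (by omega)]
  simp [truth, hb, N.out_inj.eq_iff]

theorem numSat_formula {u : List Bool} {m : ℕ} {Al Tl : List ℕ}
    (hA : u.length + m + Tl.length < Al.length) (R : List Bool → Bool)
    (hR : ∀ w : List Bool, w.length = m →
      (N.M.step^[Tl.length] (N.start (u ++ w))).2 N.k₁ = [N.out (R w)]) :
    numSat (formula N u m Al Tl) (m + (Tl.length + 1) * Al.length * nC N) =
      (univ.filter fun w : Fin m → Bool => R (List.ofFn w) = true).card := by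
  have hC : 0 < nC N := (Nat.zero_le _).trans_lt (code_lt N (Sum.inl N.q₀))
  have hA0 : 0 < Al.length := by omega
  have hf := fun β : ℕ → Bool => formula_iff (N := N) (β := β) hA (hR _ (by simp))
  have e1 : ∀ (β : ℕ → Bool) (w : Fin m → Bool), (∀ j, β j.1 = w j) →
      (List.range m).map β = List.ofFn w := fun β w h =>
    List.ext_getElem (by simp) fun i h1 h2 => by simp [← h]
  let full : (Fin m → Bool) → ℕ → Bool := fun w v => if h : v < m then w ⟨v, h⟩ else
    truth N (N.M.step^[(v - m) / nC N / Al.length] (N.start (u ++ List.ofFn w)))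
      ((v - m) / nC N % Al.length)
      ((Fintype.equivFin _).symm ⟨(v - m) % nC N, Nat.mod_lt _ hC⟩)
  rw [numSat, ← card_filter]
  refine card_nbij' (fun y j => xt false y j) (fun w v => full w v) ?_ ?_ ?_ ?_
  · intro y hy
    have := ((hf _).1 (mem_filter.1 hy).2).2
    rw [e1 _ _ fun _ => rfl] at this
    simpa using this
  · intro w hw
    have e2 : ∀ v < m + (Tl.length + 1) * Al.length * nC N,
        xt false (fun v : Fin (m + (Tl.length + 1) * Al.length * nC N) => full w v) v =
          full w v := fun v hv => dif_pos hv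
    have e3 := e1 _ w fun j => (e2 j (by have := j.2; omega)).trans (dif_pos j.2)
    refine mem_filter.2 ⟨mem_univ _, (hf _).2 ?_⟩
    rw [e3]
    refine ⟨fun t ht i hi x => ?_, by simpa using hw⟩
    rw [e2 _ (tv_lt ht hi (code_lt N x))]
    have a1 : (tv m Al.length (nC N) t i (N.code x) - m) / nC N = t * Al.length + i := by
      rw [tv, Nat.add_sub_cancel_left, add_comm, Nat.add_mul_div_right _ _ hC,
        Nat.div_eq_of_lt (code_lt N x), zero_add]
    have a2 : (tv m Al.length (nC N) t i (N.code x) - m) % nC N = N.code x := by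
      rw [tv, Nat.add_sub_cancel_left, add_comm, Nat.add_mul_mod_self_right,
        Nat.mod_eq_of_lt (code_lt N x)]
    simp only [full, dif_neg (show ¬ tv m Al.length (nC N) t i (N.code x) < m by
      unfold tv; omega), a1, a2]
    rw [add_comm, Nat.add_mul_div_right _ _ hA0, Nat.div_eq_of_lt hi, zero_add,
      Nat.add_mul_mod_self_right, Nat.mod_eq_of_lt hi]
    exact congrArg _ ((Fintype.equivFin _).symm_apply_apply x)
  · intro y hy
    have h := ((hf _).1 (mem_filter.1 hy).2).1
    funext v
    have e2 : xt false y v = y v := dif_pos v.2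
    simp only [full]
    split_ifs with c
    · exact e2
    · have a1 : (v - m) / nC N / Al.length ≤ Tl.length := by
        rw [Nat.div_div_eq_div_mul, ← Nat.lt_succ_iff, Nat.div_lt_iff_lt_mul (by positivity)]
        have : (v : ℕ) < m + (Tl.length + 1) * (nC N * Al.length) := by
          rw [mul_comm (nC N), ← mul_assoc]; exact v.2
        simp only [Nat.succ_eq_add_one]
        omega
      rw [← e1 (xt false y) _ fun _ => rfl, ← h _ a1 _ (Nat.mod_lt _ hA0), ← e2]
      congr 1
      simp only [FSM.code, Equiv.apply_symm_apply, tv]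
      rw [Nat.div_add_mod', Nat.div_add_mod']
      omega
  · intro w hw
    funext j
    exact (dif_pos (by have := j.2; omega)).trans (dif_pos j.2)

theorem count_sat {f : List Bool → ℕ} (hf : SharpP f) :
    ∃ g : List Bool → List Cl × List ℕ, PolyT.Poly g ∧
      ∀ x, VarLt (g x).1 (g x).2.length ∧ f x = numSat (g x).1 (g x).2.length := by
  obtain ⟨p, R, hR, hf⟩ := hf
  rw [← poly_iff] at hR
  have hx : PolyT.Poly (fun x : List Bool => bitEncode x) := PolyT.Poly.bitsOf (PT.refl _)
  obtain ⟨F, hF, hFl⟩ := exists_list_eval hx p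
  have hv : PolyT.Poly (fun y : List Bool × Raw => y.2.val) :=
    PolyT.Poly.bitsOf (PolyT.Poly.id.snd : PolyT.Poly (fun y : List Bool × Raw => y.2))
  have hR' : PolyT.Poly (fun y : List Bool × Raw => R (y.1, y.2.val)) := by fun_prop
  obtain ⟨N, r, hN⟩ := exists_fsm hR'
  obtain ⟨G, hG, hGl⟩ := exists_list_eval hx (r.comp (2 * Polynomial.X + 1 + p))
  have hu : PolyT.Poly (fun x : List Bool => delimit (bitEncode x)) :=
    PolyT.Poly.bitsOf (PT.delimit (PT.refl _))
  let Al : List Bool → List ℕ := fun x => 0 :: (idx (delimit (bitEncode x)) ++ F x ++ G x)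
  have hAl : PolyT.Poly Al := by fun_prop
  have hφ := p_formula N hu hF.length hAl hG
  refine ⟨fun x => (formula N (delimit (bitEncode x)) (F x).length (Al x) (G x),
    F x ++ (0 :: G x).flatMap fun _ => (Al x).flatMap fun _ => List.range (nC N)),
    by fun_prop, fun x => ?_⟩
  have e : (F x ++ (0 :: G x).flatMap fun _ => (Al x).flatMap fun _ =>
      List.range (nC N)).length = (F x).length + ((G x).length + 1) * (Al x).length * nC N := by
    simp only [List.length_append, List.length_flatMap, List.map_const', List.sum_replicate,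
      List.length_range, smul_eq_mul, List.length_cons, mul_assoc]
  simp only [e]
  refine ⟨varLt_formula _ _ _ _ (by simp [Al]), ?_⟩
  rw [numSat_formula (by simp [Al]; omega) (fun w => R (x, w)), hf, hFl]
  intro w hw
  refine hN (x, Raw.mk w) _ (le_of_eq ?_)
  rw [hGl, Polynomial.eval_comp, length_enc_pair]
  simp [hw, hFl]

end Pool.Agent.MP_f00251_lc.H81

end MrgPart2

-- ======== part 3: formerly Pool.Agent.MP_f00251_lc.H81.Main
section MrgPart3

/-!
The chain of reductions.
-/

set_option autoImplicit false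
set_option linter.unusedSectionVars false
set_option linter.unusedVariables false

namespace Pool.Agent.MP_f00251_lc.H81

open Finset Pool.Agent.H82 Pool.Agent.PolyT N487b59b3

theorem length_grid {β γ : Type} (a : List β) (b : List γ) :
    (grid a b).length = a.length * b.length := by
  simp [grid, List.length_flatMap]

theorem prod_dedup {C M : Type} [DecidableEq C] [CommMonoid M] {S : Finset C} {l : List C}
    (h : ∀ c, c ∈ S ↔ c ∈ l) (f : C → M) : (l.dedup.map f).prod = ∏ c ∈ S, f c := by
  rw [← List.prod_toFinset _ (List.nodup_dedup l)]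
  congr 1
  ext c
  simp [h]

/-- Multiplicities in unary. -/
def muB (ops : List Op) (nl : List ℕ) (c : Cls) : List ℕ :=
  cond (eqB c.1 2) [0, 0] (cond (eqB c.1 3)
    (cond ((opAt ops c.2.1).2.1 && eqB c.2.2 ((opAt ops c.2.1).2.2 + 1)) nl [0, 0]) [0])

theorem muB_length (ops : List Op) (nl : List ℕ) (c : Cls) :
    (muB ops nl c).length = mB ops nl.length c := by
  unfold muB mB
  cases eqB c.1 2 <;> cases eqB c.1 3 <;>
    cases ((opAt ops c.2.1).2.1 && eqB c.2.2 ((opAt ops c.2.1).2.2 + 1)) <;> rfl

/-- Chords of two kinds. -/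
def selL (ops : List Op) (wl : List ℕ) (a b : ℕ) : List Cls :=
  (baseL ops wl).filter fun c => eqB (kd c) a || eqB (kd c) b

theorem mem_selL {ops : List Op} {wl : List ℕ} {a b : ℕ} (c : Cls) :
    c ∈ sel ops.length wl.length a b ↔ c ∈ selL ops wl a b := by
  simp [selL, mem_sel, mem_SB, mem_baseL]

/-- Total multiplicity in unary. -/
def remU (ops : List Op) (nl : List ℕ) (l : List Cls) : List ℕ := l.dedup.flatMap (muB ops nl)

theorem remU_length {ops : List Op} {nl : List ℕ} {l : List Cls} {A : Finset Cls}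
    (h : ∀ c, c ∈ A ↔ c ∈ l) : (remU ops nl l).length = rem A (mB ops nl.length) 0 := by
  rw [remU, List.length_flatMap, ← List.sum_toFinset _ (List.nodup_dedup l), rem]
  refine sum_congr (by ext c; simp [h]) fun c _ => by simp [muB_length]

/-- A list of even length. -/
def ev (l : List ℕ) : List ℕ := 0 :: 0 :: (l ++ l)

/-- A list of odd length. -/
def odl (l : List ℕ) : List ℕ := 0 :: (l ++ l)

theorem ev_length (l : List ℕ) : (ev l).length = 2 * l.length + 2 := by
  simp only [ev, List.length_cons, List.length_append]; omega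

theorem odl_length (l : List ℕ) : (odl l).length = 2 * l.length + 1 := by
  simp only [odl, List.length_cons, List.length_append]; omega

section poly

variable {α : Type} [N487b59b3 α]

@[fun_prop] theorem p_ev {l : α → List ℕ} (hl : PolyT.Poly l) :
    PolyT.Poly (fun a => ev (l a)) := by unfold ev; fun_prop

@[fun_prop] theorem p_odl {l : α → List ℕ} (hl : PolyT.Poly l) :
    PolyT.Poly (fun a => odl (l a)) := by unfold odl; fun_prop

@[fun_prop] theorem p_muB {o : α → List Op} {l : α → List ℕ} {c : α → Cls} (ho : PolyT.Poly o)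
    (hl : PolyT.Poly l) (hc : PolyT.Poly c) : PolyT.Poly (fun a => muB (o a) (l a) (c a)) := by
  unfold muB; fun_prop

@[fun_prop] theorem p_kd {c : α → Cls} (hc : PolyT.Poly c) : PolyT.Poly (fun a => kd (c a)) := by
  unfold kd; fun_prop

@[fun_prop] theorem p_gb {o : α → List Op} {c : α → Cls} (ho : PolyT.Poly o) (hc : PolyT.Poly c) :
    PolyT.Poly (fun a => gb (o a) (c a)) := by
  unfold gb; fun_prop

@[fun_prop] theorem p_selL {o : α → List Op} {l : α → List ℕ} (ho : PolyT.Poly o)
    (hl : PolyT.Poly l) (a b : ℕ) : PolyT.Poly (fun x => selL (o x) (l x) a b) := by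
  unfold selL; fun_prop

@[fun_prop] theorem p_remU {o : α → List Op} {l : α → List ℕ} {c : α → List Cls}
    (ho : PolyT.Poly o) (hl : PolyT.Poly l) (hc : PolyT.Poly c) :
    PolyT.Poly (fun a => remU (o a) (l a) (c a)) := by
  unfold remU; fun_prop

end poly

/-- Programs with a width. -/
abbrev X1 : Type := List Op × List ℕ

/-- Programs with a width and a multiplicity. -/
abbrev X2 : Type := X1 × List ℕ

/-- Admissible programs. -/
def Adm (x : X1) : Prop :=
  (∀ h < x.1.length, (opAt x.1 h).2.2 + 1 < x.2.length) ∧ 1 < x.1.length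

theorem Adm.pos {x : X1} (h : Adm x) : 0 < x.2.length := by
  have := h.1 0 (by have := h.2; omega); omega

theorem red_sat {f : List Bool → ℕ} (hf : SharpP f) : LinRed (fun _ => True) f
    (fun y : List Cl × List ℕ => VarLt y.1 y.2.length) fun y => numSat y.1 y.2.length := by
  obtain ⟨g, hg, h⟩ := count_sat hf
  exact LinRed.single hg (PolyT.Poly.const 1) (PolyT.Poly.const 1) fun x _ =>
    ⟨(h x).1, Nat.one_pos, by simp [(h x).2]⟩

theorem red_F0 : LinRed (fun y : List Cl × List ℕ => VarLt y.1 y.2.length)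
    (fun y => numSat y.1 y.2.length) Adm fun x => F0 x.1 x.2.length := by
  refine LinRed.single (φ := fun y => (progU (0 :: 0 :: y.2) y.1,
    y.2 ++ (List.replicate 7 0 ++ idx (progU (0 :: 0 :: y.2) y.1)))) (n := fun _ => 1)
    (d := fun y => powU 2 ((progU (0 :: 0 :: y.2) y.1).filter fun o => o.1) *
      (powU 2 y.1 * powU 24 ((progU (0 :: 0 :: y.2) y.1).filter fun o => o.1 && !o.2.1)) *
      powU 2 (List.replicate 7 0 ++ idx (progU (0 :: 0 :: y.2) y.1)))
    (by fun_prop) (by fun_prop) (by fun_prop) fun y hy => ?_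
  have hT : 1 < (prog y.1).length := by simp [prog, pNeg]
  simp only [progU_eq hy (show y.2.length + 2 ≤ (0 :: 0 :: y.2).length from le_rfl), powU_eq, Adm,
    List.length_append, List.length_replicate, length_idx]
  refine ⟨⟨fun h hh => ?_, hT⟩, by positivity, ?_⟩
  · have := pos_prog hy (opAt (prog y.1) h) (by simp [opAt, hh])
    omega
  · rw [F0_prog hy (by omega), Nat.add_sub_cancel_left, cA]
    push_cast
    ring

theorem red_F1 : LinRed Adm (fun x => F0 x.1 x.2.length) (fun x : X2 => Adm x.1)
    fun x => F1 x.1.1 x.1.2.length (ev x.2).length :=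
  LinRed.extrap (u := fun x => (grid x.1 x.2).flatMap fun _ => [0, 0, 0]) (by fun_prop) 1
    Nat.one_pos (fun x j => F1 x.1 x.2.length (2 * j + 2)) (fun x l => by rw [ev_length])
    (fun _ _ h => h) fun x _ => by
      simpa [List.length_flatMap, length_grid, mul_comm _ 3] using F_nil x.1 x.2.length

theorem red_Q0 : LinRed (fun x : X2 => Adm x.1) (fun x => F1 x.1.1 x.1.2.length (ev x.2).length)
    (fun x : X2 => Adm x.1) fun x => Q0 x.1.1 x.1.2.length (ev x.2).length := by
  refine LinRed.single (φ := fun x => x)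
    (n := fun x => powU 6 (grid (0 :: idx x.1.1) x.1.2) * ((grid x.1.1 x.1.2).dedup.map fun γ =>
      facU (remU x.1.1 (ev x.2) ((selL x.1.1 x.1.2 3 4).filter fun c => eqB (gb x.1.1 c) γ))).prod)
    (d := fun x => facU ((grid (0 :: idx x.1.1) x.1.2).flatMap fun _ => [0, 0, 0]) *
      facU (remU x.1.1 (ev x.2) (selL x.1.1 x.1.2 3 3)) *
      facU (remU x.1.1 (ev x.2) (selL x.1.1 x.1.2 4 4)) * facU (grid (0 :: idx x.1.1) x.1.2))
    (by fun_prop) (by fun_prop) (by fun_prop) fun x hx => ⟨hx, ?_, ?_⟩
  · simp only [facU_eq]; positivity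
  obtain ⟨⟨ops, wl⟩, l⟩ := x
  have e : ∀ γ, (remU ops (ev l) ((selL ops wl 3 4).filter fun c => eqB (gb ops c) γ)).length =
      rem (blk ops wl.length γ) (mB ops (ev l).length) 0 := fun γ =>
    remU_length fun c => by simp [blk, mem_selL]
  have e1 : Gam ops.length wl.length 1 =
      (range ops.length ×ˢ range wl.length).filter fun γ => ¬ γ.1 % 2 = 0 :=
    filter_congr fun γ _ => by omega
  simp only [facU_eq, powU_eq, e, remU_length mem_selL]
  rw [prod_dedup (S := range ops.length ×ˢ range wl.length) (fun γ => by simp [mem_grid]), Q0,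
    final_count (by rw [ev_length]; exact ⟨l.length + 1, by ring⟩) hx.1 (by have := hx.2; omega),
    F1, mul_sum]
  push_cast
  rw [sum_mul]
  refine sum_congr rfl fun σ _ => ?_
  simp only [VW, List.length_flatMap, length_grid, List.length_cons, length_idx, List.map_const',
    List.sum_replicate, smul_eq_mul, List.length_nil, Nat.reduceAdd, mul_comm _ 3, prod_div_distrib]
  rw [← prod_filter_mul_prod_filter_not _ fun γ : ℕ × ℕ => γ.1 % 2 = 0,
    ← prod_filter_mul_prod_filter_not (range ops.length ×ˢ range wl.length)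
      fun γ : ℕ × ℕ => γ.1 % 2 = 0, ← e1, ← Gam]
  have h0 : ∀ r, (∏ γ ∈ Gam ops.length wl.length r,
      ((rem (blk ops wl.length γ) (mB ops (ev l).length) 0).factorial : ℚ)) ≠ 0 := fun r =>
    prod_ne_zero_iff.2 fun _ _ => by positivity
  have := h0 0
  have := h0 1
  field_simp

theorem ev_even (l : List ℕ) : Even (ev l).length := by
  rw [ev_length]; exact ⟨l.length + 1, by ring⟩

theorem red_Q1 : LinRed (fun x : X2 => Adm x.1) (fun x => Q0 x.1.1 x.1.2.length (ev x.2).length)
    (fun x : X2 × List ℕ => Adm x.1.1)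
    fun x => Q1 x.1.1.1 x.1.1.2.length (ev x.1.2).length (x.2.length + 1) :=
  LinRed.diff (u := fun x => idx (grid (0 :: idx x.1.1) x.1.2)) (by fun_prop)
    (fun x j => Q1 x.1.1 x.1.2.length (ev x.2).length (j + 1)) (fun _ _ => rfl) (fun _ _ h => h)
    fun x hx => by simpa [length_grid] using step1 hx.2 hx.pos

theorem red_Q2 : LinRed (fun x : X2 × List ℕ => Adm x.1.1)
    (fun x => Q1 x.1.1.1 x.1.1.2.length (ev x.1.2).length (x.2.length + 1))
    (fun x : (X2 × List ℕ) × List ℕ => Adm x.1.1.1) fun x =>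
      Q2 x.1.1.1.1 x.1.1.1.2.length (ev x.1.1.2).length (x.1.2.length + 1) (x.2.length + 1) :=
  LinRed.diff (u := fun x => idx (grid (0 :: idx x.1.1.1) x.1.1.2) ++
    remU x.1.1.1 (ev x.1.2) (selL x.1.1.1 x.1.1.2 4 4) ++ 0 :: x.2) (by fun_prop)
    (fun x j => Q2 x.1.1.1 x.1.1.2.length (ev x.1.2).length (x.2.length + 1) (j + 1))
    (fun _ _ => rfl) (fun _ _ h => h) fun x hx => by
      simpa only [List.length_append, length_idx, length_grid, List.length_cons,
        remU_length mem_selL] using step2 hx.2 hx.pos (x.2.length + 1)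

/-- Instances with the two free bundles. -/
abbrev X4 : Type := (X2 × List ℕ) × List ℕ

theorem base_length (ops : List Op) (wl nl : List ℕ) : (remU ops nl (baseL ops wl)).length =
    rem (SB ops.length wl.length) (mB ops nl.length) 0 :=
  remU_length fun c => by rw [mem_SB, mem_baseL]

theorem red_Q3 : LinRed (fun x : X4 => Adm x.1.1.1) (fun x =>
      Q2 x.1.1.1.1 x.1.1.1.2.length (ev x.1.1.2).length (x.1.2.length + 1) (x.2.length + 1))
    (fun x : X4 × List ℕ => Adm x.1.1.1.1) fun x => Q3 x.1.1.1.1.1 x.1.1.1.1.2.length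
      (ev x.1.1.1.2).length (x.1.1.2.length + 1) (x.1.2.length + 1) (odl x.2).length :=
  LinRed.extrap (u := fun x => remU x.1.1.1.1 (ev x.1.1.2) (baseL x.1.1.1.1 x.1.1.1.2) ++
    0 :: x.1.2 ++ 0 :: x.2 ++ [0]) (by fun_prop) 2 Nat.two_pos (fun x j => Q3 x.1.1.1.1
      x.1.1.1.2.length (ev x.1.1.2).length (x.1.2.length + 1) (x.2.length + 1) (2 * j + 1))
    (fun x l => by rw [odl_length]) (fun _ _ h => h) fun x hx => by
      simpa only [List.length_append, List.length_cons, base_length, List.length_nil, zero_add,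
        Nat.cast_ofNat] using step3 (ev_even _) hx.pos _ (x.2.length + 1) (Nat.succ_pos _)

theorem red_Q4 : LinRed (fun x : X4 × List ℕ => Adm x.1.1.1.1) (fun x => Q3 x.1.1.1.1.1
      x.1.1.1.1.2.length (ev x.1.1.1.2).length (x.1.1.2.length + 1) (x.1.2.length + 1)
      (odl x.2).length)
    (fun x : (X4 × List ℕ) × List ℕ => Adm x.1.1.1.1.1) fun x => Q4 x.1.1.1.1.1.1
      x.1.1.1.1.1.2.length (ev x.1.1.1.1.2).length (x.1.1.1.2.length + 1) (x.1.1.2.length + 1)
      (odl x.1.2).length (odl x.2).length :=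
  LinRed.extrap (u := fun x => remU x.1.1.1.1.1 (ev x.1.1.1.2) (baseL x.1.1.1.1.1 x.1.1.1.1.2) ++
    0 :: x.1.1.2 ++ 0 :: x.1.2 ++ odl x.2 ++ [0, 0]) (by fun_prop) 2 Nat.two_pos (fun x j =>
      Q4 x.1.1.1.1.1 x.1.1.1.1.2.length (ev x.1.1.1.2).length (x.1.1.2.length + 1)
        (x.1.2.length + 1) (odl x.2).length (2 * j + 1))
    (fun x l => by rw [odl_length l]) (fun _ _ h => h) fun x hx => by
      simpa only [List.length_append, List.length_cons, base_length, List.length_nil, zero_add,
        Nat.cast_ofNat, Nat.reduceAdd] using step4 (ev_even _) (Nat.zero_lt_of_lt hx.2) hx.pos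
          (x.1.1.2.length + 1) _ (odl x.2).length (Nat.succ_pos _)

/-- Instances with two gadgets. -/
abbrev X6 : Type := (X4 × List ℕ) × List ℕ

theorem red_Q5 : LinRed (fun x : X6 => Adm x.1.1.1.1.1) (fun x => Q4 x.1.1.1.1.1.1
      x.1.1.1.1.1.2.length (ev x.1.1.1.1.2).length (x.1.1.1.2.length + 1) (x.1.1.2.length + 1)
      (odl x.1.2).length (odl x.2).length)
    (fun x : X6 × List ℕ => Adm x.1.1.1.1.1.1) fun x => Q5 x.1.1.1.1.1.1.1
      x.1.1.1.1.1.1.2.length (ev x.1.1.1.1.1.2).length (x.1.1.1.1.2.length + 1)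
      (x.1.1.1.2.length + 1) (odl x.1.1.2).length (odl x.1.2).length (odl x.2).length :=
  LinRed.extrap (u := fun x => remU x.1.1.1.1.1.1 (ev x.1.1.1.1.2)
    (baseL x.1.1.1.1.1.1 x.1.1.1.1.1.2) ++ 0 :: x.1.1.1.2 ++ 0 :: x.1.1.2 ++ odl x.1.2 ++ odl x.2 ++
    [0, 0, 0]) (by fun_prop) 2 Nat.two_pos (fun x j => Q5 x.1.1.1.1.1.1 x.1.1.1.1.1.2.length
      (ev x.1.1.1.1.2).length (x.1.1.1.2.length + 1) (x.1.1.2.length + 1) (odl x.1.2).length
      (odl x.2).length (2 * j + 1))
    (fun x l => by rw [odl_length l]) (fun _ _ h => h) fun x hx => by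
      simpa only [List.length_append, List.length_cons, base_length, List.length_nil, zero_add,
        Nat.cast_ofNat, Nat.reduceAdd] using step5 (ev_even _) (Nat.zero_lt_of_lt hx.2) hx.pos
          (x.1.1.1.2.length + 1) (x.1.1.2.length + 1) (odl x.1.2).length (odl x.2).length

/-- All bundles. -/
def allL (ops : List Op) (wl : List ℕ) : List Cls :=
  [(4, 0, 0), (5, 0, 0), (6, 0, 0), (7, 0, 0), (8, 0, 0), (9, 0, 0), (10, 0, 0), (11, 0, 0)] ++
    baseL ops wl

theorem mem_allL {ops : List Op} {wl : List ℕ} (c : Cls) :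
    c ∈ S0 ops.length wl.length ↔ c ∈ allL ops wl := by
  simp [allL, S0, S1, S2, S3, mem_SB, mem_baseL]

/-- All multiplicities in unary. -/
def mu5 (ops : List Op) (nl a b c d e : List ℕ) (x : Cls) : List ℕ :=
  cond (eqB x (4, 0, 0)) e (cond (eqB x (6, 0, 0)) d (cond (eqB x (8, 0, 0)) c
    (cond (eqB x (10, 0, 0)) b (cond (eqB x (11, 0, 0)) a (muB ops nl x)))))

theorem mu5_length (ops : List Op) (nl a b c d e : List ℕ) (x : Cls) :
    (mu5 ops nl a b c d e x).length =
      M5 ops nl.length a.length b.length c.length d.length e.length x := by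
  simp only [mu5, M5, M4, M3, M2, Function.update_apply, eqB, Bool.cond_decide]
  split_ifs <;> first | rfl | exact muB_length _ _ _

/-- The permutation of an instance. -/
def inst (ops : List Op) (wl : List ℕ) (mu : Cls → List ℕ) : List ℤ :=
  permOf (table (allL ops wl) (pos ops wl.length ((ops.length + 1) * wl.length)) (lv ops) mu
    ((allL ops wl).flatMap mu).length) (idx (grid (((grid (0 :: idx ops) wl).flatMap
      fun _ => List.replicate 20 0) ++ List.replicate 30 0) ((allL ops wl).flatMap mu)))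

theorem red_opt : LinRed (fun x : X6 × List ℕ => Adm x.1.1.1.1.1.1) (fun x => Q5 x.1.1.1.1.1.1.1
      x.1.1.1.1.1.1.2.length (ev x.1.1.1.1.1.2).length (x.1.1.1.1.2.length + 1)
      (x.1.1.1.2.length + 1) (odl x.1.1.2).length (odl x.1.2).length (odl x.2).length)
    IsSignedPerm numOpt := by
  refine LinRed.single (φ := fun x => inst x.1.1.1.1.1.1.1 x.1.1.1.1.1.1.2 (mu5 x.1.1.1.1.1.1.1
    (ev x.1.1.1.1.1.2) (0 :: x.1.1.1.1.2) (0 :: x.1.1.1.2) (odl x.1.1.2) (odl x.1.2) (odl x.2)))
    (n := fun _ => 1) (d := fun x => ((allL x.1.1.1.1.1.1.1 x.1.1.1.1.1.1.2).dedup.map fun c =>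
      facU (mu5 x.1.1.1.1.1.1.1 (ev x.1.1.1.1.1.2) (0 :: x.1.1.1.1.2) (0 :: x.1.1.1.2) (odl x.1.1.2)
        (odl x.1.2) (odl x.2) c)).prod) (by unfold inst table allL mu5; fun_prop) (by fun_prop)
    (by unfold allL mu5; fun_prop) ?_
  rintro ⟨⟨⟨⟨⟨⟨⟨ops, wl⟩, l⟩, a⟩, b⟩, c⟩, d⟩, e⟩ hx
  have o : ∀ l, Odd (odl l).length := fun l => ⟨_, odl_length l⟩
  have hm := mu5_length ops (ev l) (0 :: a) (0 :: b) (odl c) (odl d) (odl e)
  generalize mu5 ops (ev l) (0 :: a) (0 :: b) (odl c) (odl d) (odl e) = mu at hm ⊢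
  have := numOpt_cls (allL ops wl) (pos ops wl.length ((ops.length + 1) * wl.length)) (lv ops) mu
    ((allL ops wl).flatMap mu).length (idx (grid (((grid (0 :: idx ops) wl).flatMap
      fun _ => List.replicate 20 0) ++ List.replicate 30 0) ((allL ops wl).flatMap mu)))
    mem_allL (fun x _ => hm x)
    (fun x hx => by
      rw [← hm, List.length_flatMap]
      exact List.le_sum_of_mem (List.mem_map_of_mem (f := fun x => (mu x).length)
        ((mem_allL x).1 hx)))
    (fun x hx => (pos_lt (mem_S0 hx)).1) (fun x hx y hy => pos_inj (mem_S0 hx) (mem_S0 hy))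
    (fun x hx => ?_) (fe_full (ev_even l) (o c) (o d) (o e))
    (ori_full (Nat.zero_lt_of_lt hx.2) hx.pos (Nat.succ_pos _) (Nat.succ_pos _))
  · refine ⟨this.1, List.prod_pos (by
      simp only [facU_eq, List.forall_mem_map]; exact fun _ _ => Nat.factorial_pos _), ?_⟩
    simp only [facU_eq, hm]
    rw [inst, this.2, prod_dedup mem_allL, Q5, paths_iff fun _ => and_iff_left trivial]
    push_cast
    rw [one_mul, mul_comm]
    rfl
  · rw [length_idx, length_grid]
    refine Nat.mul_le_mul_right _ ?_
    have := (pos_lt (mem_S0 hx)).2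
    simp only [List.length_append, List.length_flatMap, List.length_replicate, List.map_const',
      List.sum_replicate, smul_eq_mul, length_grid, List.length_cons, length_idx]
    omega

theorem hardness {f : List Bool → ℕ} (hf : SharpP f) :
    ∃ (q : List Bool → List (List ℤ)) (post : List Bool × List ℕ → ℕ), N68a2faeb.IsPolyTime q ∧
      N68a2faeb.IsPolyTime post ∧
      ∀ x, (∀ π ∈ q x, IsSignedPerm π) ∧ f x = post (x, (q x).map numOpt) :=
  ((red_sat hf).trans (red_F0.trans (red_F1.trans (red_Q0.trans (red_Q1.trans (red_Q2.trans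
    (red_Q3.trans (red_Q4.trans (red_Q5.trans red_opt))))))))).oracle

end Pool.Agent.MP_f00251_lc.H81

end MrgPart3

-- ======== part 4: formerly Pool.Agent.MP_f00251_lc.H81.Bridge
section MrgPart4

/-!
Translation to the common definitions.
-/

set_option autoImplicit false

namespace Pool.Agent.MP_f00251_lc.H81

theorem numOpt_eq : MP_f00251_lc.numOpt = H81.numOpt := by
  funext π
  unfold MP_f00251_lc.numOpt H81.numOpt Opt dist
  congr 1
  ext l
  refine and_congr_right fun hl => ⟨fun h => ?_, fun h t ht => h ▸ Nat.sInf_le ⟨t, ht, rfl⟩⟩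
  obtain ⟨t, ht, e⟩ := Nat.sInf_mem (s := {k | ∃ l, H81.Sorts π l ∧ l.length = k}) ⟨_, l, hl, rfl⟩
  exact le_antisymm (e ▸ h t ht) (Nat.sInf_le ⟨l, hl, rfl⟩)

end Pool.Agent.MP_f00251_lc.H81

end MrgPart4

-- ======== part 5: formerly Pool.Agent.MP_f00251_lc.Mem.Main
section MrgPart5

/-! The number of optimal sorting sequences is a counting function. -/

set_option autoImplicit false

namespace Pool.Agent.MP_f00251_lc

theorem member : MemberStmt := member_of distStmt

end Pool.Agent.MP_f00251_lc

end MrgPart5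

-- marker of a merged file
example : 731051 + 368886 = 731051 + 368886 := rfl
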